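import Pool.Agent.H574R3.Fix.Mats

open Matrix

namespace H574R3.Fix

variable {R : Type} [CommRing R]

/-- lcm of `a^k - 1`, `k = 1..4` -/
def wa (a : R) : R := (a - 1) * (a + 1) * (a ^ 2 + a + 1) * (a ^ 2 + 1)

/-- coordinate projector -/
def Eg (R : Type) [CommRing R] (j : Fin 5) : Matrix (Fin 5) (Fin 5) R :=
  Matrix.diagonal (Pi.single j 1)

theorem Eg_mulVec (j : Fin 5) (y : Fin 5 → R) : Eg R j *ᵥ y = Pi.single j (y j) := by
  funext i
  rw [Eg, Matrix.mulVec_diagonal]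
  by_cases h : i = j
  · subst h; simp
  · simp [h]

theorem Eg_mul_self (j : Fin 5) : Eg R j * Eg R j = Eg R j := by
  rw [Eg, Matrix.diagonal_mul_diagonal]
  congr 1
  funext i
  by_cases h : i = j
  · subst h; simp
  · simp [h]

theorem Eg_mul_ne {j k : Fin 5} (h : j ≠ k) : Eg R j * Eg R k = 0 := by
  rw [Eg, Eg, Matrix.diagonal_mul_diagonal]
  have : (fun i => (Pi.single j (1 : R) : Fin 5 → R) i * (Pi.single k (1 : R) : Fin 5 → R) i) =
      fun _ => 0 := by
    funext i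
    by_cases h1 : i = j
    · subst h1; simp [h]
    · simp [h1]
  rw [this]
  exact Matrix.diagonal_zero

theorem Eg_sum : ∑ j, Eg R j = 1 := by
  ext i k
  rw [Matrix.sum_apply]
  by_cases h : i = k
  · subst h
    simp only [Eg, Matrix.diagonal_apply_eq, Matrix.one_apply_eq]
    rw [Finset.sum_eq_single i]
    · simp
    · intro j _ hj; simp [hj.symm]
    · intro h; exact absurd (Finset.mem_univ _) h
  · simp [Eg, h]

/-- the matrix `(1-a)^16 w(a) u_c E_jj u_c⁻¹` -/
def Mh (a b : R) (j : Fin 5) : Matrix (Fin 5) (Fin 5) R :=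
  (wa a * (1 - a) ^ 8) • (Um a b * Eg R j * Vm a b)

/-- the scalar `(1-a)^16 w(a)` -/
def Wh (a : R) : R := wa a * (1 - a) ^ 16

theorem Mh_mul_ne (a b : R) {j k : Fin 5} (h : j ≠ k) : Mh a b j * Mh a b k = 0 := by
  rw [Mh, Mh, Matrix.smul_mul, Matrix.mul_smul]
  have : Um a b * Eg R j * Vm a b * (Um a b * Eg R k * Vm a b) = 0 := by
    calc Um a b * Eg R j * Vm a b * (Um a b * Eg R k * Vm a b)
        = Um a b * Eg R j * (Vm a b * Um a b) * (Eg R k * Vm a b) := by
          simp only [Matrix.mul_assoc]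
      _ = (1 - a) ^ 8 • (Um a b * (Eg R j * Eg R k) * Vm a b) := by
          rw [Vm_mul_Um, Matrix.mul_smul, Matrix.mul_one, Matrix.smul_mul]
          simp only [Matrix.mul_assoc]
      _ = 0 := by rw [Eg_mul_ne h]; simp
  rw [this]; simp

theorem Mh_mul_self (a b : R) (j : Fin 5) : Mh a b j * Mh a b j = Wh a • Mh a b j := by
  rw [Mh, Matrix.smul_mul, Matrix.mul_smul]
  have : Um a b * Eg R j * Vm a b * (Um a b * Eg R j * Vm a b) =
      (1 - a) ^ 8 • (Um a b * Eg R j * Vm a b) := by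
    calc Um a b * Eg R j * Vm a b * (Um a b * Eg R j * Vm a b)
        = Um a b * Eg R j * (Vm a b * Um a b) * (Eg R j * Vm a b) := by
          simp only [Matrix.mul_assoc]
      _ = (1 - a) ^ 8 • (Um a b * (Eg R j * Eg R j) * Vm a b) := by
          rw [Vm_mul_Um, Matrix.mul_smul, Matrix.mul_one, Matrix.smul_mul]
          simp only [Matrix.mul_assoc]
      _ = _ := by rw [Eg_mul_self]
  rw [this, smul_smul, smul_smul, smul_smul, Wh]
  congr 1
  ring

theorem Mh_sum (a b : R) : ∑ j, Mh a b j = Wh a • 1 := by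
  simp only [Mh]
  rw [← Finset.smul_sum]
  have : ∑ j, Um a b * Eg R j * Vm a b = (1 - a) ^ 8 • 1 := by
    rw [← Finset.sum_mul, ← Finset.mul_sum, Eg_sum, Matrix.mul_one, Um_mul_Vm]
  rw [this, smul_smul, Wh]
  congr 1
  ring

theorem Eg_Dm (j : Fin 5) (a : R) : Eg R j * Dm a = Dm a * Eg R j := by
  rw [Eg, Dm, Matrix.diagonal_mul_diagonal, Matrix.diagonal_mul_diagonal]
  congr 1; funext i; ring

theorem Mh_conj (a b α β : R) (j : Fin 5) :
    Mh a (α * b + (1 - a) * β) j * affMat α β = affMat α β * Mh a b j := by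
  rw [Mh, Mh, Matrix.smul_mul, Matrix.mul_smul]
  congr 1
  calc Um a (α * b + (1 - a) * β) * Eg R j * Vm a (α * b + (1 - a) * β) * affMat α β
      = Um a (α * b + (1 - a) * β) * Eg R j * (Vm a (α * b + (1 - a) * β) * affMat α β) := by
        simp only [Matrix.mul_assoc]
    _ = Um a (α * b + (1 - a) * β) * (Eg R j * Dm α) * Vm a b := by
        rw [Vm_mul_aff']; simp only [Matrix.mul_assoc]
    _ = Um a (α * b + (1 - a) * β) * Dm α * Eg R j * Vm a b := by
        rw [Eg_Dm]; simp only [Matrix.mul_assoc]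
    _ = _ := by rw [← aff_mul_Um]; simp only [Matrix.mul_assoc]

theorem Um_map {S : Type} [CommRing S] (φ : R →+* S) (a b : R) :
    Um (φ a) (φ b) = (Um a b).map φ := by
  ext i j; simp [Um]

theorem Vm_map {S : Type} [CommRing S] (φ : R →+* S) (a b : R) :
    Vm (φ a) (φ b) = (Vm a b).map φ := by
  ext i j; simp [Vm]

theorem Eg_map {S : Type} [CommRing S] (φ : R →+* S) (j : Fin 5) :
    Eg S j = (Eg R j).map φ := by
  ext i k
  by_cases h : i = k
  · subst h
    by_cases h2 : i = j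
    · subst h2; simp [Eg]
    · simp [Eg, h2]
  · simp [Eg, h]

theorem Mh_map {S : Type} [CommRing S] (φ : R →+* S) (a b : R) (j : Fin 5) :
    Mh (φ a) (φ b) j = (Mh a b j).map φ := by
  have h : (Um a b * Eg R j * Vm a b).map φ =
      (Um a b).map φ * (Eg R j).map φ * (Vm a b).map φ := by
    rw [Matrix.map_mul, Matrix.map_mul]
  rw [Mh, Mh, Um_map, Vm_map, Eg_map φ, ← h]
  ext i k
  simp only [Matrix.smul_apply, Matrix.map_apply, smul_eq_mul, map_mul]
  congr 1
  simp [wa]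

/-! ### the eigenvalue functions -/

/-- the parameter `a = t²` -/
def FixPt.a (p : FixPt R) : R := (p.g.t : R) ^ 2
/-- the parameter `b = t s` -/
def FixPt.b (p : FixPt R) : R := (p.g.t : R) * p.g.s

theorem rel_lt (a : R) (ha : IsUnit a) (y : Fin 5 → R)
    (h : ∀ i j : Fin 5, y i * (a ^ (j : ℕ) * y j) = y j * (a ^ (i : ℕ) * y i))
    (i j : Fin 5) (hij : i < j) : wa a * (y i * y j) = 0 := by
  have key : ∀ k : ℕ, (j : ℕ) = i + k → (a ^ k - 1) * (y i * y j) = 0 := by
    intro k hk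
    have h1 := h i j
    rw [hk, pow_add] at h1
    have h2 : a ^ (i : ℕ) * ((a ^ k - 1) * (y i * y j)) = 0 := by linear_combination h1
    exact (ha.pow _).mul_right_eq_zero.mp h2
  obtain ⟨k, hk⟩ : ∃ k : ℕ, (j : ℕ) = i + k := ⟨j - i, by omega⟩
  have h1 := key k hk
  have hk1 : 1 ≤ k := by omega
  have hk4 : k ≤ 4 := by omega
  rw [wa]
  interval_cases k
  · linear_combination (a + 1) * (a ^ 2 + a + 1) * (a ^ 2 + 1) * h1
  · linear_combination (a ^ 2 + a + 1) * (a ^ 2 + 1) * h1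
  · linear_combination (a + 1) * (a ^ 2 + 1) * h1
  · linear_combination (a ^ 2 + a + 1) * h1

theorem rel_ne (a : R) (ha : IsUnit a) (y : Fin 5 → R)
    (h : ∀ i j : Fin 5, y i * (a ^ (j : ℕ) * y j) = y j * (a ^ (i : ℕ) * y i))
    (i j : Fin 5) (hij : i ≠ j) : wa a * (y i * y j) = 0 := by
  rcases lt_or_gt_of_ne hij with h1 | h1
  · exact rel_lt a ha y h i j h1
  · rw [mul_comm (y i)]; exact rel_lt a ha y h j i h1

/-- if `x` is unimodular and `x ∧ z = 0`, then `z` is a unique multiple of `x`. -/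
theorem eig_exists (x z : Fin 5 → R) (hx : ∃ y : Fin 5 → R, ∑ i, y i * x i = 1)
    (h : ∀ i j, x i * z j = x j * z i) : ∃ r : R, z = r • x := by
  obtain ⟨y, hy⟩ := hx
  refine ⟨∑ i, y i * z i, ?_⟩
  funext k
  rw [Pi.smul_apply, smul_eq_mul, Finset.sum_mul]
  calc z k = (∑ i, y i * x i) * z k := by rw [hy, one_mul]
    _ = _ := by
        rw [Finset.sum_mul]
        refine Finset.sum_congr rfl fun i _ => ?_
        linear_combination y i * h i k

theorem eig_unique (x : Fin 5 → R) (hx : ∃ y : Fin 5 → R, ∑ i, y i * x i = 1) (r r' : R)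
    (h : r • x = r' • x) : r = r' := by
  obtain ⟨y, hy⟩ := hx
  have : ∀ i, r * x i = r' * x i := fun i => congrFun h i
  calc r = ∑ i, y i * (r * x i) := by
        symm
        calc ∑ i, y i * (r * x i) = r * ∑ i, y i * x i := by
              rw [Finset.mul_sum]; exact Finset.sum_congr rfl fun i _ => by ring
          _ = r := by rw [hy, mul_one]
    _ = ∑ i, y i * (r' * x i) := by simp only [this]
    _ = r' := by
        calc ∑ i, y i * (r' * x i) = r' * ∑ i, y i * x i := by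
              rw [Finset.mul_sum]; exact Finset.sum_congr rfl fun i _ => by ring
          _ = r' := by rw [hy, mul_one]

theorem Fj_exists (p : FixPt R) (j : Fin 5) : ∃ r : R, Mh p.a p.b j *ᵥ p.x = r • p.x := by
  refine eig_exists p.x _ p.unimod ?_
  set y := Vm p.a p.b *ᵥ p.x with hy
  have hfix := p.fixed
  have h1 : ∀ i k : Fin 5, y i * (p.a ^ (k : ℕ) * y k) = y k * (p.a ^ (i : ℕ) * y i) := by
    intro i k
    have h2 := wedge_mulVec (Vm p.a p.b) p.x (p.g.rho *ᵥ p.x) hfix i k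
    have h3 : ∀ k, (Vm p.a p.b *ᵥ (p.g.rho *ᵥ p.x)) k = p.a ^ (k : ℕ) * y k := by
      intro k
      rw [Matrix.mulVec_mulVec, B2.rho]
      change ((Vm p.a p.b * affMat p.a p.b) *ᵥ p.x) k = _
      rw [Vm_mul_aff, ← Matrix.mulVec_mulVec, Dm, Matrix.mulVec_diagonal]
    rw [h3, h3] at h2
    exact h2
  have ha : IsUnit p.a := p.g.t.isUnit.pow 2
  have h2 := rel_ne p.a ha y h1
  have h3 : Um p.a p.b *ᵥ y = (1 - p.a) ^ 8 • p.x := by
    rw [hy, Matrix.mulVec_mulVec, Um_mul_Vm, Matrix.smul_mulVec, Matrix.one_mulVec]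
  have h4 : Mh p.a p.b j *ᵥ p.x =
      (1 - p.a) ^ 8 • (Um p.a p.b *ᵥ (wa p.a • (Pi.single j (y j) : Fin 5 → R))) := by
    rw [Mh, Matrix.smul_mulVec, ← Matrix.mulVec_mulVec, ← Matrix.mulVec_mulVec, Eg_mulVec,
      Matrix.mulVec_smul, smul_smul, mul_comm (wa p.a)]
  have h5 := wedge_mulVec (Um p.a p.b) y (wa p.a • (Pi.single j (y j) : Fin 5 → R)) (by
    intro i k
    simp only [Pi.smul_apply, smul_eq_mul]
    by_cases hik : i = k
    · subst hik; rfl
    · by_cases hk : k = j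
      · subst hk
        have hi : i ≠ k := hik
        rw [Pi.single_eq_same, Pi.single_eq_of_ne hi, mul_zero, mul_zero]
        linear_combination h2 i k hi
      · rw [Pi.single_eq_of_ne hk, mul_zero, mul_zero]
        by_cases hi : i = j
        · subst hi
          rw [Pi.single_eq_same]
          linear_combination -h2 k i hk
        · rw [Pi.single_eq_of_ne hi, mul_zero, mul_zero])
  intro i k
  have h6 := h5 i k
  rw [h3] at h6
  rw [h4]
  simpa only [Pi.smul_apply, smul_eq_mul, mul_comm, mul_left_comm, mul_assoc] using h6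

/-- the eigenvalue function `F_j` -/
noncomputable def Fj (j : Fin 5) (p : FixPt R) : R := (Fj_exists p j).choose

theorem Fj_spec (j : Fin 5) (p : FixPt R) : Mh p.a p.b j *ᵥ p.x = Fj j p • p.x :=
  (Fj_exists p j).choose_spec

theorem Fj_eq (j : Fin 5) (p : FixPt R) (r : R) (h : Mh p.a p.b j *ᵥ p.x = r • p.x) :
    Fj j p = r := by
  apply eig_unique p.x p.unimod
  rw [← Fj_spec, h]

theorem Fj_map {S : Type} [CommRing S] (φ : R →+* S) (j : Fin 5) (p : FixPt R) :
    φ (Fj j p) = Fj j (p.map φ) := by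
  symm
  apply Fj_eq
  have h1 : (p.map φ).a = φ p.a := by simp [FixPt.a, FixPt.map, B2.map]
  have h2 : (p.map φ).b = φ p.b := by simp [FixPt.b, FixPt.map, B2.map]
  rw [h1, h2, Mh_map]
  funext i
  have h3 : (p.map φ).x = φ ∘ p.x := rfl
  rw [h3, ← RingHom.map_mulVec, Fj_spec]
  simp

theorem Fj_scale (j : Fin 5) (u : Rˣ) (p : FixPt R) : Fj j (p.scale u) = Fj j p := by
  apply Fj_eq
  change Mh p.a p.b j *ᵥ ((u : R) • p.x) = Fj j p • ((u : R) • p.x)
  rw [Matrix.mulVec_smul, Fj_spec, smul_comm]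

theorem conj_t (h : B2 R) (p : FixPt R) : (p.conj h).g.t = p.g.t := by
  simp only [FixPt.conj, B2.mul_t, B2.inv_t]
  rw [mul_comm h.t, mul_assoc, mul_inv_cancel, mul_one]

theorem conj_a (h : B2 R) (p : FixPt R) : (p.conj h).a = p.a := by
  rw [FixPt.a, conj_t, FixPt.a]

theorem conj_b (h : B2 R) (p : FixPt R) :
    (p.conj h).b = (h.t : R) ^ 2 * p.b + (1 - p.a) * ((h.t : R) * h.s) := by
  rw [FixPt.b, conj_t]
  simp only [FixPt.conj, B2.mul_s, B2.inv_s, B2.mul_t, B2.inv_t, FixPt.a, FixPt.b, inv_inv,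
    Units.val_mul]
  have := p.g.t.mul_inv
  linear_combination (h.t : R) * h.s * this

theorem Fj_conj (j : Fin 5) (h : B2 R) (p : FixPt R) : Fj j (p.conj h) = Fj j p := by
  apply Fj_eq
  rw [conj_a, conj_b]
  change Mh p.a _ j *ᵥ (h.rho *ᵥ p.x) = Fj j p • (h.rho *ᵥ p.x)
  rw [Matrix.mulVec_mulVec, B2.rho, Mh_conj, ← Matrix.mulVec_mulVec, Fj_spec, Matrix.mulVec_smul]

theorem Fj_mul_ne {j k : Fin 5} (hjk : j ≠ k) (p : FixPt R) : Fj j p * Fj k p = 0 := by
  apply eig_unique p.x p.unimod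
  have h : (Mh p.a p.b j * Mh p.a p.b k) *ᵥ p.x = (0 : Matrix (Fin 5) (Fin 5) R) *ᵥ p.x := by
    rw [Mh_mul_ne p.a p.b hjk]
  rw [← Matrix.mulVec_mulVec, Fj_spec, Matrix.mulVec_smul, Fj_spec, smul_smul,
    Matrix.zero_mulVec] at h
  rw [mul_comm, h, zero_smul]

theorem Fj_mul_self (j : Fin 5) (p : FixPt R) : Fj j p * Fj j p = Wh p.a * Fj j p := by
  apply eig_unique p.x p.unimod
  have h : (Mh p.a p.b j * Mh p.a p.b j) *ᵥ p.x = (Wh p.a • Mh p.a p.b j) *ᵥ p.x := by
    rw [Mh_mul_self]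
  rw [← Matrix.mulVec_mulVec, Fj_spec, Matrix.mulVec_smul, Fj_spec, smul_smul,
    Matrix.smul_mulVec, Fj_spec, smul_smul] at h
  exact h

theorem Fj_sum (p : FixPt R) : ∑ j, Fj j p = Wh p.a := by
  apply eig_unique p.x p.unimod
  have h : (∑ j, Mh p.a p.b j) *ᵥ p.x = (Wh p.a • (1 : Matrix (Fin 5) (Fin 5) R)) *ᵥ p.x := by
    rw [Mh_sum]
  rw [Matrix.sum_mulVec, Matrix.smul_mulVec, Matrix.one_mulVec] at h
  rw [Finset.sum_smul, ← h]
  exact Finset.sum_congr rfl fun j _ => (Fj_spec j p).symm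

end H574R3.Fix
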