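import Pool.Agent.H574R3.Fix.AFun

open Matrix

namespace H574R3.Fix

theorem FixPt.ext' {R : Type} [CommRing R] {p q : FixPt R} (h1 : p.g = q.g) (h2 : p.x = q.x) :
    p = q := by
  cases p; cases q; simp_all

theorem aff_zero {R : Type} [CommRing R] (a : R) : affMat a 0 = Dm a := by
  ext i j
  fin_cases i <;> fin_cases j <;> simp [affMat, Dm, Nat.choose]

/-- the point `(diag(u, u⁻¹), e_j)` -/
def tpt {R : Type} [CommRing R] (u : Rˣ) (j : Fin 5) : FixPt R where
  g := ⟨u, 0⟩
  x := Pi.single j 1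
  unimod := ⟨(Pi.single j 1 : Fin 5 → R), by
    rw [Finset.sum_eq_single j (fun i _ hi => by rw [Pi.single_eq_of_ne hi, mul_zero])
      (fun h => absurd (Finset.mem_univ _) h), Pi.single_eq_same, mul_one]⟩
  fixed := by
    intro i k
    have h0 : (⟨u, 0⟩ : B2 R).rho = Dm ((u : R) ^ 2) := by
      rw [B2.rho, mul_zero, aff_zero]
    rw [h0, Dm, Matrix.mulVec_diagonal, Matrix.mulVec_diagonal]
    by_cases hi : i = j
    · subst hi
      by_cases hk : k = i
      · subst hk; rfl
      · simp [hk]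
    · simp [hi]

theorem tpt_map {R S : Type} [CommRing R] [CommRing S] (φ : R →+* S) (u : Rˣ) (j : Fin 5) :
    (tpt u j).map φ = tpt (Units.map φ u) j := by
  apply FixPt.ext'
  · ext
    · rfl
    · simp [tpt, FixPt.map, B2.map]
  · funext i
    by_cases hi : i = j
    · subst hi; simp [tpt, FixPt.map]
    · simp [tpt, FixPt.map, hi]

theorem Mh_zero {R : Type} [CommRing R] (a : R) (j : Fin 5) :
    Mh a 0 j = Wh a • Eg R j := by
  have h1 : Um a 0 = (1 - a) ^ 4 • (1 : Matrix (Fin 5) (Fin 5) R) := by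
    ext i k
    fin_cases i <;> fin_cases k <;> simp [Um, Nat.choose]
  have h2 : Vm a 0 = (1 - a) ^ 4 • (1 : Matrix (Fin 5) (Fin 5) R) := by
    ext i k
    fin_cases i <;> fin_cases k <;> simp [Vm, Nat.choose]
  rw [Mh, h1, h2, Matrix.smul_mul, Matrix.one_mul, Matrix.mul_smul, Matrix.mul_one, smul_smul,
    smul_smul, Wh]
  congr 1
  ring

abbrev app (f : InvFun) (R : CommAlgCat.{0} ℂ) (p : FixPt R) : R := f.1 R p

theorem app_nat (f : InvFun) {R S : CommAlgCat.{0} ℂ} (φ : R →ₐ[ℂ] S) (p : FixPt R) :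
    φ (app f R p) = app f S (p.map (φ : R →+* S)) := f.2.1 R S φ p

/-- diagonal case -/
theorem local0 (f : InvFun) (j : Fin 5) (R : CommAlgCat.{0} ℂ) (p : FixPt R) (hs : p.g.s = 0) :
    Fj j p * (app f R p - app f R (tpt p.g.t j)) = 0 := by
  have hb : p.b = 0 := by rw [FixPt.b, hs, mul_zero]
  have h1 := Fj_spec j p
  rw [hb, Mh_zero, Matrix.smul_mulVec, Eg_mulVec] at h1
  have h2 : ∀ i, i ≠ j → p.x i * Fj j p = 0 := by
    intro i hi
    have := congrFun h1 i
    simp only [Pi.smul_apply, Pi.single_eq_of_ne hi, smul_eq_mul, mul_zero] at this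
    rw [mul_comm]; exact this.symm
  let J : Ideal R :=
    { carrier := {r | r * Fj j p = 0}
      add_mem' := by
        intro a b ha hb
        change (a + b) * Fj j p = 0
        rw [add_mul, show a * Fj j p = 0 from ha, show b * Fj j p = 0 from hb, add_zero]
      zero_mem' := by change (0 : R) * Fj j p = 0; rw [zero_mul]
      smul_mem' := by
        intro c a ha
        change c * a * Fj j p = 0
        rw [mul_assoc, show a * Fj j p = 0 from ha, mul_zero] }
  let S : CommAlgCat.{0} ℂ := CommAlgCat.of ℂ (R ⧸ J)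
  let q : R →ₐ[ℂ] S := Ideal.Quotient.mkₐ ℂ J
  have hq0 : ∀ r : R, q r = 0 ↔ r * Fj j p = 0 := fun r => Ideal.Quotient.eq_zero_iff_mem
  obtain ⟨y, hy⟩ := p.unimod
  have hu : q (y j) * q (p.x j) = 1 := by
    have := congrArg q hy
    rw [map_one, map_sum, Finset.sum_eq_single j] at this
    · rw [← this, map_mul]
    · intro i _ hi
      rw [map_mul, (hq0 (p.x i)).mpr (h2 i hi), mul_zero]
    · intro h; exact absurd (Finset.mem_univ _) h
  let u : Sˣ := ⟨q (p.x j), q (y j), by rw [mul_comm]; exact hu, hu⟩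
  have hpt : p.map (q : R →+* S) = (tpt (Units.map (q : R →+* S) p.g.t) j).scale u := by
    apply FixPt.ext'
    · apply B2.ext
      · rfl
      · change q p.g.s = 0
        rw [hs, map_zero]
    · funext i
      change q (p.x i) = (u : S) * (Pi.single j (1 : S) : Fin 5 → S) i
      by_cases hi : i = j
      · subst hi; simp [u]
      · rw [(hq0 (p.x i)).mpr (h2 i hi), Pi.single_eq_of_ne hi, mul_zero]
  have h3 : q (app f R p) = q (app f R (tpt p.g.t j)) := by
    rw [app_nat f, app_nat f, hpt, tpt_map]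
    exact f.2.2.1 S u _
  have h4 : q (app f R p - app f R (tpt p.g.t j)) = 0 := by rw [map_sub, h3, sub_self]
  rw [mul_comm]
  exact (hq0 _).mp h4

/-- case where `1 - t²` is invertible -/
theorem local1 (f : InvFun) (j : Fin 5) (R : CommAlgCat.{0} ℂ) (p : FixPt R)
    (hu : IsUnit (1 - p.a)) :
    Fj j p * (app f R p - app f R (tpt p.g.t j)) = 0 := by
  obtain ⟨v, hv⟩ := hu
  let h : B2 R := ⟨1, -(p.b * ((v⁻¹ : Rˣ) : R))⟩
  have hb : (p.conj h).b = 0 := by
    rw [conj_b, ← hv]
    simp only [h, Units.val_one]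
    linear_combination (-p.b) * v.mul_inv
  have hs : (p.conj h).g.s = 0 := by
    rw [FixPt.b] at hb
    exact (p.conj h).g.t.isUnit.mul_right_eq_zero.mp hb
  have h1 := local0 f j R (p.conj h) hs
  rw [Fj_conj, conj_t] at h1
  have h2 : app f R (p.conj h) = app f R p := f.2.2.2 R h p
  rw [h2] at h1
  exact h1

/-- general case, with a denominator -/
theorem local2 (f : InvFun) (j : Fin 5) (R : CommAlgCat.{0} ℂ) (p : FixPt R) :
    ∃ M : ℕ, (1 - p.a) ^ M * (Fj j p * (app f R p - app f R (tpt p.g.t j))) = 0 := by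
  let S : CommAlgCat.{0} ℂ := CommAlgCat.of ℂ (Localization.Away (1 - p.a))
  let φ : R →ₐ[ℂ] S := IsScalarTower.toAlgHom ℂ R (Localization.Away (1 - p.a))
  have h1 := local1 f j S (p.map (φ : R →+* S)) (by
    have h2 : (1 : S) - (p.map (φ : R →+* S)).a = algebraMap R (Localization.Away (1 - p.a))
        (1 - p.a) := by
      rw [map_sub, map_one]
      congr 1
      have : (p.map (φ : R →+* S)).a = φ p.a := by
        simp [FixPt.a, FixPt.map, B2.map]
      exact this
    rw [h2]
    exact IsLocalization.Away.algebraMap_isUnit (1 - p.a))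
  have h3 : φ (Fj j p * (app f R p - app f R (tpt p.g.t j))) = 0 := by
    rw [map_mul, map_sub, app_nat f, app_nat f, tpt_map]
    have := Fj_map (φ : R →+* S) j p
    rw [show φ (Fj j p) = Fj j (p.map (φ : R →+* S)) from this]
    exact h1
  have h4 : algebraMap R (Localization.Away (1 - p.a))
      (Fj j p * (app f R p - app f R (tpt p.g.t j))) = algebraMap R _ 0 := by
    rw [map_zero]; exact h3
  obtain ⟨⟨c, M, hc⟩, h5⟩ := (IsLocalization.eq_iff_exists (Submonoid.powers (1 - p.a))
    (Localization.Away (1 - p.a))).mp h4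
  refine ⟨M, ?_⟩
  simp only [mul_zero] at h5
  rw [← hc] at h5
  exact h5

/-- the bound is uniform -/
theorem local3 (f : InvFun) (j : Fin 5) :
    ∃ M : ℕ, ∀ (R : CommAlgCat.{0} ℂ) (p : FixPt R),
      (1 - p.a) ^ M * (Fj j p * (app f R p - app f R (tpt p.g.t j))) = 0 := by
  by_contra hcon
  push Not at hcon
  choose R p hp using hcon
  let S : CommAlgCat.{0} ℂ := CommAlgCat.of ℂ (∀ n, R n)
  choose y hy using fun n => (p n).unimod
  let g : B2 (∀ n, R n) := ⟨⟨fun n => ((p n).g.t : R n), fun n => (((p n).g.t⁻¹ : (R n)ˣ) : R n),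
    by funext n; simp, by funext n; simp⟩, fun n => (p n).g.s⟩
  let x : Fin 5 → (∀ n, R n) := fun i n => (p n).x i
  have hg : ∀ n, g.map (Pi.evalRingHom (fun n => (R n : Type)) n) = (p n).g := by
    intro n
    apply B2.ext
    · apply Units.ext; rfl
    · rfl
  have hx : ∀ n, (Pi.evalRingHom (fun n => (R n : Type)) n) ∘ x = (p n).x := fun n => rfl
  have hgx : ∀ n i, (g.rho *ᵥ x) i n = ((p n).g.rho *ᵥ (p n).x) i := by
    intro n i
    have h1 := RingHom.map_mulVec (Pi.evalRingHom (fun n => (R n : Type)) n) g.rho x i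
    rw [← B2.rho_map, hg, hx] at h1
    exact h1
  let P : FixPt S :=
    { g := g
      x := x
      unimod := ⟨fun i n => y n i, by
        funext n
        rw [Finset.sum_apply]
        exact hy n⟩
      fixed := by
        intro i k
        funext n
        change (p n).x i * (g.rho *ᵥ x) k n = (p n).x k * (g.rho *ᵥ x) i n
        rw [hgx, hgx]
        exact (p n).fixed i k }
  obtain ⟨M, hM⟩ := local2 f j S P
  apply hp M
  let φ : S →ₐ[ℂ] R M := Pi.evalAlgHom ℂ (fun n => (R n : Type)) M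
  have hPM : P.map (φ : S →+* R M) = p M := FixPt.ext' (hg M) (hx M)
  have h1 := congrArg φ hM
  rw [map_mul, map_pow, map_mul, map_sub, map_one, map_zero, map_sub, app_nat f, app_nat f,
    tpt_map] at h1
  have h2 : φ (Fj j P) = Fj j (P.map (φ : S →+* R M)) := Fj_map (φ : S →+* R M) j P
  rw [h2, hPM] at h1
  have h3 : φ P.a = (p M).a := by rw [← hPM]; simp [FixPt.a, FixPt.map, B2.map]
  have h4 : Units.map (φ : S →+* R M) P.g.t = (p M).g.t := by rw [← hPM]; rfl
  rw [h3] at h1
  erw [h4] at h1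
  exact h1

end H574R3.Fix
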