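import Pool.Agent.H574R3.Fix.TB

open MvPolynomial Matrix

set_option linter.unusedSectionVars false

namespace H574R3.Fix

variable {n : Type} [Fintype n] [DecidableEq n]

/-- spectral projector of an operator of order four -/
noncomputable def spr (μ : ℂ) (S : Matrix n n ℂ) : Matrix n n ℂ :=
  (1 / 4 : ℂ) • (1 + μ • S + μ ^ 2 • (S * S) + μ ^ 3 • (S * S * S))

theorem spr_idem {μ : ℂ} (hμ : μ ^ 4 = 1) {S : Matrix n n ℂ} (hS : S * S * (S * S) = 1) :
    spr μ S * spr μ S = spr μ S := by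
  set Y := μ • S with hY
  have h4 : Y * Y * (Y * Y) = 1 := by
    rw [hY]
    simp only [Matrix.smul_mul, Matrix.mul_smul, smul_smul, hS]
    rw [show μ * μ * (μ * μ) = 1 by rw [← hμ]; ring]
    simp
  have hs : spr μ S = (1 / 4 : ℂ) • (1 + Y + Y * Y + Y * Y * Y) := by
    rw [spr, hY]
    simp only [Matrix.smul_mul, Matrix.mul_smul, smul_smul]
    rw [show μ * (μ * μ) = μ ^ 3 by ring, show μ * μ = μ ^ 2 by ring]
  have key : (1 + Y + Y * Y + Y * Y * Y) * (1 + Y + Y * Y + Y * Y * Y) =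
      (4 : ℂ) • (1 + Y + Y * Y + Y * Y * Y) := by
    have e : (1 + Y + Y * Y + Y * Y * Y) * (1 + Y + Y * Y + Y * Y * Y) =
        4 • (1 + Y + Y * Y + Y * Y * Y) + (Y * Y * (Y * Y) - 1) * (Y * Y + 2 • Y + 3 • 1) := by
      noncomm_ring
    rw [e, h4, sub_self, Matrix.zero_mul, add_zero, ← Nat.cast_smul_eq_nsmul ℂ]
    norm_num
  rw [hs]
  simp only [Matrix.smul_mul, Matrix.mul_smul, smul_smul]
  rw [key, smul_smul]
  norm_num

theorem spr_sum (S : Matrix n n ℂ) :
    S = spr 1 S + (-Complex.I) • spr Complex.I S + (-1 : ℂ) • spr (-1) S +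
      Complex.I • spr (-Complex.I) S := by
  have hI : Complex.I ^ 2 = -1 := Complex.I_sq
  have hI3 : Complex.I ^ 3 = -Complex.I := by rw [pow_succ, hI]; ring
  simp only [spr]
  ext i j
  simp only [Matrix.add_apply, Matrix.smul_apply, smul_eq_mul]
  generalize (1 : Matrix n n ℂ) i j = a
  generalize S i j = b
  generalize (S * S) i j = c
  generalize (S * S * S) i j = d
  have h1 : Complex.I * Complex.I = -1 := Complex.I_mul_I
  have h3 : (-Complex.I) ^ 2 = -1 := by rw [neg_sq, hI]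
  have h4 : (-Complex.I) ^ 3 = Complex.I := by rw [Odd.neg_pow (by decide), hI3, neg_neg]
  rw [hI, hI3, h3, h4]
  linear_combination ((1 / 2 : ℂ) * b - (1/2 : ℂ) * d) * h1

theorem TB.secondDiff (B : TB n) :
    (B.A Complex.I (bv 0) * B.H 0).trace - 2 * (B.A Complex.I (bv 1) * B.H 1).trace +
      (B.A Complex.I (bv 2) * B.H 2).trace = 0 := by
  have hI0 : Complex.I ≠ 0 := Complex.I_ne_zero
  have hI4 : Complex.I ^ 4 = 1 := Complex.I_pow_four
  have htI : ∀ v, tst Complex.I v = v := by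
    intro v; funext i; simp only [tst]; rw [pow_mul, hI4, one_pow, one_mul]
  have htm : ∀ v, tst (-1) v = v := by
    intro v; funext i; simp only [tst]
    rw [pow_mul, show (-1 : ℂ) ^ 4 = 1 by norm_num, one_pow, one_mul]
  set S := fun v => B.A Complex.I v with hSdef
  have hS2 : ∀ v, v ≠ 0 → S v * S v = B.A (-1) v := by
    intro v hv
    have := B.A_mul Complex.I Complex.I v hI0 hI0 hv
    rw [htI, Complex.I_mul_I] at this
    exact this.symm
  have hS4 : ∀ v, v ≠ 0 → S v * S v * (S v * S v) = 1 := by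
    intro v hv
    rw [hS2 v hv]
    have := B.A_mul (-1) (-1) v (by norm_num) (by norm_num) hv
    rw [htm, show (-1 : ℂ) * (-1) = 1 by norm_num, B.A_one v hv] at this
    exact this.symm
  have hcomm : ∀ t v, t ≠ 0 → v ≠ 0 → B.A t v * S v = S (tst t v) * B.A t v := by
    intro t v ht hv
    have h1 := B.A_mul t Complex.I v ht hI0 hv
    have h2 := B.A_mul Complex.I t v hI0 ht hv
    rw [htI] at h1
    rw [← h1, ← h2, mul_comm]
  have hcommP : ∀ μ t v, t ≠ 0 → v ≠ 0 → B.A t v * spr μ (S v) = spr μ (S (tst t v)) * B.A t v := by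
    intro μ t v ht hv
    have h1 := hcomm t v ht hv
    have h2 : B.A t v * (S v * S v) = S (tst t v) * S (tst t v) * B.A t v := by
      rw [← Matrix.mul_assoc, h1, Matrix.mul_assoc, h1, ← Matrix.mul_assoc]
    have h3 : B.A t v * (S v * S v * S v) = S (tst t v) * S (tst t v) * S (tst t v) * B.A t v := by
      rw [← Matrix.mul_assoc, h2, Matrix.mul_assoc, h1, ← Matrix.mul_assoc]
    simp only [spr, Matrix.mul_smul, Matrix.smul_mul, Matrix.mul_add, Matrix.add_mul,
      Matrix.mul_one, Matrix.one_mul, h1, h2, h3]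
  have hSreg : ∀ α i j, RegOn (B.U α) (fun v => ((B.Φ α v)⁻¹ * S v * B.Φ α v) i j) := by
    intro α i j
    refine ((B.reg Complex.I hI0 α α i j).mono (Ω := B.U α) fun v hv => ⟨hv, ?_⟩).congr
      fun v hv => ?_
    · change tst Complex.I v ∈ B.U α; rwa [htI]
    · rw [htI]
  have hPreg : ∀ μ α i j, RegOn (B.U α) (fun v => ((B.Φ α v)⁻¹ * spr μ (S v) * B.Φ α v) i j) := by
    intro μ α i j
    have h1 := hSreg α
    have h2 := RegOn.matMul _ _ h1 h1
    have h3 := RegOn.matMul _ _ h2 h1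
    have hc := fun c : ℂ => RegOn.const (Ω := B.U α) c
    have := (hc (1/4)).mul ((((hc ((1 : Matrix n n ℂ) i j)).add ((hc μ).mul (h1 i j))).add
      ((hc (μ ^ 2)).mul (h2 i j))).add ((hc (μ ^ 3)).mul (h3 i j)))
    refine this.congr fun v hv => ?_
    have hu := B.Φ_unit α v hv
    have e : B.Φ α v * (B.Φ α v)⁻¹ = 1 := Matrix.mul_nonsing_inv _ hu
    have e' : (B.Φ α v)⁻¹ * B.Φ α v = 1 := Matrix.nonsing_inv_mul _ hu
    set F := B.Φ α v
    have k2 : F⁻¹ * (S v * S v) * F = F⁻¹ * S v * F * (F⁻¹ * S v * F) := by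
      calc F⁻¹ * (S v * S v) * F = F⁻¹ * (S v * 1 * S v) * F := by rw [Matrix.mul_one]
        _ = _ := by rw [← e]; simp only [Matrix.mul_assoc]
    have k3 : F⁻¹ * (S v * S v * S v) * F =
        F⁻¹ * S v * F * (F⁻¹ * S v * F) * (F⁻¹ * S v * F) := by
      calc F⁻¹ * (S v * S v * S v) * F = F⁻¹ * (S v * S v * 1 * S v) * F := by rw [Matrix.mul_one]
        _ = F⁻¹ * (S v * S v) * F * (F⁻¹ * S v * F) := by
            rw [← e]; simp only [Matrix.mul_assoc]
        _ = _ := by rw [k2]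
    have k : F⁻¹ * spr μ (S v) * F = (1 / 4 : ℂ) • (1 + μ • (F⁻¹ * S v * F) +
        μ ^ 2 • (F⁻¹ * S v * F * (F⁻¹ * S v * F)) +
        μ ^ 3 • (F⁻¹ * S v * F * (F⁻¹ * S v * F) * (F⁻¹ * S v * F))) := by
      rw [← k3, ← k2]
      simp only [spr, Matrix.mul_smul, Matrix.smul_mul, Matrix.mul_add, Matrix.add_mul,
        Matrix.mul_one, e']
    rw [k]
    rfl
  have key : ∀ μ : ℂ, μ ^ 4 = 1 →
      (spr μ (S (bv 0)) * B.H 0).trace - 2 * (spr μ (S (bv 1)) * B.H 1).trace +
        (spr μ (S (bv 2)) * B.H 2).trace = 0 := by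
    intro μ hμ
    refine B.projector (fun v => spr μ (S v)) (fun v hv => spr_idem hμ (hS4 v hv)) ?_
      (fun t v ht hv => hcommP μ t v ht hv) (hPreg μ)
    intro c v hc
    simp only [hSdef]
    rw [B.A_smul _ c v hc]
  have hdec : ∀ j, (S (bv j) * B.H j).trace = (spr 1 (S (bv j)) * B.H j).trace +
      (-Complex.I) * (spr Complex.I (S (bv j)) * B.H j).trace +
      (-1 : ℂ) * (spr (-1) (S (bv j)) * B.H j).trace +
      Complex.I * (spr (-Complex.I) (S (bv j)) * B.H j).trace := by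
    intro j
    conv_lhs => rw [spr_sum (S (bv j))]
    simp only [Matrix.add_mul, Matrix.smul_mul, Matrix.trace_add, Matrix.trace_smul, smul_eq_mul]
  have k1 := key 1 (by norm_num)
  have k2 := key Complex.I hI4
  have k3 := key (-1) (by norm_num)
  have k4 := key (-Complex.I) (by rw [Even.neg_pow (by decide), hI4])
  change (S (bv 0) * B.H 0).trace - 2 * (S (bv 1) * B.H 1).trace + (S (bv 2) * B.H 2).trace = 0
  rw [hdec 0, hdec 1, hdec 2]
  linear_combination k1 + (-Complex.I) * k2 + (-1) * k3 + Complex.I * k4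

end H574R3.Fix
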