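import Mathlib

open Matrix

namespace H574R3.Fix

/-- evaluation of Laurent polynomials -/
noncomputable def evL (u : ℂˣ) : LaurentPolynomial ℂ →+* ℂ :=
  LaurentPolynomial.eval₂ (RingHom.id ℂ) u

theorem evL_C_mul_T (u : ℂˣ) (a : ℂ) (n : ℤ) :
    evL u (LaurentPolynomial.C a * LaurentPolynomial.T n) = a * ((u ^ n : ℂˣ) : ℂ) := by
  rw [evL, LaurentPolynomial.eval₂_C_mul_T]; rfl

theorem evL_toLaurent (u : ℂˣ) (p : Polynomial ℂ) :
    evL u (Polynomial.toLaurent p) = p.eval (u : ℂ) := by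
  rw [evL, LaurentPolynomial.eval₂_toLaurent]; rfl

theorem evL_inj {p q : LaurentPolynomial ℂ} (h : ∀ u, evL u p = evL u q) : p = q := by
  rw [← sub_eq_zero]
  obtain ⟨n, f, hf⟩ := LaurentPolynomial.exists_T_pow (p - q)
  have h0 : Polynomial.X * f = 0 := by
    apply Polynomial.funext
    intro t
    by_cases ht : t = 0
    · simp [ht]
    · have h1 := evL_toLaurent (Units.mk0 t ht) f
      rw [hf, map_mul, map_sub, h, sub_self, zero_mul] at h1
      rw [Polynomial.eval_mul, Polynomial.eval_zero, show Polynomial.eval t f = 0 from h1.symm,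
        mul_zero]
  have h1 : f = 0 := (mul_eq_zero.mp h0).resolve_left Polynomial.X_ne_zero
  rw [h1, map_zero] at hf
  exact (LaurentPolynomial.isUnit_T (n : ℤ)).mul_left_eq_zero.mp hf.symm

theorem poly_no_root {Q : Polynomial ℂ} (hQ : Q ≠ 0) (h : ∀ t, t ≠ 0 → Q.eval t ≠ 0) :
    ∃ (c : ℂ) (k : ℕ), c ≠ 0 ∧ Q = Polynomial.C c * Polynomial.X ^ k := by
  obtain ⟨R, hR, hnd⟩ := Polynomial.exists_eq_pow_rootMultiplicity_mul_and_not_dvd Q hQ 0
  rw [map_zero, sub_zero] at hR hnd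
  have hdeg : R.degree = 0 := by
    by_contra hd
    obtain ⟨s, hs⟩ := IsAlgClosed.exists_root R hd
    rw [Polynomial.IsRoot.def] at hs
    by_cases hs0 : s = 0
    · subst hs0
      exact hnd (Polynomial.X_dvd_iff.mpr (by rwa [Polynomial.coeff_zero_eq_eval_zero]))
    · refine h s hs0 ?_
      rw [hR, Polynomial.eval_mul, hs, mul_zero]
  rw [Polynomial.eq_C_of_degree_eq_zero hdeg] at hR
  refine ⟨R.coeff 0, _, ?_, by rw [mul_comm]; exact hR⟩
  intro h0
  rw [h0, map_zero, mul_zero] at hR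
  exact hQ hR

theorem poly_eq_of_ne {P Q h : Polynomial ℂ} (hh : h ≠ 0)
    (H : ∀ v, h.eval v ≠ 0 → P.eval v = Q.eval v) : P = Q := by
  have : (P - Q) * h = 0 := by
    apply Polynomial.funext
    intro v
    by_cases h0 : h.eval v = 0
    · simp [h0]
    · simp [H v h0]
  rcases mul_eq_zero.mp this with h | h
  · exact sub_eq_zero.mp h
  · exact absurd h hh

theorem laurent_of_local (f : ℂ → ℂ)
    (hf : ∀ t₀, t₀ ≠ 0 → ∃ P Q : Polynomial ℂ, Q.eval t₀ ≠ 0 ∧ ∀ t, t ≠ 0 → Q.eval t ≠ 0 →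
      f t = P.eval t / Q.eval t) :
    ∃ q : LaurentPolynomial ℂ, ∀ u : ℂˣ, f u = evL u q := by
  obtain ⟨P₀, Q₀, hQ₀, hf₀⟩ := hf 1 one_ne_zero
  have hQ₀' : Q₀ ≠ 0 := by rintro rfl; simp at hQ₀
  obtain ⟨P, Q, c, h1, h2, h3⟩ := UniqueFactorizationMonoid.exists_reduced_factors' P₀ Q₀ hQ₀'
  have hc : c ≠ 0 := by rintro rfl; simp at h3; exact hQ₀' h3.symm
  have hQ0 : Q ≠ 0 := by rintro rfl; simp at h3; exact hQ₀' h3.symm
  have key : ∀ t, t ≠ 0 → Q.eval t ≠ 0 ∧ f t = P.eval t / Q.eval t := by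
    intro t ht
    obtain ⟨P', Q', hQ', hf'⟩ := hf t ht
    have hQ'0 : Q' ≠ 0 := by rintro rfl; simp at hQ'
    have k1 : P₀ * Q' = P' * Q₀ := by
      refine poly_eq_of_ne (h := Polynomial.X * Q₀ * Q')
        (mul_ne_zero (mul_ne_zero Polynomial.X_ne_zero hQ₀') hQ'0) fun w hw => ?_
      simp only [Polynomial.eval_mul, Polynomial.eval_X, ne_eq, mul_eq_zero, not_or] at hw
      have e1 := hf₀ w hw.1.1 hw.1.2
      have e2 := hf' w hw.1.1 hw.2
      rw [e1, div_eq_div_iff hw.1.2 hw.2] at e2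
      simpa using e2
    have k2 : P * Q' = P' * Q := by
      apply mul_left_cancel₀ hc
      rw [← mul_assoc, h2, k1, ← h3]; ring
    have d2 : Q ∣ Q' := h1.symm.dvd_of_dvd_mul_left (Dvd.intro_left _ k2.symm)
    have hQt : Q.eval t ≠ 0 := by
      intro h0; obtain ⟨c, rfl⟩ := d2; simp [h0] at hQ'
    refine ⟨hQt, ?_⟩
    rw [hf' t ht hQ', div_eq_div_iff hQ' hQt]
    have := congrArg (Polynomial.eval t) k2
    simpa using this.symm
  obtain ⟨c', k, hc', hQk⟩ := poly_no_root hQ0 (fun t ht => (key t ht).1)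
  refine ⟨Polynomial.toLaurent P * (LaurentPolynomial.C c'⁻¹ * LaurentPolynomial.T (-(k : ℤ))),
    fun u => ?_⟩
  rw [(key u u.ne_zero).2, map_mul, evL_toLaurent, evL_C_mul_T, hQk]
  simp only [Polynomial.eval_mul, Polynomial.eval_C, Polynomial.eval_pow, Polynomial.eval_X]
  rw [_root_.zpow_neg, zpow_natCast, Units.val_inv_eq_inv_val, Units.val_pow_eq_pow_val, div_eq_mul_inv,
    _root_.mul_inv]

/-- evaluation as a function on `ℂ` -/
noncomputable def evL' (q : LaurentPolynomial ℂ) (t : ℂ) : ℂ :=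
  if h : t ≠ 0 then evL (Units.mk0 t h) q else 0

theorem evL'_eq (q : LaurentPolynomial ℂ) {t : ℂ} (ht : t ≠ 0) :
    evL' q t = evL (Units.mk0 t ht) q := by
  rw [evL', dif_pos ht]

theorem evL'_diff (q : LaurentPolynomial ℂ) {t : ℂ} (ht : t ≠ 0) :
    DifferentiableAt ℂ (evL' q) t := by
  have hev : ∀ᶠ s : ℂ in nhds t, s ≠ 0 := (isOpen_ne.mem_nhds ht)
  induction q using LaurentPolynomial.induction_on' with
  | add p q hp hq =>
    refine (hp.add hq).congr_of_eventuallyEq ?_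
    filter_upwards [hev] with s hs
    rw [Pi.add_apply, evL'_eq _ hs, evL'_eq _ hs, evL'_eq _ hs, map_add]
  | C_mul_T n a =>
    have : DifferentiableAt ℂ (fun s : ℂ => a * s ^ n) t :=
      (differentiableAt_zpow.mpr (Or.inl ht)).const_mul a
    refine this.congr_of_eventuallyEq ?_
    filter_upwards [hev] with s hs
    rw [evL'_eq _ hs, evL_C_mul_T]
    simp

/-- derivative at `i` of a Laurent polynomial -/
noncomputable def dI (q : LaurentPolynomial ℂ) : ℂ := deriv (evL' q) Complex.I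

theorem dI_add (p q : LaurentPolynomial ℂ) : dI (p + q) = dI p + dI q := by
  have h1 := (evL'_diff p Complex.I_ne_zero).hasDerivAt.add
    (evL'_diff q Complex.I_ne_zero).hasDerivAt
  have hev : ∀ᶠ s : ℂ in nhds Complex.I, s ≠ 0 := (isOpen_ne.mem_nhds Complex.I_ne_zero)
  refine (h1.congr_of_eventuallyEq ?_).deriv
  filter_upwards [hev] with s hs
  rw [Pi.add_apply, evL'_eq _ hs, evL'_eq _ hs, evL'_eq _ hs, map_add]

theorem dI_smul (c : ℂ) (q : LaurentPolynomial ℂ) : dI (c • q) = c * dI q := by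
  have h1 := (evL'_diff q Complex.I_ne_zero).hasDerivAt.const_mul c
  have hev : ∀ᶠ s : ℂ in nhds Complex.I, s ≠ 0 := (isOpen_ne.mem_nhds Complex.I_ne_zero)
  refine (h1.congr_of_eventuallyEq ?_).deriv
  filter_upwards [hev] with s hs
  rw [evL'_eq _ hs, evL'_eq _ hs, LaurentPolynomial.smul_eq_C_mul, map_mul]
  congr 1
  have := evL_C_mul_T (Units.mk0 s hs) c 0
  simpa using this

/-- additivity of the trace in short exact sequences -/
theorem trace_ses {n' n n'' : Type} [Fintype n'] [Fintype n] [Fintype n''] [DecidableEq n']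
    [DecidableEq n] [DecidableEq n''] (f : Matrix n n' ℂ) (g : Matrix n'' n ℂ)
    (hf : Function.Injective (fun v => f *ᵥ v)) (hg : Function.Surjective (fun v => g *ᵥ v))
    (hfg : ∀ v, g *ᵥ v = 0 ↔ ∃ u, f *ᵥ u = v)
    (A' : Matrix n' n' ℂ) (A : Matrix n n ℂ) (A'' : Matrix n'' n'' ℂ)
    (h1 : A * f = f * A') (h2 : A'' * g = g * A) : A.trace = A'.trace + A''.trace := by
  obtain ⟨s, hs⟩ := Matrix.mulVec_surjective_iff_exists_right_inverse.mp hg
  obtain ⟨r, hr⟩ : ∃ r : Matrix n' n ℂ, r * f = 1 := by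
    obtain ⟨φ, hφ⟩ := LinearMap.exists_leftInverse_of_injective (Matrix.toLin' f)
      (LinearMap.ker_eq_bot.mpr (by
        intro a b hab
        exact hf (by simpa [Matrix.toLin'_apply] using hab)))
    refine ⟨LinearMap.toMatrix' φ, ?_⟩
    have := congrArg LinearMap.toMatrix' hφ
    rwa [LinearMap.toMatrix'_comp, LinearMap.toMatrix'_toLin', LinearMap.toMatrix'_id] at this
  have hgf : g * f = 0 := by
    apply Matrix.ext_of_mulVec_single
    intro i
    rw [← Matrix.mulVec_mulVec, (hfg _).mpr ⟨_, rfl⟩, Matrix.zero_mulVec]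
  set w := r * (1 - s * g) with hw
  have hfw : f * w + s * g = 1 := by
    have : f * w = 1 - s * g := by
      apply Matrix.ext_of_mulVec_single
      intro i
      have h0 : g *ᵥ ((1 - s * g) *ᵥ Pi.single i 1) = 0 := by
        rw [Matrix.mulVec_mulVec, Matrix.mul_sub, Matrix.mul_one, ← Matrix.mul_assoc, hs,
          Matrix.one_mul, sub_self, Matrix.zero_mulVec]
      obtain ⟨u, hu⟩ := (hfg _).mp h0
      rw [hw, ← Matrix.mulVec_mulVec, ← Matrix.mulVec_mulVec, ← hu, Matrix.mulVec_mulVec _ r f, hr,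
        Matrix.one_mulVec]
    rw [this, sub_add_cancel]
  have hwf : w * f = 1 := by
    rw [hw, Matrix.mul_assoc, Matrix.sub_mul, Matrix.one_mul, Matrix.mul_assoc, hgf,
      Matrix.mul_zero, sub_zero, hr]
  calc A.trace = (A * (f * w + s * g)).trace := by rw [hfw, Matrix.mul_one]
    _ = (A * f * w).trace + (A * s * g).trace := by
        rw [Matrix.mul_add, Matrix.trace_add, Matrix.mul_assoc, Matrix.mul_assoc]
    _ = (f * (A' * w)).trace + (g * (A * s)).trace := by
        rw [h1, Matrix.mul_assoc, Matrix.trace_mul_comm (A * s) g]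
    _ = (A' * w * f).trace + (A'' * (g * s)).trace := by
        rw [Matrix.trace_mul_comm f, ← Matrix.mul_assoc g, ← h2, Matrix.mul_assoc A'']
    _ = _ := by rw [Matrix.mul_assoc, hwf, hs, Matrix.mul_one, Matrix.mul_one]

end H574R3.Fix
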