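import Pool.Agent.H574R3.Fix.OfBundle
import Pool.Agent.H574R3.Fix.Laurent

open MvPolynomial Matrix
open scoped LinearAlgebra.Projectivization Kronecker

namespace H574R3.Fix

theorem chr_exists (j : Fin 3) (E : EqBundle) :
    ∃ q : LaurentPolynomial ℂ, ∀ u : ℂˣ, (E.act (tau u) (pt (bv j))).trace = evL u q := by
  refine laurent_of_local (fun t => (E.act (tau t) (pt (bv j))).trace) fun t₀ ht₀ => ?_
  obtain ⟨α, hα⟩ := E.U_cover (pt (bv j))
  set x := pt (bv j) with hx
  have hfx : ∀ t, t ≠ 0 → gAct (tau t) x = x := fun t ht => pt_fix j t ht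
  have hloc : ∀ a : E.n, ∃ P Q : Polynomial ℂ, Q.eval t₀ ≠ 0 ∧ ∀ t, t ≠ 0 → Q.eval t ≠ 0 →
      ((E.frame α x)⁻¹ * E.act (tau t) x * E.frame α x) a a = P.eval t / Q.eval t := by
    intro a
    obtain ⟨P, Q, h1, h2⟩ := (E.regular α α a a).torus x hα hfx t₀ ht₀
    refine ⟨P, Q, h1, fun t ht hQ => ?_⟩
    have h5 : ((E.frame α (gAct (tau t) x))⁻¹ * E.act (tau t) x * E.frame α x) a a =
      P.eval t / Q.eval t := h2 t ht hQ
    rwa [hfx t ht] at h5
  choose P Q hQ hPQ using hloc
  have hsum : ∀ s : Finset E.n, ∃ P' Q' : Polynomial ℂ, Q'.eval t₀ ≠ 0 ∧ ∀ t, t ≠ 0 →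
      Q'.eval t ≠ 0 → ∑ a ∈ s, ((E.frame α x)⁻¹ * E.act (tau t) x * E.frame α x) a a =
        P'.eval t / Q'.eval t := by
    intro s
    classical
    induction s using Finset.induction_on with
    | empty => exact ⟨0, 1, by simp, fun t _ _ => by simp⟩
    | insert a s ha ih =>
      obtain ⟨P', Q', h1, h2⟩ := ih
      refine ⟨P a * Q' + Q a * P', Q a * Q', by simp [h1, hQ a], fun t ht hne => ?_⟩
      rw [Polynomial.eval_mul] at hne
      have e1 := left_ne_zero_of_mul hne
      have e2 := right_ne_zero_of_mul hne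
      rw [Finset.sum_insert ha, hPQ a t ht e1, h2 t ht e2, div_add_div _ _ e1 e2]
      simp
  obtain ⟨P', Q', h1, h2⟩ := hsum Finset.univ
  refine ⟨P', Q', h1, fun t ht hne => ?_⟩
  rw [← h2 t ht hne]
  have hu := E.frame_unit α x hα
  have e : E.frame α x * (E.frame α x)⁻¹ = 1 := Matrix.mul_nonsing_inv _ hu
  change (E.act (tau t) x).trace = ((E.frame α x)⁻¹ * E.act (tau t) x * E.frame α x).trace
  rw [Matrix.trace_mul_comm, ← Matrix.mul_assoc, e, Matrix.one_mul]

/-- character of the torus on the fibre at a fixed point, as a Laurent polynomial -/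
noncomputable def chr (j : Fin 3) (E : EqBundle) : LaurentPolynomial ℂ :=
  (chr_exists j E).choose

theorem chr_spec (j : Fin 3) (E : EqBundle) (u : ℂˣ) :
    evL u (chr j E) = (E.act (tau u) (pt (bv j))).trace :=
  ((chr_exists j E).choose_spec u).symm

theorem chr_rel (j : Fin 3) : Ideal.span KRel ≤ RingHom.ker
    ((MvPolynomial.aeval (chr j) : MvPolynomial EqBundle ℂ →ₐ[ℂ] LaurentPolynomial ℂ) :
      MvPolynomial EqBundle ℂ →+* LaurentPolynomial ℂ) := by
  rw [Ideal.span_le]
  intro p hp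
  change MvPolynomial.aeval (chr j) p = 0
  rcases hp with ⟨E, F, rfl⟩ | rfl | ⟨E', E, E'', f, g, hfg, rfl⟩
  · rw [map_sub, map_mul, aeval_X, aeval_X, aeval_X, sub_eq_zero]
    apply evL_inj
    intro u
    rw [map_mul, chr_spec, chr_spec, chr_spec]
    exact Matrix.trace_kronecker _ _
  · rw [map_sub, map_one, aeval_X, sub_eq_zero]
    apply evL_inj
    intro u
    rw [map_one, chr_spec]
    change (1 : Matrix Unit Unit ℂ).trace = 1
    simp
  · rw [map_sub, map_sub, aeval_X, aeval_X, aeval_X, sub_sub, sub_eq_zero]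
    apply evL_inj
    intro u
    rw [map_add, chr_spec, chr_spec, chr_spec]
    obtain ⟨h1, h2, h3⟩ := hfg (pt (bv j))
    have hfx : gAct (tau u) (pt (bv j)) = pt (bv j) := pt_fix j u u.ne_zero
    refine trace_ses _ _ h1 h2 h3 _ _ _ ?_ ?_
    · have := f.equivariant (tau u) (pt (bv j))
      rwa [hfx] at this
    · have := g.equivariant (tau u) (pt (bv j))
      rwa [hfx] at this

/-- restriction to a torus fixed point -/
noncomputable def rhoK (j : Fin 3) : KRing →ₐ[ℂ] LaurentPolynomial ℂ :=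
  Ideal.Quotient.liftₐ _ (MvPolynomial.aeval (chr j)) (fun _ ha => chr_rel j ha)

theorem rhoK_cls (j : Fin 3) (E : EqBundle) : rhoK j (KRing.cls E) = chr j E := by
  rw [rhoK, KRing.cls]
  erw [Ideal.Quotient.liftₐ_apply, Ideal.Quotient.lift_mk]
  exact MvPolynomial.aeval_X _ _

theorem rhoK_chi (j : Fin 3) : rhoK j (KRing.cls chiBundle) = LaurentPolynomial.T 1 := by
  rw [rhoK_cls]
  apply evL_inj
  intro u
  rw [chr_spec]
  have h1 : evL u (LaurentPolynomial.T 1) = u := by
    have := evL_C_mul_T u 1 1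
    simpa using this
  rw [h1]
  change (((tau u).t : ℂ) • (1 : Matrix Unit Unit ℂ)).trace = _
  rw [tau_t u.ne_zero]
  simp

/-- the span of the classes is everything -/
theorem cls_span (κ : KRing) : κ ∈ Submodule.span ℂ (Set.range KRing.cls) := by
  obtain ⟨p, rfl⟩ := Ideal.Quotient.mk_surjective κ
  have hone : (1 : KRing) = KRing.cls oneBundle := by
    have : (X oneBundle - 1 : MvPolynomial EqBundle ℂ) ∈ Ideal.span KRel :=
      Ideal.subset_span (Or.inr (Or.inl rfl))
    have h2 := (Ideal.Quotient.eq_zero_iff_mem.mpr this)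
    rw [map_sub, map_one, sub_eq_zero] at h2
    exact h2.symm
  have hmul : ∀ E F, KRing.cls E * KRing.cls F = KRing.cls (E.tensor F) := by
    intro E F
    have : (X (E.tensor F) - X E * X F : MvPolynomial EqBundle ℂ) ∈ Ideal.span KRel :=
      Ideal.subset_span (Or.inl ⟨E, F, rfl⟩)
    have h2 := (Ideal.Quotient.eq_zero_iff_mem.mpr this)
    rw [map_sub, map_mul, sub_eq_zero] at h2
    exact h2.symm
  induction p using MvPolynomial.induction_on with
  | C a =>
    have : (Ideal.Quotient.mk (Ideal.span KRel) (C a) : KRing) = a • (1 : KRing) := by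
      have h : (a • (1 : MvPolynomial EqBundle ℂ)) = C a := by
        rw [MvPolynomial.smul_eq_C_mul, mul_one]
      rw [← h]; rfl
    rw [this, hone]
    exact Submodule.smul_mem _ _ (Submodule.subset_span ⟨_, rfl⟩)
  | add p q hp hq => rw [map_add]; exact Submodule.add_mem _ hp hq
  | mul_X p E hp =>
    rw [map_mul]
    change Ideal.Quotient.mk _ p * KRing.cls E ∈ _
    refine Submodule.span_induction (p := fun z _ => z * KRing.cls E ∈
      Submodule.span ℂ (Set.range KRing.cls)) ?_ ?_ ?_ ?_ hp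
    · rintro _ ⟨F, rfl⟩
      rw [hmul]
      exact Submodule.subset_span ⟨_, rfl⟩
    · rw [zero_mul]; exact Submodule.zero_mem _
    · intro x y _ _ hx hy
      rw [add_mul]; exact Submodule.add_mem _ hx hy
    · intro a x _ hx
      rw [smul_mul_assoc]; exact Submodule.smul_mem _ _ hx

theorem c2_bundle (E : EqBundle) : dI (chr 0 E) - 2 * dI (chr 1 E) + dI (chr 2 E) = 0 := by
  have hI0 : Complex.I ≠ 0 := Complex.I_ne_zero
  have key : ∀ j, Complex.I * dI (chr j E) =
      (E.toTB.A Complex.I (bv j) * E.toTB.H j).trace := by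
    intro j
    have hev : ∀ᶠ s : ℂ in nhds (1 : ℂ), s ≠ 0 := (isOpen_ne.mem_nhds one_ne_zero)
    -- derivative of t ↦ evL' (chr j E) (I * t)
    have h1 : HasDerivAt (evL' (chr j E)) (dI (chr j E)) (Complex.I * 1) := by
      rw [mul_one]; exact (evL'_diff _ hI0).hasDerivAt
    have h2 : HasDerivAt (fun t : ℂ => Complex.I * t) (Complex.I * 1) 1 :=
      (hasDerivAt_id (1 : ℂ)).const_mul Complex.I
    have h3 : HasDerivAt (fun t : ℂ => evL' (chr j E) (Complex.I * t))
        (dI (chr j E) * (Complex.I * 1)) 1 := HasDerivAt.comp (1 : ℂ) h1 h2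
    -- the same function as a trace
    have h4 : HasDerivAt (fun t : ℂ => (E.toTB.A Complex.I (bv j) * E.toTB.A t (bv j)).trace)
        ((E.toTB.A Complex.I (bv j) * E.toTB.H j).trace) 1 := by
      have : HasDerivAt (fun t : ℂ => ∑ a, ∑ b, E.toTB.A Complex.I (bv j) a b *
          E.toTB.A t (bv j) b a)
          (∑ a, ∑ b, E.toTB.A Complex.I (bv j) a b * E.toTB.H j b a) 1 :=
        HasDerivAt.fun_sum fun a _ => HasDerivAt.fun_sum fun b _ =>
          ((E.toTB.diff j b a).hasDerivAt).const_mul _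
      exact this
    have h5 : (fun t : ℂ => evL' (chr j E) (Complex.I * t)) =ᶠ[nhds 1]
        fun t : ℂ => (E.toTB.A Complex.I (bv j) * E.toTB.A t (bv j)).trace := by
      filter_upwards [hev] with t ht
      rw [evL'_eq _ (mul_ne_zero hI0 ht), chr_spec]
      change (E.act (tau (Complex.I * t)) (pt (bv j))).trace =
        (E.act (tau Complex.I) (pt (bv j)) * E.act (tau t) (pt (bv j))).trace
      rw [tau_mul hI0 ht, E.act_mul, pt_fix j t ht]
    have h6 := (h4.congr_of_eventuallyEq h5).unique h3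
    rw [h6, mul_one, mul_comm]
  have h := E.toTB.secondDiff
  rw [← key 0, ← key 1, ← key 2] at h
  have : Complex.I * (dI (chr 0 E) - 2 * dI (chr 1 E) + dI (chr 2 E)) = 0 := by
    linear_combination h
  exact (mul_eq_zero.mp this).resolve_left hI0

theorem c2_K (κ : KRing) : dI (rhoK 0 κ) - 2 * dI (rhoK 1 κ) + dI (rhoK 2 κ) = 0 := by
  refine Submodule.span_induction (p := fun z _ => dI (rhoK 0 z) - 2 * dI (rhoK 1 z) +
    dI (rhoK 2 z) = 0) ?_ ?_ ?_ ?_ (cls_span κ)
  · rintro _ ⟨E, rfl⟩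
    rw [rhoK_cls, rhoK_cls, rhoK_cls]
    exact c2_bundle E
  · have h0 : dI 0 = 0 := by
      have := dI_smul 0 0
      simpa using this
    simp [h0]
  · intro x y _ _ hx hy
    simp only [map_add, dI_add]
    linear_combination hx + hy
  · intro a x _ hx
    simp only [map_smul, dI_smul]
    linear_combination a * hx

end H574R3.Fix
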