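import Mathlib

open MvPolynomial Matrix
open scoped LinearAlgebra.Projectivization Kronecker

namespace H574R3.Fix

/-! ## The group `B₂` and its action on `Sym⁴ ⊗ t⁴` -/

/-- `B2 R` is the group of upper triangular matrices `!![t, s; 0, t⁻¹]` in `SL₂(R)`. -/
@[ext] structure B2 (R : Type) [CommRing R] where
  /-- the upper left entry -/
  t : Rˣ
  /-- the upper right entry -/
  s : R

namespace B2

variable {R : Type} [CommRing R]

instance : One (B2 R) := ⟨⟨1, 0⟩⟩
instance : Mul (B2 R) := ⟨fun g h => ⟨g.t * h.t, g.t * h.s + g.s * ↑h.t⁻¹⟩⟩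
instance : Inv (B2 R) := ⟨fun g => ⟨g.t⁻¹, -g.s⟩⟩

@[simp] theorem one_t : (1 : B2 R).t = 1 := rfl
@[simp] theorem one_s : (1 : B2 R).s = 0 := rfl
@[simp] theorem mul_t (g h : B2 R) : (g * h).t = g.t * h.t := rfl
@[simp] theorem mul_s (g h : B2 R) : (g * h).s = g.t * h.s + g.s * ↑h.t⁻¹ := rfl
@[simp] theorem inv_t (g : B2 R) : (g⁻¹).t = g.t⁻¹ := rfl
@[simp] theorem inv_s (g : B2 R) : (g⁻¹).s = -g.s := rfl

instance : Group (B2 R) :=
  Group.ofLeftAxioms
    (fun a b c => by
      ext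
      · simp [mul_assoc]
      · simp only [mul_t, mul_s, Units.val_mul, _root_.mul_inv_rev]; ring)
    (fun a => by ext <;> simp)
    (fun a => by ext <;> simp [mul_comm])

/-- The matrix `!![t, s; 0, t⁻¹]`; this is an injective homomorphism to `SL₂(R)` with image the
upper triangular matrices. -/
def toSL : B2 R →* Matrix.SpecialLinearGroup (Fin 2) R where
  toFun g := ⟨!![(g.t : R), g.s; 0, ((g.t⁻¹ : Rˣ) : R)], by simp⟩
  map_one' := by
    ext i j; fin_cases i <;> fin_cases j <;> simp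
  map_mul' g h := by
    apply Subtype.ext
    change (!![((g * h).t : R), (g * h).s; 0, (((g * h).t⁻¹ : Rˣ) : R)]) =
      !![(g.t : R), g.s; 0, ((g.t⁻¹ : Rˣ) : R)] * !![(h.t : R), h.s; 0, ((h.t⁻¹ : Rˣ) : R)]
    ext i j
    fin_cases i <;> fin_cases j <;> simp [Matrix.mul_apply, Fin.sum_univ_two, mul_comm]

end B2

/-- The matrix of `(a, b)` (standing for `z ↦ a z + b`) on the space with basis `e₀, …, e₄`:
`(M x)_i = ∑_j C(i,j) a^j b^(i-j) x_j`. -/
def affMat {R : Type} [CommRing R] (a b : R) : Matrix (Fin 5) (Fin 5) R :=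
  fun i j => (Nat.choose i j : R) * a ^ (j : ℕ) * b ^ ((i : ℕ) - (j : ℕ))

theorem affMat_one {R : Type} [CommRing R] : affMat (1 : R) 0 = 1 := by
  ext i j
  fin_cases i <;> fin_cases j <;> simp [affMat, Nat.choose]

theorem affMat_mul {R : Type} [CommRing R] (a b a' b' : R) :
    affMat a b * affMat a' b' = affMat (a * a') (a * b' + b) := by
  ext i j
  rw [Matrix.mul_apply, Fin.sum_univ_five]
  fin_cases i <;> fin_cases j <;> simp [affMat, Nat.choose] <;> ring

/-- The representation of `B₂` used here: `(ρ(g) x)_i = ∑_j C(i,j) t^(i+j) s^(i-j) x_j`, i.e.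
`Sym⁴` of the standard representation tensored with the character `t⁴`. -/
def B2.rho {R : Type} [CommRing R] (g : B2 R) : Matrix (Fin 5) (Fin 5) R :=
  affMat ((g.t : R) ^ 2) ((g.t : R) * g.s)

theorem B2.rho_one {R : Type} [CommRing R] : (1 : B2 R).rho = 1 := by
  rw [B2.rho]
  simp [affMat_one]

theorem B2.rho_mul {R : Type} [CommRing R] (g h : B2 R) : (g * h).rho = g.rho * h.rho := by
  rw [B2.rho, B2.rho, B2.rho, affMat_mul]
  congr 1
  · simp; ring
  · have := h.t.mul_inv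
    simp only [B2.mul_t, B2.mul_s, Units.val_mul]
    linear_combination (g.t : R) * g.s * this

/-! ## The fixed point scheme and its invariant functions -/

/-- An `R`-point of `Fix_{B₂}(ℙ⁴)`, together with a choice of homogeneous coordinates: an element
`g ∈ B₂(R)` and a unimodular vector `x ∈ R⁵` with `g x ∧ x = 0`. -/
structure FixPt (R : Type) [CommRing R] where
  g : B2 R
  x : Fin 5 → R
  unimod : ∃ y : Fin 5 → R, ∑ i, y i * x i = 1
  fixed : ∀ i j, x i * (g.rho *ᵥ x) j = x j * (g.rho *ᵥ x) i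

/-- base change in `B₂` -/
def B2.map {R S : Type} [CommRing R] [CommRing S] (φ : R →+* S) (g : B2 R) : B2 S :=
  ⟨Units.map φ g.t, φ g.s⟩

theorem affMat_map {R S : Type} [CommRing R] [CommRing S] (φ : R →+* S) (a b : R) :
    affMat (φ a) (φ b) = (affMat a b).map φ := by
  ext i j; simp [affMat]

theorem B2.rho_map {R S : Type} [CommRing R] [CommRing S] (φ : R →+* S) (g : B2 R) :
    (g.map φ).rho = g.rho.map φ := by
  rw [B2.rho, B2.rho, ← affMat_map]
  simp [B2.map]

/-- base change of points -/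
def FixPt.map {R S : Type} [CommRing R] [CommRing S] (φ : R →+* S) (p : FixPt R) : FixPt S where
  g := p.g.map φ
  x := φ ∘ p.x
  unimod := by
    obtain ⟨y, hy⟩ := p.unimod
    refine ⟨φ ∘ y, ?_⟩
    have := congrArg φ hy
    simpa using this
  fixed := by
    intro i j
    have h : ∀ k, ((p.g.map φ).rho *ᵥ (φ ∘ p.x)) k = φ ((p.g.rho *ᵥ p.x) k) := by
      intro k
      rw [B2.rho_map, RingHom.map_mulVec]
    rw [h, h]
    simp only [Function.comp_apply]
    rw [← map_mul, ← map_mul, p.fixed]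

/-- change of homogeneous coordinates -/
def FixPt.scale {R : Type} [CommRing R] (u : Rˣ) (p : FixPt R) : FixPt R where
  g := p.g
  x := (u : R) • p.x
  unimod := by
    obtain ⟨y, hy⟩ := p.unimod
    refine ⟨((u⁻¹ : Rˣ) : R) • y, ?_⟩
    rw [← hy]
    refine Finset.sum_congr rfl fun i _ => ?_
    simp only [Pi.smul_apply, smul_eq_mul]
    linear_combination y i * p.x i * u.inv_mul
  fixed := by
    intro i j
    have := p.fixed i j
    simp only [Matrix.mulVec_smul, Pi.smul_apply, smul_eq_mul]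
    linear_combination (u : R) * (u : R) * this

theorem wedge_mulVec {R : Type} [CommRing R] (M : Matrix (Fin 5) (Fin 5) R) (x y : Fin 5 → R)
    (h : ∀ i j, x i * y j = x j * y i) (i j : Fin 5) :
    (M *ᵥ x) i * (M *ᵥ y) j = (M *ᵥ x) j * (M *ᵥ y) i := by
  simp only [Matrix.mulVec, dotProduct]
  rw [Finset.sum_mul_sum, Finset.sum_mul_sum, Finset.sum_comm]
  refine Finset.sum_congr rfl fun k _ => Finset.sum_congr rfl fun l _ => ?_
  linear_combination M i l * M j k * h l k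

/-- the action of `B₂` on the fixed point scheme: `h · (g, x) = (h g h⁻¹, h x)` -/
def FixPt.conj {R : Type} [CommRing R] (h : B2 R) (p : FixPt R) : FixPt R where
  g := h * p.g * h⁻¹
  x := h.rho *ᵥ p.x
  unimod := by
    obtain ⟨y, hy⟩ := p.unimod
    refine ⟨y ᵥ* (h⁻¹).rho, ?_⟩
    have h1 : (h⁻¹).rho * h.rho = 1 := by rw [← B2.rho_mul, inv_mul_cancel, B2.rho_one]
    have h2 : (y ᵥ* (h⁻¹).rho) ⬝ᵥ (h.rho *ᵥ p.x) = y ⬝ᵥ p.x := by
      rw [Matrix.dotProduct_mulVec, Matrix.vecMul_vecMul, h1, Matrix.vecMul_one]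
    exact h2.trans hy
  fixed := by
    have h1 : (h * p.g * h⁻¹).rho *ᵥ (h.rho *ᵥ p.x) = h.rho *ᵥ (p.g.rho *ᵥ p.x) := by
      rw [Matrix.mulVec_mulVec, ← B2.rho_mul, Matrix.mulVec_mulVec, ← B2.rho_mul]
      congr 2
      group
    rw [h1]
    exact wedge_mulVec _ _ _ p.fixed

/-- **The ring `ℂ[Fix_{B₂}(ℙ⁴)]^{B₂}`.**  By Yoneda, a function on the scheme `Fix` is a family
of maps `Fix(R) → R`, natural in the `ℂ`-algebra `R`; as every point of `ℙ⁴(R)` is locally given by
a unimodular vector, unique up to a unit, this is a natural family of functions of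
pairs `(g, x)`, `x` unimodular, invariant under scaling `x`.  It is `B₂`-invariant when it is
invariant under `B₂(R)` for every `R`. -/
def InvFun : Subalgebra ℂ (∀ R : CommAlgCat.{0} ℂ, FixPt R → R) where
  carrier := {f |
    (∀ (R S : CommAlgCat.{0} ℂ) (φ : R →ₐ[ℂ] S) (p : FixPt R),
      φ (f R p) = f S (p.map (φ : R →+* S))) ∧
    (∀ (R : CommAlgCat.{0} ℂ) (u : Rˣ) (p : FixPt R), f R (p.scale u) = f R p) ∧
    (∀ (R : CommAlgCat.{0} ℂ) (h : B2 R) (p : FixPt R), f R (p.conj h) = f R p)}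
  mul_mem' := by
    rintro a b ⟨h1, h2, h3⟩ ⟨h1', h2', h3'⟩
    refine ⟨fun R S φ p => ?_, fun R u p => ?_, fun R h p => ?_⟩
    · simp only [Pi.mul_apply, map_mul, h1, h1']
    · simp only [Pi.mul_apply, h2, h2']
    · simp only [Pi.mul_apply, h3, h3']
  add_mem' := by
    rintro a b ⟨h1, h2, h3⟩ ⟨h1', h2', h3'⟩
    refine ⟨fun R S φ p => ?_, fun R u p => ?_, fun R h p => ?_⟩
    · simp only [Pi.add_apply, map_add, h1, h1']
    · simp only [Pi.add_apply, h2, h2']
    · simp only [Pi.add_apply, h3, h3']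
  algebraMap_mem' := by
    intro r
    refine ⟨fun R S φ p => ?_, fun R u p => rfl, fun R h p => rfl⟩
    exact φ.commutes r

/-- the coordinate function `t` of `B₂`, as an invariant function on `Fix`; it generates (with its
inverse) the ring `ℂ[B₂]^{B₂} = ℂ[t, t⁻¹]`. -/
def tFun : InvFun :=
  ⟨fun _ p => (p.g.t : _), by
    refine ⟨fun R S φ p => rfl, fun R u p => rfl, fun R h p => ?_⟩
    have : (p.conj h).g.t = p.g.t := by
      simp only [FixPt.conj, B2.mul_t, B2.inv_t]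
      rw [mul_comm h.t, mul_assoc, mul_inv_cancel, mul_one]
    change ((p.conj h).g.t : R) = (p.g.t : R)
    rw [this]⟩

/-! ## Equivariant vector bundles on `ℙ⁴` -/

/-- complex points of `ℙ⁴` -/
abbrev P4 := ℙ ℂ (Fin 5 → ℂ)

theorem rho_inv_mul (g : B2 ℂ) : (g⁻¹).rho * g.rho = 1 := by
  rw [← B2.rho_mul, inv_mul_cancel, B2.rho_one]

theorem rho_ne (g : B2 ℂ) {v : Fin 5 → ℂ} (hv : v ≠ 0) : g.rho *ᵥ v ≠ 0 := by
  intro h
  apply hv
  have := congrArg (fun w => (g⁻¹).rho *ᵥ w) h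
  simpa [Matrix.mulVec_mulVec, rho_inv_mul] using this

/-- the action of `B₂(ℂ)` on `ℙ⁴(ℂ)` -/
noncomputable def gAct (g : B2 ℂ) (x : P4) : P4 :=
  Projectivization.mk ℂ (g.rho *ᵥ x.rep) (rho_ne g x.rep_nonzero)

/-- Zariski open subsets of `ℙ⁴` -/
def POpen (U : Set P4) : Prop :=
  ∀ x ∈ U, ∃ (d : ℕ) (h : MvPolynomial (Fin 5) ℂ), h.IsHomogeneous d ∧
    eval x.rep h ≠ 0 ∧ ∀ y : P4, eval y.rep h ≠ 0 → y ∈ U

/-- `f` is a regular function on the open subset `U` of `ℙ⁴`: locally a quotient of two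
homogeneous polynomials of the same degree. -/
def PReg (U : Set P4) (f : P4 → ℂ) : Prop :=
  ∀ x ∈ U, ∃ (d : ℕ) (P Q : MvPolynomial (Fin 5) ℂ), P.IsHomogeneous d ∧ Q.IsHomogeneous d ∧
    eval x.rep Q ≠ 0 ∧ ∀ y ∈ U, eval y.rep Q ≠ 0 → f y = eval y.rep P / eval y.rep Q

/-- weights: the coordinates `t, s` of `B₂` have degree 0, the coordinates of `ℙ⁴` degree 1 -/
def wt : Fin 2 ⊕ Fin 5 → ℕ := Sum.elim (fun _ => 0) (fun _ => 1)

/-- value of a polynomial in `t, s, x₀, …, x₄` -/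
noncomputable def evG (g : B2 ℂ) (v : Fin 5 → ℂ) (P : MvPolynomial (Fin 2 ⊕ Fin 5) ℂ) : ℂ :=
  eval (Sum.elim ![(g.t : ℂ), g.s] v) P

/-- `f` is a regular function on the open subset `Ω` of `B₂ × ℙ⁴`: locally a quotient of two
polynomials in `t, s, x₀, …, x₄`, homogeneous of the same degree in `x`. -/
def GReg (Ω : Set (B2 ℂ × P4)) (f : B2 ℂ → P4 → ℂ) : Prop :=
  ∀ p ∈ Ω, ∃ (d : ℕ) (P Q : MvPolynomial (Fin 2 ⊕ Fin 5) ℂ),
    P.IsWeightedHomogeneous wt d ∧ Q.IsWeightedHomogeneous wt d ∧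
    evG p.1 p.2.rep Q ≠ 0 ∧
    ∀ q ∈ Ω, evG q.1 q.2.rep Q ≠ 0 → f q.1 q.2 = evG q.1 q.2.rep P / evG q.1 q.2.rep Q

/-- **A `B₂`-equivariant algebraic vector bundle on `ℙ⁴`.**  All fibres are identified
(set-theoretically) with `ℂ^n` for a finite set `n`; `act g x : E_x → E_{g x}` is the action;
`frame α x` (for `x` in the open set `U α`) is the matrix of a local algebraic frame at `x`.  In
these frames the action is a regular function on `B₂ × ℙ⁴` (for `g = 1` this says that the transition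
functions are regular). -/
structure EqBundle where
  n : Type
  [fin : Fintype n]
  [dec : DecidableEq n]
  act : B2 ℂ → P4 → Matrix n n ℂ
  act_one : ∀ x, act 1 x = 1
  act_mul : ∀ g h x, act (g * h) x = act g (gAct h x) * act h x
  ι : Type
  U : ι → Set P4
  U_open : ∀ α, POpen (U α)
  U_cover : ∀ x, ∃ α, x ∈ U α
  frame : ι → P4 → Matrix n n ℂ
  frame_unit : ∀ α, ∀ x ∈ U α, IsUnit (frame α x).det
  regular : ∀ α β i j, GReg {p | p.2 ∈ U α ∧ gAct p.1 p.2 ∈ U β}
    (fun g x => ((frame β (gAct g x))⁻¹ * act g x * frame α x) i j)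

attribute [instance] EqBundle.fin EqBundle.dec

/-- an equivariant algebraic map of equivariant vector bundles -/
structure EqMap (E F : EqBundle) where
  map : P4 → Matrix F.n E.n ℂ
  equivariant : ∀ g x, F.act g x * map x = map (gAct g x) * E.act g x
  regular : ∀ α β i j, PReg (E.U α ∩ F.U β)
    (fun x => ((F.frame β x)⁻¹ * map x * E.frame α x) i j)

/-- exactness of `0 → E' → E → E'' → 0` -/
def IsSES {E' E E'' : EqBundle} (f : EqMap E' E) (g : EqMap E E'') : Prop :=
  ∀ x, Function.Injective (fun v => f.map x *ᵥ v) ∧ Function.Surjective (fun v => g.map x *ᵥ v) ∧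
    ∀ v, g.map x *ᵥ v = 0 ↔ ∃ u, f.map x *ᵥ u = v

end H574R3.Fix
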