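import Pool.Agent.H574R3.Fix.KDefs

open Matrix
open scoped LinearAlgebra.Projectivization

namespace H574R3.Fix

theorem ez_mulVec (x : Fin 5 → ℂ) (i : Fin 5) :
    (((⟨1, DualNumber.eps⟩ : B2 (DualNumber ℂ)).rho *ᵥ
      (fun i => (TrivSqZeroExt.inl (x i) : DualNumber ℂ))) i) =
    TrivSqZeroExt.inl (x i) +
      TrivSqZeroExt.inr ((i : ℕ) * (![0, x 0, x 1, x 2, x 3] : Fin 5 → ℂ) i) := by
  have he : (DualNumber.eps : DualNumber ℂ) * DualNumber.eps = 0 := DualNumber.eps_mul_eps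
  have he2 : (DualNumber.eps : DualNumber ℂ) ^ 2 = 0 := by rw [pow_two, he]
  have he3 : (DualNumber.eps : DualNumber ℂ) ^ 3 = 0 := by rw [pow_succ, he2, zero_mul]
  have he4 : (DualNumber.eps : DualNumber ℂ) ^ 4 = 0 := by rw [pow_succ, he3, zero_mul]
  have h1 : (⟨1, DualNumber.eps⟩ : B2 (DualNumber ℂ)).rho = affMat 1 DualNumber.eps := by
    rw [B2.rho]; simp
  rw [h1, Matrix.mulVec, dotProduct, Fin.sum_univ_five]
  fin_cases i <;> simp [affMat, Nat.choose, he2, he3, he4]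
  all_goals
    ext
    · simp
    · simp
      try exact Or.inl (TrivSqZeroExt.fst_natCast (R := ℂ) (M := ℂ) _)

theorem ezero_iff (x : P4) : EZero x ↔ ∀ i j : Fin 5,
    x.rep i * ((j : ℕ) * (![0, x.rep 0, x.rep 1, x.rep 2, x.rep 3] : Fin 5 → ℂ) j) =
    x.rep j * ((i : ℕ) * (![0, x.rep 0, x.rep 1, x.rep 2, x.rep 3] : Fin 5 → ℂ) i) := by
  have key : ∀ i j : Fin 5, ((TrivSqZeroExt.inl (x.rep i) : DualNumber ℂ) *
      (((⟨1, DualNumber.eps⟩ : B2 (DualNumber ℂ)).rho *ᵥ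
      (fun i => (TrivSqZeroExt.inl (x.rep i) : DualNumber ℂ))) j) =
      (TrivSqZeroExt.inl (x.rep j) : DualNumber ℂ) *
      (((⟨1, DualNumber.eps⟩ : B2 (DualNumber ℂ)).rho *ᵥ
      (fun i => (TrivSqZeroExt.inl (x.rep i) : DualNumber ℂ))) i)) ↔
      x.rep i * ((j : ℕ) * (![0, x.rep 0, x.rep 1, x.rep 2, x.rep 3] : Fin 5 → ℂ) j) =
      x.rep j * ((i : ℕ) * (![0, x.rep 0, x.rep 1, x.rep 2, x.rep 3] : Fin 5 → ℂ) i) := by
    intro i j
    rw [ez_mulVec, ez_mulVec]
    constructor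
    · intro h
      have h1 := congrArg TrivSqZeroExt.snd h
      simpa using h1
    · intro h
      ext
      · simp [mul_comm]
      · simpa using h
  constructor
  · intro h i j
    exact (key i j).mp (h i j)
  · intro h i j
    exact (key i j).mpr (h i j)

/-- the vector field of `e` has exactly one zero -/
theorem ezero_unique : ∃! x : P4, EZero x := by
  have hne : (Pi.single 4 1 : Fin 5 → ℂ) ≠ 0 := by
    intro h; have := congrFun h 4; simp at this
  refine ⟨Projectivization.mk ℂ (Pi.single 4 1) hne, ?_, ?_⟩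
  · simp only
    rw [ezero_iff]
    obtain ⟨a, ha⟩ := Projectivization.exists_smul_eq_mk_rep ℂ (Pi.single 4 1 : Fin 5 → ℂ) hne
    rw [← ha]
    intro i j
    fin_cases i <;> fin_cases j <;> simp
  · intro x hx
    rw [ezero_iff] at hx
    have h0 : x.rep 0 = 0 := by simpa using hx 0 1
    have h1 : x.rep 1 = 0 := by simpa [h0] using hx 1 2
    have h2 : x.rep 2 = 0 := by simpa [h1] using hx 2 3
    have h3 : x.rep 3 = 0 := by simpa [h2] using hx 3 4
    rw [← x.mk_rep, Projectivization.mk_eq_mk_iff']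
    refine ⟨x.rep 4, ?_⟩
    funext i
    fin_cases i <;> simp [h0, h1, h2, h3]

/-- `e` is a regular element of the Lie algebra of `B₂` -/
theorem e_regular (Z : Matrix (Fin 2) (Fin 2) ℂ) (h1 : Z 1 0 = 0) (h2 : Z.trace = 0) :
    Z * !![0, 1; 0, 0] = !![0, 1; 0, 0] * Z ↔ ∃ c : ℂ, Z = c • !![0, 1; 0, 0] := by
  rw [Matrix.trace_fin_two] at h2
  constructor
  · intro h
    have h3 := congrFun (congrFun h 0) 1
    simp [Matrix.mul_apply, Fin.sum_univ_two] at h3
    refine ⟨Z 0 1, ?_⟩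
    have h4 : Z 0 0 = 0 := by
      have : 2 * Z 0 0 = 0 := by linear_combination h2 + h3
      simpa using this
    have h5 : Z 1 1 = 0 := by rw [← h3, h4]
    ext i j
    fin_cases i <;> fin_cases j <;> simp [h1, h4, h5]
  · rintro ⟨c, rfl⟩
    rw [Matrix.smul_mul, Matrix.mul_smul]

end H574R3.Fix
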