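import Pool.Agent.H574R3.Fix.KDefs

open MvPolynomial Matrix
open scoped LinearAlgebra.Projectivization

namespace H574R3.Fix

/-- relations of the Grothendieck group -/
def K0Rel : Set (EqBundle →₀ ℂ) :=
  {z | ∃ (E' E E'' : EqBundle) (f : EqMap E' E) (g : EqMap E E''), IsSES f g ∧
    z = Finsupp.single E 1 - Finsupp.single E' 1 - Finsupp.single E'' 1}

/-! ### The two rings, as types of their own -/

/-- **`K⁰_{B₂}(ℙ⁴) ⊗ ℂ`**: the `ℂ`-vector space generated by the `B₂`-equivariant vector bundles on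
`ℙ⁴`, modulo `[E] = [E'] + [E'']` for every short exact sequence `0 → E' → E → E'' → 0`. -/
def KGrp : Type 1 := (EqBundle →₀ ℂ) ⧸ Submodule.span ℂ K0Rel

noncomputable instance : AddCommGroup KGrp :=
  Submodule.Quotient.addCommGroup (Submodule.span ℂ K0Rel)

noncomputable instance : Module ℂ KGrp :=
  Submodule.Quotient.module (Submodule.span ℂ K0Rel)

/-- the class `[E]` -/
noncomputable def KGrp.cls (E : EqBundle) : KGrp :=
  (Submodule.span ℂ K0Rel).mkQ (Finsupp.single E 1)

/-- **`ℂ[Fix_{B₂}(ℙ⁴)]^{B₂}`** -/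
def InvRing : Type 1 := InvFun

noncomputable instance : CommRing InvRing := InvFun.toCommRing

noncomputable instance : Algebra ℂ InvRing := InvFun.algebra

/-- the invariant function `(g, x) ↦ t(g)` -/
def InvRing.t : InvRing := tFun

/-- the element `e` of `Lie B₂` -/
def eMat : Matrix (Fin 2) (Fin 2) ℂ := !![0, 1; 0, 0]

/-- `Lie B₂`: the upper triangular matrices of trace zero -/
def LieB2 : Set (Matrix (Fin 2) (Fin 2) ℂ) := {Z | Z 1 0 = 0 ∧ Z.trace = 0}

end H574R3.Fix
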