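import Pool.Agent.H574R3.Fix.Main
import Pool.Agent.H574R3.Fix.Stmt

open MvPolynomial Matrix
open scoped LinearAlgebra.Projectivization

namespace H574R3.Fix

/-- **`K⁰_{B₂}(ℙ⁴) ⊗ ℂ`**: the `ℂ`-vector space generated by the `B₂`-equivariant vector bundles on
`ℙ⁴`, modulo `[E] = [E'] + [E'']` for every short exact sequence `0 → E' → E → E'' → 0`. -/
abbrev K0 := (EqBundle →₀ ℂ) ⧸ Submodule.span ℂ K0Rel

/-- the class of an equivariant bundle -/
noncomputable def K0.cls (E : EqBundle) : K0 := Submodule.Quotient.mk (Finsupp.single E 1)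

/-- comparison of the two presentations -/
noncomputable def toKRing : K0 →ₗ[ℂ] KRing :=
  Submodule.liftQ _ (Finsupp.lsum ℂ (fun E => LinearMap.toSpanSingleton ℂ KRing (KRing.cls E))) (by
    rw [Submodule.span_le]
    rintro z ⟨E', E, E'', f, g, hfg, rfl⟩
    change Finsupp.lsum ℂ (fun E => LinearMap.toSpanSingleton ℂ KRing (KRing.cls E))
      (Finsupp.single E 1 - Finsupp.single E' 1 - Finsupp.single E'' 1) = 0
    rw [map_sub, map_sub]
    simp only [Finsupp.lsum_single, LinearMap.toSpanSingleton_apply, one_smul]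
    have : (X E - X E' - X E'' : MvPolynomial EqBundle ℂ) ∈ Ideal.span KRel :=
      Ideal.subset_span (Or.inr (Or.inr ⟨E', E, E'', f, g, hfg, rfl⟩))
    have h2 := (Ideal.Quotient.eq_zero_iff_mem.mpr this)
    rw [map_sub, map_sub] at h2
    exact h2)

theorem toKRing_cls (E : EqBundle) : toKRing (K0.cls E) = KRing.cls E := by
  rw [toKRing, K0.cls]
  erw [Submodule.liftQ_apply]
  simp

theorem toKRing_surj : Function.Surjective toKRing := by
  intro κ
  have h := cls_span κ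
  refine Submodule.span_induction (p := fun z _ => ∃ a, toKRing a = z) ?_ ?_ ?_ ?_ h
  · rintro _ ⟨E, rfl⟩; exact ⟨_, toKRing_cls E⟩
  · exact ⟨0, map_zero _⟩
  · rintro x y _ _ ⟨a, rfl⟩ ⟨b, rfl⟩; exact ⟨a + b, map_add _ _ _⟩
  · rintro c x _ ⟨a, rfl⟩; exact ⟨c • a, map_smul _ _ _⟩

theorem no_iso' : ¬ ∃ Ψ : K0 ≃ₗ[ℂ] InvFun,
    (∀ E F : EqBundle, Ψ (K0.cls (E.tensor F)) = Ψ (K0.cls E) * Ψ (K0.cls F)) ∧
    Ψ (K0.cls oneBundle) = 1 ∧ Ψ (K0.cls chiBundle) = tFun := by
  rintro ⟨Ψ, h1, h2, h3⟩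
  have hker : ∀ a ∈ Ideal.span KRel,
      MvPolynomial.aeval (R := ℂ) (fun E : EqBundle => Ψ (K0.cls E)) a = 0 := by
    have : Ideal.span KRel ≤ RingHom.ker ((MvPolynomial.aeval (R := ℂ)
        (fun E : EqBundle => Ψ (K0.cls E)) : MvPolynomial EqBundle ℂ →ₐ[ℂ] InvFun) :
        MvPolynomial EqBundle ℂ →+* InvFun) := by
      rw [Ideal.span_le]
      intro p hp
      change MvPolynomial.aeval (R := ℂ) (fun E : EqBundle => Ψ (K0.cls E)) p = 0
      rcases hp with ⟨E, F, rfl⟩ | rfl | ⟨E', E, E'', f, g, hfg, rfl⟩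
      · rw [map_sub, map_mul, aeval_X, aeval_X, aeval_X, h1, sub_self]
      · rw [map_sub, map_one, aeval_X, h2, sub_self]
      · rw [map_sub, map_sub, aeval_X, aeval_X, aeval_X, ← map_sub, ← map_sub]
        have h4 : K0.cls E - K0.cls E' - K0.cls E'' = 0 := by
          have : (Finsupp.single E 1 - Finsupp.single E' 1 - Finsupp.single E'' 1 :
              EqBundle →₀ ℂ) ∈ Submodule.span ℂ K0Rel :=
            Submodule.subset_span ⟨E', E, E'', f, g, hfg, rfl⟩
          exact (Submodule.Quotient.mk_eq_zero _).mpr this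
        rw [h4, map_zero]
    exact this
  let Θ : KRing →ₐ[ℂ] InvFun := Ideal.Quotient.liftₐ _
    (MvPolynomial.aeval (R := ℂ) (fun E : EqBundle => Ψ (K0.cls E))) hker
  have hΘ : ∀ E, Θ (KRing.cls E) = Ψ (K0.cls E) := by
    intro E
    change Ideal.Quotient.liftₐ _ _ hker (Ideal.Quotient.mk _ (X E)) = _
    erw [Ideal.Quotient.liftₐ_apply, Ideal.Quotient.lift_mk]
    exact MvPolynomial.aeval_X _ _
  have hcomp : ∀ z : K0, Θ (toKRing z) = Ψ z := by
    have : (Θ.toLinearMap ∘ₗ toKRing) = (Ψ : K0 →ₗ[ℂ] InvFun) := by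
      apply Submodule.linearMap_qext
      apply Finsupp.lhom_ext'
      intro E
      apply LinearMap.ext_ring
      change Θ (toKRing (K0.cls E)) = Ψ (K0.cls E)
      rw [toKRing_cls, hΘ]
    intro z
    exact LinearMap.congr_fun this z
  have hbij : Function.Bijective Θ := by
    refine ⟨?_, ?_⟩
    · rw [injective_iff_map_eq_zero]
      intro κ hκ
      obtain ⟨z, rfl⟩ := toKRing_surj κ
      rw [hcomp] at hκ
      have : z = 0 := by simpa using hκ
      rw [this, map_zero]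
    · intro f
      exact ⟨toKRing (Ψ.symm f), by rw [hcomp, LinearEquiv.apply_symm_apply]⟩
  exact no_iso ⟨AlgEquiv.ofBijective Θ hbij, by
    rw [AlgEquiv.ofBijective_apply, hΘ, h3]⟩

theorem no_iso'' : ¬ ∃ Ψ : KGrp ≃ₗ[ℂ] InvRing,
    (∀ E F : EqBundle, Ψ (KGrp.cls (E.tensor F)) = Ψ (KGrp.cls E) * Ψ (KGrp.cls F)) ∧
    Ψ (KGrp.cls oneBundle) = 1 ∧ Ψ (KGrp.cls chiBundle) = InvRing.t :=
  no_iso'

end H574R3.Fix
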