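import Pool.Agent.H574R3.Fix.Defs

open MvPolynomial Matrix
open scoped LinearAlgebra.Projectivization Kronecker

namespace H574R3.Fix

theorem gAct_one (x : P4) : gAct 1 x = x := by
  have : ∀ h, Projectivization.mk ℂ ((1 : B2 ℂ).rho *ᵥ x.rep) h = x := by
    rw [B2.rho_one, Matrix.one_mulVec]
    intro h
    exact x.mk_rep
  exact this _

theorem evG_mul (g : B2 ℂ) (v) (P Q : MvPolynomial (Fin 2 ⊕ Fin 5) ℂ) :
    evG g v (P * Q) = evG g v P * evG g v Q := by
  simp [evG]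

theorem GReg.mul {Ω : Set (B2 ℂ × P4)} {f f' : B2 ℂ → P4 → ℂ} (h : GReg Ω f) (h' : GReg Ω f') :
    GReg Ω (fun g x => f g x * f' g x) := by
  intro p hp
  obtain ⟨d, P, Q, hP, hQ, h1, h2⟩ := h p hp
  obtain ⟨d', P', Q', hP', hQ', h1', h2'⟩ := h' p hp
  refine ⟨d + d', P * P', Q * Q', hP.mul hP', hQ.mul hQ', ?_, fun q hq hne => ?_⟩
  · rw [evG_mul]; exact mul_ne_zero h1 h1'
  · rw [evG_mul] at hne
    change f q.1 q.2 * f' q.1 q.2 = _
    rw [evG_mul, evG_mul, h2 q hq (left_ne_zero_of_mul hne), h2' q hq (right_ne_zero_of_mul hne),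
      div_mul_div_comm]

theorem GReg.mono {Ω Ω' : Set (B2 ℂ × P4)} {f : B2 ℂ → P4 → ℂ} (h : GReg Ω' f) (hs : Ω ⊆ Ω') :
    GReg Ω f := by
  intro p hp
  obtain ⟨d, P, Q, hP, hQ, h1, h2⟩ := h p (hs hp)
  exact ⟨d, P, Q, hP, hQ, h1, fun q hq => h2 q (hs hq)⟩

theorem GReg.const (Ω : Set (B2 ℂ × P4)) (c : ℂ) : GReg Ω (fun _ _ => c) := by
  intro p _
  refine ⟨0, C c, 1, isWeightedHomogeneous_C _ _, isWeightedHomogeneous_one _ _, by simp [evG],
    fun q _ _ => by simp [evG]⟩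

theorem POpen.inter {U V : Set P4} (h : POpen U) (h' : POpen V) : POpen (U ∩ V) := by
  rintro x ⟨hx, hx'⟩
  obtain ⟨d, f, hf, h1, h2⟩ := h x hx
  obtain ⟨d', f', hf', h1', h2'⟩ := h' x hx'
  refine ⟨d + d', f * f', hf.mul hf', by simp [h1, h1'], fun y hy => ?_⟩
  rw [map_mul] at hy
  exact ⟨h2 y (left_ne_zero_of_mul hy), h2' y (right_ne_zero_of_mul hy)⟩

theorem POpen.univ : POpen Set.univ := by
  intro x _
  exact ⟨0, 1, isHomogeneous_one _ _, by simp, fun _ _ => trivial⟩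

/-- the tensor product of two equivariant bundles -/
noncomputable def EqBundle.tensor (E F : EqBundle) : EqBundle where
  n := E.n × F.n
  act g x := E.act g x ⊗ₖ F.act g x
  act_one x := by rw [E.act_one, F.act_one, Matrix.one_kronecker_one]
  act_mul g h x := by rw [E.act_mul, F.act_mul, Matrix.mul_kronecker_mul]
  ι := E.ι × F.ι
  U α := E.U α.1 ∩ F.U α.2
  U_open α := (E.U_open α.1).inter (F.U_open α.2)
  U_cover x := by
    obtain ⟨α, hα⟩ := E.U_cover x
    obtain ⟨β, hβ⟩ := F.U_cover x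
    exact ⟨(α, β), hα, hβ⟩
  frame α x := E.frame α.1 x ⊗ₖ F.frame α.2 x
  frame_unit α x hx := by
    rw [Matrix.det_kronecker]
    exact ((E.frame_unit _ x hx.1).pow _).mul ((F.frame_unit _ x hx.2).pow _)
  regular α β i j := by
    have h1 := (E.regular α.1 β.1 i.1 j.1).mono
      (Ω := {p | p.2 ∈ E.U α.1 ∩ F.U α.2 ∧ gAct p.1 p.2 ∈ E.U β.1 ∩ F.U β.2})
      (fun p hp => ⟨hp.1.1, hp.2.1⟩)
    have h2 := (F.regular α.2 β.2 i.2 j.2).mono
      (Ω := {p | p.2 ∈ E.U α.1 ∩ F.U α.2 ∧ gAct p.1 p.2 ∈ E.U β.1 ∩ F.U β.2})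
      (fun p hp => ⟨hp.1.2, hp.2.2⟩)
    have h3 := h1.mul h2
    refine cast (congrArg _ ?_) h3
    funext g x
    rw [Matrix.inv_kronecker, ← Matrix.mul_kronecker_mul, ← Matrix.mul_kronecker_mul,
      Matrix.kronecker_apply]

/-- the trivial line bundle on which `g = (t, s)` acts by the scalar `t` -/
noncomputable def chiBundle : EqBundle where
  n := Unit
  act g _ := (g.t : ℂ) • 1
  act_one x := by simp
  act_mul g h x := by
    rw [Matrix.smul_mul, Matrix.one_mul, smul_smul]; simp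
  ι := Unit
  U _ := Set.univ
  U_open _ := POpen.univ
  U_cover _ := ⟨(), trivial⟩
  frame _ _ := 1
  frame_unit _ _ _ := by simp
  regular α β i j := by
    intro p _
    refine ⟨0, X (Sum.inl 0), 1, ?_, isWeightedHomogeneous_one _ _, by simp [evG], ?_⟩
    · exact isWeightedHomogeneous_X _ _ _
    · intro q _ _
      simp [evG]

/-- the trivial line bundle -/
noncomputable def oneBundle : EqBundle where
  n := Unit
  act _ _ := 1
  act_one x := rfl
  act_mul g h x := by simp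
  ι := Unit
  U _ := Set.univ
  U_open _ := POpen.univ
  U_cover _ := ⟨(), trivial⟩
  frame _ _ := 1
  frame_unit _ _ _ := by simp
  regular α β i j := by
    refine cast (congrArg _ ?_) (GReg.const _ 1)
    funext g x
    simp

/-- The vector field on `ℙ⁴` given by `e` vanishes at `x`: the element `1 + ε e` of
`B₂(ℂ[ε])` fixes the point `x`. -/
def EZero (x : P4) : Prop :=
  let g : B2 (DualNumber ℂ) := ⟨1, DualNumber.eps⟩
  let v : Fin 5 → DualNumber ℂ := fun i => TrivSqZeroExt.inl (x.rep i)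
  ∀ i j, v i * (g.rho *ᵥ v) j = v j * (g.rho *ᵥ v) i

end H574R3.Fix
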