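import Pool.Agent.H574R3.Fix.KDefs

open MvPolynomial Matrix
open scoped LinearAlgebra.Projectivization Kronecker

namespace H574R3.Fix

/-- The relations of the Grothendieck ring. -/
def KRel : Set (MvPolynomial EqBundle ℂ) :=
  {p | (∃ E F : EqBundle, p = X (E.tensor F) - X E * X F) ∨ p = X oneBundle - 1 ∨
    ∃ (E' E E'' : EqBundle) (f : EqMap E' E) (g : EqMap E E''), IsSES f g ∧
      p = X E - X E' - X E''}

/-- **The ring `K⁰_{B₂}(ℙ⁴) ⊗ ℂ`**: the commutative `ℂ`-algebra generated by the equivariant vector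
bundles, subject to `[E] = [E'] + [E'']` for short exact sequences, `[E ⊗ F] = [E] [F]` and
`[𝒪] = 1`. -/
abbrev KRing := MvPolynomial EqBundle ℂ ⧸ Ideal.span KRel

/-- the class of a bundle -/
noncomputable def KRing.cls (E : EqBundle) : KRing := Ideal.Quotient.mk _ (X E)

end H574R3.Fix
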