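import Mathlib

open Matrix

namespace H574R3.Fix

variable {n : Type} [Fintype n] [DecidableEq n]

theorem idem_toLin {P : Matrix n n ℂ} (hP : P * P = P) : IsIdempotentElem (Matrix.toLin' P) := by
  rw [IsIdempotentElem, Module.End.mul_eq_comp, ← Matrix.toLin'_mul, hP]

theorem trace_idem {P : Matrix n n ℂ} (hP : P * P = P) :
    P.trace = (Module.finrank ℂ (LinearMap.range (Matrix.toLin' P)) : ℂ) := by
  rw [← (LinearMap.IsIdempotentElem.isProj_range _ (idem_toLin hP)).trace, Matrix.trace_toLin'_eq]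

theorem idem_eq_zero {P : Matrix n n ℂ} (hP : P * P = P) (ht : P.trace = 0) : P = 0 := by
  have := LinearMap.IsIdempotentElem.eq_zero_of_trace_eq_zero (idem_toLin hP)
    (by rw [Matrix.trace_toLin'_eq, ht])
  simpa using this

theorem rank_factor {P : Matrix n n ℂ} (hP : P * P = P) (k : ℕ)
    (hk : Module.finrank ℂ (LinearMap.range (Matrix.toLin' P)) = k) :
    ∃ (C : Matrix n (Fin k) ℂ) (D : Matrix (Fin k) n ℂ), D * P * C = 1 := by
  let f := Matrix.toLin' P
  have hf : ∀ x, f (f x) = f x := fun x => by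
    have := idem_toLin hP
    exact LinearMap.congr_fun this x
  let b := Module.finBasisOfFinrankEq ℂ (LinearMap.range f) hk
  let Cl : (Fin k → ℂ) →ₗ[ℂ] (n → ℂ) := (LinearMap.range f).subtype ∘ₗ b.equivFun.symm.toLinearMap
  let Dl : (n → ℂ) →ₗ[ℂ] (Fin k → ℂ) := b.equivFun.toLinearMap ∘ₗ f.rangeRestrict
  refine ⟨LinearMap.toMatrix' Cl, LinearMap.toMatrix' Dl, ?_⟩
  have h1 : Dl ∘ₗ f ∘ₗ Cl = LinearMap.id := by
    apply LinearMap.ext
    intro u
    simp only [Dl, Cl, LinearMap.comp_apply, LinearMap.id_apply, Submodule.subtype_apply,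
      LinearEquiv.coe_coe]
    have hmem : ((b.equivFun.symm u : LinearMap.range f) : n → ℂ) ∈ LinearMap.range f :=
      (b.equivFun.symm u).2
    obtain ⟨y, hy⟩ := hmem
    have h2 : f.rangeRestrict (f ((b.equivFun.symm u : LinearMap.range f) : n → ℂ)) =
        b.equivFun.symm u := by
      apply Subtype.ext
      change f (f ((b.equivFun.symm u : LinearMap.range f) : n → ℂ)) = _
      rw [← hy, hf, hf]
    rw [h2, LinearEquiv.apply_symm_apply]
  have h2 := congrArg LinearMap.toMatrix' h1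
  rw [LinearMap.toMatrix'_comp, LinearMap.toMatrix'_comp, LinearMap.toMatrix'_toLin',
    LinearMap.toMatrix'_id, ← Matrix.mul_assoc] at h2
  exact h2

/-- recognizing the projector from a frame of its image -/
theorem frame_proj {k : ℕ} {P : Matrix n n ℂ} (hP : P * P = P) (ht : P.trace = k)
    (Ψ : Matrix n (Fin k) ℂ) (Λ : Matrix (Fin k) n ℂ) (hu : IsUnit (Λ * Ψ).det)
    (hΨ : P * Ψ = Ψ) : Ψ * (Λ * Ψ)⁻¹ * Λ * P = P := by
  set Θ := Ψ * (Λ * Ψ)⁻¹ * Λ with hΘ
  have h1 : (Λ * Ψ)⁻¹ * (Λ * Ψ) = 1 := Matrix.nonsing_inv_mul _ hu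
  have hΘ2 : Θ * Θ = Θ := by
    calc Θ * Θ = Ψ * ((Λ * Ψ)⁻¹ * (Λ * Ψ)) * (Λ * Ψ)⁻¹ * Λ := by
          rw [hΘ]; simp only [Matrix.mul_assoc]
      _ = Θ := by rw [h1, Matrix.mul_one]
  have hPΘ : P * Θ = Θ := by
    rw [hΘ, ← Matrix.mul_assoc, ← Matrix.mul_assoc, hΨ]
  have htΘ : Θ.trace = k := by
    rw [hΘ, Matrix.trace_mul_comm, ← Matrix.mul_assoc, Matrix.mul_nonsing_inv _ hu]
    simp
  have h2 : (P - Θ * P) * (P - Θ * P) = P - Θ * P := by
    have e1 : P * (Θ * P) = Θ * P := by rw [← Matrix.mul_assoc, hPΘ]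
    have e2 : Θ * P * P = Θ * P := by rw [Matrix.mul_assoc, hP]
    have e3 : Θ * P * (Θ * P) = Θ * P := by
      rw [Matrix.mul_assoc, e1, ← Matrix.mul_assoc, hΘ2]
    rw [Matrix.sub_mul, Matrix.mul_sub, Matrix.mul_sub, hP, e1, e2, e3]
    simp
  have h3 : (P - Θ * P).trace = 0 := by
    rw [Matrix.trace_sub, Matrix.trace_mul_comm, hPΘ, ht, htΘ, sub_self]
  have h4 := idem_eq_zero h2 h3
  exact (sub_eq_zero.mp h4).symm

theorem hasDerivAt_det {k : ℕ} (g : ℂ → Matrix (Fin k) (Fin k) ℂ) (g' : Matrix (Fin k) (Fin k) ℂ)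
    (hg : ∀ i j, HasDerivAt (fun t => g t i j) (g' i j) 1) (h1 : g 1 = 1) :
    HasDerivAt (fun t => (g t).det) g'.trace 1 := by
  have h2 : ∀ σ : Equiv.Perm (Fin k), HasDerivAt (fun t => ∏ i, g t (σ i) i)
      (∑ i, (∏ j ∈ Finset.univ.erase i, g 1 (σ j) j) • g' (σ i) i) 1 := fun σ =>
    HasDerivAt.fun_finsetProd (u := Finset.univ) (f := fun i t => g t (σ i) i)
      (f' := fun i => g' (σ i) i) (fun i _ => hg (σ i) i)
  have h3 : HasDerivAt (fun t => ∑ σ : Equiv.Perm (Fin k),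
      ((Equiv.Perm.sign σ : ℤ) : ℂ) * ∏ i, g t (σ i) i)
      (∑ σ : Equiv.Perm (Fin k), ((Equiv.Perm.sign σ : ℤ) : ℂ) *
        ∑ i, (∏ j ∈ Finset.univ.erase i, g 1 (σ j) j) • g' (σ i) i) 1 :=
    HasDerivAt.fun_sum (fun σ _ => (h2 σ).const_mul _)
  have h4 : (∑ σ : Equiv.Perm (Fin k), ((Equiv.Perm.sign σ : ℤ) : ℂ) *
        ∑ i, (∏ j ∈ Finset.univ.erase i, g 1 (σ j) j) • g' (σ i) i) = g'.trace := by
    rw [Finset.sum_eq_single 1]
    · simp [h1, Matrix.trace]
    · intro σ _ hσ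
      rw [Finset.sum_eq_zero, mul_zero]
      intro i _
      have : ∃ j, j ≠ i ∧ σ j ≠ j := by
        by_contra hcon
        push Not at hcon
        apply hσ
        ext j
        by_cases hj : j = i
        · subst hj
          by_contra hne
          have hne' : σ j ≠ j := fun h => hne (by rw [h]; rfl)
          have := hcon (σ j) hne'
          exact hne' (σ.injective this)
        · rw [hcon j hj]; rfl
      obtain ⟨j, hj, hj'⟩ := this
      rw [Finset.prod_eq_zero (Finset.mem_erase.mpr ⟨hj, Finset.mem_univ j⟩), zero_smul]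
      rw [h1, Matrix.one_apply_ne hj']
    · intro h; exact absurd (Finset.mem_univ _) h
  rw [h4] at h3
  refine h3.congr_of_eventuallyEq ?_
  filter_upwards with t
  rw [Matrix.det_apply']

end H574R3.Fix
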