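import Pool.Agent.H574R3.Fix.Reg

open MvPolynomial

set_option linter.unusedSectionVars false

namespace H574R3.Fix

/-- the action of `diag (t, t⁻¹)` on the `+`-part `⟨e₀, e₂, e₄⟩`. -/
def tst (t : ℂ) (v : Fin 3 → ℂ) : Fin 3 → ℂ := fun i => t ^ (4 * (i : ℕ)) * v i

theorem tst_one (v : Fin 3 → ℂ) : tst 1 v = v := by
  funext i; simp [tst]

theorem tst_mul (s t : ℂ) (v : Fin 3 → ℂ) : tst s (tst t v) = tst (s * t) v := by
  funext i; simp only [tst, mul_pow]; ring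

theorem tst_smul (t c : ℂ) (v : Fin 3 → ℂ) : tst t (c • v) = c • tst t v := by
  funext i; simp only [tst, Pi.smul_apply, smul_eq_mul]; ring

theorem tst_ne {t : ℂ} (ht : t ≠ 0) {v : Fin 3 → ℂ} (hv : v ≠ 0) : tst t v ≠ 0 := by
  intro h
  apply hv
  funext i
  have := congrFun h i
  simp only [tst, Pi.zero_apply, mul_eq_zero, pow_eq_zero_iff', ne_eq] at this
  rcases this with h | h
  · exact absurd h.1 ht
  · exact h

/-- basis vectors -/
def bv (j : Fin 3) : Fin 3 → ℂ := Pi.single j 1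

theorem bv_ne (j : Fin 3) : bv j ≠ 0 := by
  intro h; have := congrFun h j; simp [bv] at this

theorem tst_bv (t : ℂ) (j : Fin 3) : tst t (bv j) = t ^ (4 * (j : ℕ)) • bv j := by
  funext i
  by_cases h : i = j
  · subst h; simp [tst, bv]
  · simp [tst, bv, h]

theorem diff_eval_line (P : MvPolynomial (Fin 3) ℂ) :
    Differentiable ℂ (fun l : ℂ => eval (l • bv 0) P) := by
  induction P using MvPolynomial.induction_on with
  | C a => simp
  | add p q hp hq =>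
    have : (fun l : ℂ => eval (l • bv 0) (p + q)) =
        (fun l : ℂ => eval (l • bv 0) p) + fun l : ℂ => eval (l • bv 0) q := by
      funext l; simp
    rw [this]
    exact hp.add hq
  | mul_X p i hp =>
    have h2 : Differentiable ℂ (fun l : ℂ => (l • bv 0) i) := by
      simp only [Pi.smul_apply, smul_eq_mul]
      exact differentiable_id.mul_const _
    have : (fun l : ℂ => eval (l • bv 0) (p * X i)) =
        (fun l : ℂ => eval (l • bv 0) p) * fun l : ℂ => (l • bv 0) i := by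
      funext l; simp
    rw [this]
    exact hp.mul h2

theorem lineSystem {ι : Type} (U : ι → Set (Fin 3 → ℂ)) (hU : ∀ α, ZOp (U α))
    (hcov : ∀ v, v ≠ 0 → ∃ α, v ∈ U α) (hU0 : ∀ α, ∀ v ∈ U α, v ≠ 0)
    (hne : ∀ α, (U α).Nonempty)
    (hcone : ∀ α v (c : ℂ), c ≠ 0 → v ∈ U α → c • v ∈ U α)
    (d : ι → ι → ℂ → (Fin 3 → ℂ) → ℂ)
    (hdreg : ∀ t, t ≠ 0 → ∀ β α, RegOn (U α ∩ {v | tst t v ∈ U β}) (d β α t))
    (hd0 : ∀ t, t ≠ 0 → ∀ α β, ∀ v, v ∈ U α → tst t v ∈ U β → d β α t v ≠ 0)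
    (hdc : ∀ s t, s ≠ 0 → t ≠ 0 → ∀ α β γ v, v ∈ U α → tst t v ∈ U β → tst (s * t) v ∈ U γ →
      d γ β s (tst t v) * d β α t v = d γ α (s * t) v)
    (hdinv : ∀ t, t ≠ 0 → ∀ β α (c : ℂ) v, c ≠ 0 → d β α t (c • v) = d β α t v)
    (N : Fin 3 → ℂ)
    (hN : ∀ j, ∃ α, bv j ∈ U α ∧ HasDerivAt (fun t => d α α t (bv j)) (N j) 1) :
    N 0 - 2 * N 1 + N 2 = 0 := by
  have h1U : ∀ β α, RegOn (U α ∩ U β) (d β α 1) := by
    intro β α
    have := hdreg 1 one_ne_zero β α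
    exact this.mono fun v hv => ⟨hv.1, by simpa only [Set.mem_ofPred_eq, tst_one] using hv.2⟩
  obtain ⟨P, Q, hPQ, hc⟩ := trivialize U hU (fun β α v => d β α 1 v) (fun β α => h1U β α)
    (fun β α v hv => hd0 1 one_ne_zero α β v hv.1 (by rw [tst_one]; exact hv.2))
    (fun α β γ v h1 h2 h3 => by
      have := hdc 1 1 one_ne_zero one_ne_zero α β γ v h1 (by rwa [tst_one])
        (by rwa [mul_one, tst_one])
      rwa [tst_one, mul_one] at this) hne
  let u : ι → (Fin 3 → ℂ) → ℂ := fun α v => eval v (P α) / eval v (Q α)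
  have hu0 : ∀ α, ∀ v ∈ U α, u α v ≠ 0 := fun α v hv =>
    div_ne_zero (hPQ α v hv).1 (hPQ α v hv).2
  have hc' : ∀ α β, ∀ v ∈ U α, v ∈ U β → d β α 1 v * u α v = u β v := fun α β v h1 h2 =>
    hc α β v h1 h2
  have d1 : ∀ α, ∀ v ∈ U α, d α α 1 v = 1 := by
    intro α v hv
    have := hc' α α v hv hv
    exact mul_right_cancel₀ (hu0 α v hv) (by rw [this, one_mul])
  -- the invariant function
  have indep : ∀ t, t ≠ 0 → ∀ α α' β β' v, v ∈ U α → v ∈ U α' → tst t v ∈ U β → tst t v ∈ U β' →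
      d β α t v * u α v / u β (tst t v) = d β' α' t v * u α' v / u β' (tst t v) := by
    intro t ht α α' β β' v h1 h2 h3 h4
    have e1 := hdc t 1 ht one_ne_zero α α' β v h1 (by rwa [tst_one]) (by rwa [mul_one])
    rw [tst_one, mul_one] at e1
    have e2 := hdc 1 t one_ne_zero ht α' β β' v h2 h3 (by rwa [one_mul])
    rw [one_mul] at e2
    have e3 := hc' α α' v h1 h2
    have e4 := hc' β β' (tst t v) h3 h4
    rw [div_eq_div_iff (hu0 _ _ h3) (hu0 _ _ h4), ← e1, ← e4, ← e2, ← e3]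
    ring
  have : Nonempty ι := ⟨(hN 0).choose⟩
  choose! a ha using hcov
  let F : ℂ → (Fin 3 → ℂ) → ℂ := fun t v =>
    d (a (tst t v)) (a v) t v * u (a v) v / u (a (tst t v)) (tst t v)
  have hF : ∀ t, t ≠ 0 → ∀ α β v, v ∈ U α → tst t v ∈ U β →
      F t v = d β α t v * u α v / u β (tst t v) := by
    intro t ht α β v h1 h2
    have hv := hU0 α v h1
    exact indep t ht _ _ _ _ v (ha v hv) h1 (ha _ (tst_ne ht hv)) h2
  have hureg : ∀ α, RegOn (U α) (u α) := fun α =>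
    RegOn.polyQuot (P α) (Q α) (fun v hv => (hPQ α v hv).2)
  have htop : ∀ (t : ℂ) β, ZOp {v | tst t v ∈ U β} := fun t β =>
    (hU β).dcomp (fun i => t ^ (4 * (i : ℕ)))
  have hucomp : ∀ (t : ℂ) β, RegOn {v | tst t v ∈ U β} (fun v => (u β (tst t v))⁻¹) := by
    intro t β
    exact ((hureg β).inv (hu0 β)).dcomp (fun i => t ^ (4 * (i : ℕ)))
  have hFreg : ∀ t, t ≠ 0 → RegOn NZ (F t) := by
    intro t ht
    refine RegOn.of_local fun v hv => ?_
    have h1 := ha v hv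
    have h2 := ha _ (tst_ne ht hv)
    set α := a v
    set β := a (tst t v)
    refine ⟨U α ∩ {v | tst t v ∈ U β}, fun v => d β α t v * u α v * (u β (tst t v))⁻¹,
      (hU α).inter (htop t β), ⟨h1, h2⟩, ?_, fun w hw => ?_⟩
    · exact ((hdreg t ht β α).mul ((hureg α).mono Set.inter_subset_left)).mul
        ((hucomp t β).mono Set.inter_subset_right)
    · rw [hF t ht α β w hw.1 hw.2, div_eq_mul_inv]
  have hF0 : ∀ t, t ≠ 0 → ∀ v ∈ NZ, F t v ≠ 0 := by
    intro t ht v hv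
    have h1 := ha v hv
    have h2 := ha _ (tst_ne ht hv)
    exact div_ne_zero (mul_ne_zero (hd0 t ht _ _ v h1 h2) (hu0 _ _ h1)) (hu0 _ _ h2)
  -- the scaling function
  have indep2 : ∀ (c : ℂ), c ≠ 0 → ∀ α β v, v ∈ U α → v ∈ U β →
      u α (c • v) / u α v = u β (c • v) / u β v := by
    intro c hc0 α β v h1 h2
    have e1 := hc' α β v h1 h2
    have e2 := hc' α β (c • v) (hcone α v c hc0 h1) (hcone β v c hc0 h2)
    rw [hdinv 1 one_ne_zero β α c v hc0] at e2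
    rw [div_eq_div_iff (hu0 _ _ h1) (hu0 _ _ h2), ← e1, ← e2]
    ring
  let G : ℂ → (Fin 3 → ℂ) → ℂ := fun c v => u (a v) (c • v) / u (a v) v
  have hG : ∀ c, c ≠ 0 → ∀ α v, v ∈ U α → G c v = u α (c • v) / u α v := by
    intro c hc0 α v h1
    exact indep2 c hc0 _ _ v (ha v (hU0 α v h1)) h1
  have hGreg : ∀ c, c ≠ 0 → RegOn NZ (G c) := by
    intro c hc0
    refine RegOn.of_local fun v hv => ?_
    have h1 := ha v hv
    set α := a v
    refine ⟨U α, fun v => u α (c • v) * (u α v)⁻¹, hU α, h1, ?_, fun w hw => ?_⟩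
    · refine RegOn.mul ?_ ((hureg α).inv (hu0 α))
      have := (hureg α).dcomp (fun _ => c)
      exact this.mono fun w hw => hcone α w c hc0 hw
    · rw [hG c hc0 α w hw, div_eq_mul_inv]
  have hG0 : ∀ c, c ≠ 0 → ∀ v ∈ NZ, G c v ≠ 0 := by
    intro c hc0 v hv
    have h1 := ha v hv
    exact div_ne_zero (hu0 _ _ (hcone _ v c hc0 h1)) (hu0 _ _ h1)
  -- main formula
  have main : ∀ t, t ≠ 0 → ∀ j α, bv j ∈ U α →
      d α α t (bv j) = F t (bv 0) * G (t ^ (4 * (j : ℕ))) (bv 0) := by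
    intro t ht j α hα
    have htj : t ^ (4 * (j : ℕ)) ≠ 0 := pow_ne_zero _ ht
    have h2 : tst t (bv j) ∈ U α := by rw [tst_bv]; exact hcone α _ _ htj hα
    rw [unit_const (hFreg t ht) (hF0 t ht) (bv 0) (bv j) (bv_ne 0) (bv_ne j),
      unit_const (hGreg _ htj) (hG0 _ htj) (bv 0) (bv j) (bv_ne 0) (bv_ne j),
      hF t ht α α (bv j) hα h2, hG _ htj α (bv j) hα, ← tst_bv]
    have e1 := hu0 α _ hα
    have e2 := hu0 α _ h2
    field_simp
  obtain ⟨α₀, hα₀, hD₀⟩ := hN 0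
  obtain ⟨α₁, hα₁, hD₁⟩ := hN 1
  obtain ⟨α₂, hα₂, hD₂⟩ := hN 2
  have hG1 : G 1 (bv 0) = 1 := by
    rw [hG 1 one_ne_zero α₀ (bv 0) hα₀, one_smul, div_self (hu0 _ _ hα₀)]
  have hF1 : F 1 (bv 0) = 1 := by
    have := main 1 one_ne_zero 0 α₀ hα₀
    rw [d1 α₀ _ hα₀] at this
    simp only [one_pow, hG1, mul_one] at this
    exact this.symm
  have hev : ∀ᶠ t : ℂ in nhds 1, t ≠ 0 := (isOpen_ne.mem_nhds one_ne_zero)
  have hFd : HasDerivAt (fun t => F t (bv 0)) (N 0) 1 := by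
    refine hD₀.congr_of_eventuallyEq ?_
    filter_upwards [hev] with t ht
    rw [main t ht 0 α₀ hα₀]
    simp [hG1]
  have hGd : ∃ M, HasDerivAt (fun c => G c (bv 0)) M 1 := by
    have h1 : DifferentiableAt ℂ (fun c : ℂ => u α₀ (c • bv 0) / u α₀ (bv 0)) 1 := by
      refine DifferentiableAt.div_const ?_ _
      refine DifferentiableAt.div ?_ ?_ ?_
      · exact (diff_eval_line _).differentiableAt
      · exact (diff_eval_line _).differentiableAt
      · rw [one_smul]; exact (hPQ α₀ _ hα₀).2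
    refine ⟨_, h1.hasDerivAt.congr_of_eventuallyEq ?_⟩
    filter_upwards [hev] with t ht
    exact hG t ht α₀ _ hα₀
  obtain ⟨M, hM⟩ := hGd
  have hpow : ∀ k : ℕ, HasDerivAt (fun t : ℂ => G (t ^ k) (bv 0)) (M * k) 1 := by
    intro k
    have h1 : HasDerivAt (fun t : ℂ => t ^ k) (k : ℂ) 1 := by
      simpa using hasDerivAt_pow k (1 : ℂ)
    have h2 : HasDerivAt (fun c => G c (bv 0)) M ((1 : ℂ) ^ k) := by rwa [one_pow]
    exact h2.comp 1 h1
  have hcomb : ∀ (j : Fin 3) α, bv j ∈ U α → HasDerivAt (fun t => d α α t (bv j)) (N j) 1 →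
      N j = N 0 + M * ((4 * (j : ℕ) : ℕ) : ℂ) := by
    intro j α hα hD
    have h1 := hFd.mul (hpow (4 * (j : ℕ)))
    have h2 : HasDerivAt (fun t => d α α t (bv j)) (N 0 * G (1 ^ (4 * (j : ℕ))) (bv 0) +
        F 1 (bv 0) * (M * ((4 * (j : ℕ) : ℕ) : ℂ))) 1 := by
      refine h1.congr_of_eventuallyEq ?_
      filter_upwards [hev] with t ht
      exact main t ht j α hα
    rw [one_pow, hG1, hF1, mul_one, one_mul] at h2
    exact hD.unique h2
  have e1 := hcomb 1 α₁ hα₁ hD₁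
  have e2 := hcomb 2 α₂ hα₂ hD₂
  rw [e1, e2]
  simp only [Fin.val_one, Fin.val_two]
  push_cast
  ring

end H574R3.Fix
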