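import Pool.Agent.H574R3.Fix.Taut
import Pool.Agent.H574R3.Fix.ALoc

open Matrix
open scoped LinearAlgebra.Projectivization

namespace H574R3.Fix

abbrev LP := LaurentPolynomial ℂ

/-- `T` as a unit -/
noncomputable def Tu : LPˣ :=
  ⟨LaurentPolynomial.T 1, LaurentPolynomial.T (-1), by rw [← LaurentPolynomial.T_add]; rfl,
    by rw [← LaurentPolynomial.T_add]; rfl⟩

theorem lp_ext {B : Type*} [CommRing B] [Algebra ℂ B] (φ ψ : LP →ₐ[ℂ] B)
    (h : φ (LaurentPolynomial.T 1) = ψ (LaurentPolynomial.T 1)) : φ = ψ := by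
  have hu : Units.map (φ : LP →* B) Tu = Units.map (ψ : LP →* B) Tu := Units.ext h
  have hT : ∀ n : ℤ, LaurentPolynomial.T n = ((Tu ^ n : LPˣ) : LP) := by
    intro n
    induction n using Int.induction_on with
    | zero => simp
    | succ n ih => rw [_root_.zpow_add_one, Units.val_mul, ← ih, LaurentPolynomial.T_add]; rfl
    | pred n ih => rw [_root_.zpow_sub_one, Units.val_mul, ← ih, LaurentPolynomial.T_sub]; rfl
  apply AlgHom.ext
  intro q
  induction q using LaurentPolynomial.induction_on' with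
  | add p q hp hq => rw [map_add, map_add, hp, hq]
  | C_mul_T n a =>
    have h1 : φ (LaurentPolynomial.T n) = ψ (LaurentPolynomial.T n) := by
      rw [hT n]
      have h2 : φ ((Tu ^ n : LPˣ) : LP) = ((Units.map (φ : LP →* B) Tu ^ n : Bˣ) : B) := by
        rw [← map_zpow]; rfl
      have h3 : ψ ((Tu ^ n : LPˣ) : LP) = ((Units.map (ψ : LP →* B) Tu ^ n : Bˣ) : B) := by
        rw [← map_zpow]; rfl
      rw [h2, h3, hu]
    rw [map_mul, map_mul, h1, LaurentPolynomial.C_eq_algebraMap, AlgHom.commutes, AlgHom.commutes]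

/-- evaluation homomorphism `T ↦ u` -/
noncomputable def strHom {B : Type*} [CommRing B] [Algebra ℂ B] (u : Bˣ) : LP →ₐ[ℂ] B :=
  { LaurentPolynomial.eval₂ (algebraMap ℂ B) u with
    commutes' := fun r => by
      rw [← LaurentPolynomial.C_eq_algebraMap]
      exact LaurentPolynomial.eval₂_C _ _ _ }

theorem strHom_T {B : Type*} [CommRing B] [Algebra ℂ B] (u : Bˣ) :
    strHom u (LaurentPolynomial.T 1) = u := by
  have := LaurentPolynomial.eval₂_T (algebraMap ℂ B) u 1
  rw [zpow_one] at this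
  exact this

noncomputable abbrev L0 : CommAlgCat.{0} ℂ := CommAlgCat.of ℂ LP

/-- restriction to the `j`-th torus fixed point -/
noncomputable def evA (j : Fin 5) (f : InvFun) : LP := app f L0 (tpt (R := LP) Tu j)

theorem app_tpt (f : InvFun) (j : Fin 5) (R : CommAlgCat.{0} ℂ) (u : Rˣ) :
    app f R (tpt u j) = strHom u (evA j f) := by
  let φ : L0 →ₐ[ℂ] R := strHom u
  have h := app_nat f φ (tpt (R := LP) Tu j)
  have h2 : (tpt (R := LP) Tu j).map (φ : L0 →+* R) = tpt u j := by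
    rw [tpt_map]
    congr 1
    exact Units.ext (strHom_T u)
  rw [h2] at h
  exact h.symm

/-- `t` as a unit of the ring of invariant functions -/
noncomputable def tU : InvFunˣ where
  val := tFun
  inv := ⟨fun _ p => ((p.g.t⁻¹ : _ˣ) : _), by
    refine ⟨fun R S φ p => rfl, fun R u p => rfl, fun R h p => ?_⟩
    change (((p.conj h).g.t⁻¹ : Rˣ) : R) = ((p.g.t⁻¹ : Rˣ) : R)
    rw [conj_t]⟩
  val_inv := by
    apply Subtype.ext
    funext R p
    exact p.g.t.mul_inv
  inv_val := by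
    apply Subtype.ext
    funext R p
    exact p.g.t.inv_mul

/-- the structure map `ℂ[t, t⁻¹] → ℂ[Fix]^{B₂}` -/
noncomputable def strA : LP →ₐ[ℂ] InvFun := strHom tU

/-- value at a point -/
def evalAt (R : CommAlgCat.{0} ℂ) (p : FixPt R) : InvFun →ₐ[ℂ] R where
  toFun f := app f R p
  map_one' := rfl
  map_mul' _ _ := rfl
  map_zero' := rfl
  map_add' _ _ := rfl
  commutes' _ := rfl

theorem app_strA (q : LP) (R : CommAlgCat.{0} ℂ) (p : FixPt R) :
    app (strA q) R p = strHom p.g.t q := by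
  have : (evalAt R p).comp strA = strHom p.g.t := by
    apply lp_ext
    rw [strHom_T, AlgHom.comp_apply, strA, strHom_T]
    rfl
  exact AlgHom.congr_fun this q

theorem chi_strA (χ : InvFun →ₐ[ℂ] LP) (hχ : χ tFun = LaurentPolynomial.T 1) (q : LP) :
    χ (strA q) = q := by
  have : χ.comp strA = AlgHom.id ℂ LP := by
    apply lp_ext
    rw [AlgHom.comp_apply, strA, strHom_T, AlgHom.id_apply]
    exact hχ
  exact AlgHom.congr_fun this q

/-- the invariant functions `F_j` -/
noncomputable def FjA (j : Fin 5) : InvFun :=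
  ⟨fun _ p => Fj j p, fun R S φ p => Fj_map (φ : R →+* S) j p, fun _ u p => Fj_scale j u p,
    fun _ h p => Fj_conj j h p⟩

/-- the Laurent polynomial `W = (1 - t²)^16 w(t²)` -/
noncomputable def WL : LP := Wh ((LaurentPolynomial.T 1 : LP) ^ 2)

theorem strHom_WL (R : CommAlgCat.{0} ℂ) (p : FixPt R) : strHom p.g.t WL = Wh p.a := by
  have := strHom_T (B := R) p.g.t
  simp only [WL, Wh, wa, map_mul, map_sub, map_add, map_pow, map_one, this, FixPt.a]

theorem FjA_sum : ∑ j, FjA j = strA WL := by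
  apply Subtype.ext
  funext R p
  change ((∑ j, FjA j : InvFun) : ∀ R : CommAlgCat.{0} ℂ, FixPt R → R) R p = app (strA WL) R p
  rw [app_strA, strHom_WL, ← Fj_sum p]
  have := map_sum (evalAt R p) FjA Finset.univ
  exact this

theorem FjA_mul_self (j : Fin 5) : FjA j * FjA j = strA WL * FjA j := by
  apply Subtype.ext
  funext R p
  change Fj j p * Fj j p = app (strA WL) R p * Fj j p
  rw [app_strA, strHom_WL, Fj_mul_self]

theorem FjA_mul_ne {j k : Fin 5} (h : j ≠ k) : FjA j * FjA k = 0 := by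
  apply Subtype.ext
  funext R p
  exact Fj_mul_ne h p

theorem A_local (f : InvFun) (j : Fin 5) :
    ∃ M : ℕ, strA ((1 - (LaurentPolynomial.T 1 : LP) ^ 2) ^ M) *
      (FjA j * (f - strA (evA j f))) = 0 := by
  obtain ⟨M, hM⟩ := local3 f j
  refine ⟨M, ?_⟩
  apply Subtype.ext
  funext R p
  have h := hM R p
  rw [app_tpt] at h
  change app (strA _) R p * (Fj j p * (app f R p - app (strA (evA j f)) R p)) = 0
  rw [app_strA, app_strA]
  have h2 := strHom_T (B := R) p.g.t
  rw [map_pow, map_sub, map_one, map_pow, h2]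
  exact h

theorem evL_T (u : ℂˣ) : evL u (LaurentPolynomial.T 1) = u := by
  have := evL_C_mul_T u 1 1
  simpa using this

theorem evL_WL (u : ℂˣ) : evL u WL = Wh ((u : ℂ) ^ 2) := by
  simp only [WL, Wh, wa, map_mul, map_sub, map_add, map_pow, map_one, evL_T]

theorem WL_ne : WL ≠ 0 := by
  intro h
  have := evL_WL (Units.mk0 2 two_ne_zero)
  rw [h, map_zero] at this
  norm_num [Wh, wa] at this

theorem one_sub_ne : (1 - (LaurentPolynomial.T 1 : LP) ^ 2) ≠ 0 := by
  intro h
  have := congrArg (evL (Units.mk0 2 two_ne_zero)) h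
  rw [map_sub, map_one, map_pow, evL_T, map_zero] at this
  norm_num at this

/-- the algebra homomorphisms `ℂ[Fix]^{B₂} → ℂ[t, t⁻¹]` -/
theorem classify (χ : InvFun →ₐ[ℂ] LP) (hχ : χ tFun = LaurentPolynomial.T 1) :
    ∃ j : Fin 5, (∀ f, χ f = evA j f) ∧ χ (FjA j) = WL ∧ ∀ k, k ≠ j → χ (FjA k) = 0 := by
  have hW : χ (strA WL) = WL := chi_strA χ hχ WL
  have h1 : ∀ j, χ (FjA j) = 0 ∨ χ (FjA j) = WL := by
    intro j
    have h := congrArg χ (FjA_mul_self j)
    rw [map_mul, map_mul, hW] at h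
    have h2 : χ (FjA j) * (χ (FjA j) - WL) = 0 := by linear_combination h
    rcases mul_eq_zero.mp h2 with h3 | h3
    · exact Or.inl h3
    · exact Or.inr (sub_eq_zero.mp h3)
  obtain ⟨j, hj⟩ : ∃ j, χ (FjA j) ≠ 0 := by
    by_contra hcon
    push Not at hcon
    have h := congrArg χ FjA_sum
    rw [map_sum, hW, Finset.sum_eq_zero (fun j _ => hcon j)] at h
    exact WL_ne h.symm
  refine ⟨j, fun f => ?_, (h1 j).resolve_left hj, fun k hk => ?_⟩
  · obtain ⟨M, hM⟩ := A_local f j
    have h := congrArg χ hM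
    rw [map_mul, map_mul, map_sub, chi_strA χ hχ, chi_strA χ hχ, map_zero] at h
    have h2 := (mul_eq_zero.mp h).resolve_left (pow_ne_zero _ one_sub_ne)
    exact sub_eq_zero.mp ((mul_eq_zero.mp h2).resolve_left hj)
  · have h := congrArg χ (FjA_mul_ne hk)
    rw [map_mul, map_zero] at h
    exact (mul_eq_zero.mp h).resolve_right hj

theorem dI_WL : dI WL ≠ 0 := by
  have hev : ∀ᶠ s : ℂ in nhds Complex.I, s ≠ 0 := (isOpen_ne.mem_nhds Complex.I_ne_zero)
  let k : Polynomial ℂ := (Polynomial.X ^ 2 - 1) * ((Polynomial.X ^ 2) ^ 2 + Polynomial.X ^ 2 + 1) *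
    ((Polynomial.X ^ 2) ^ 2 + 1) * (1 - Polynomial.X ^ 2) ^ 16
  have h1 : HasDerivAt (fun t : ℂ => ((Polynomial.X ^ 2 + 1) * k).eval t)
      ((Polynomial.derivative ((Polynomial.X ^ 2 + 1) * k)).eval Complex.I) Complex.I :=
    Polynomial.hasDerivAt _ _
  have h2 : HasDerivAt (evL' WL)
      ((Polynomial.derivative ((Polynomial.X ^ 2 + 1) * k)).eval Complex.I) Complex.I := by
    refine h1.congr_of_eventuallyEq ?_
    filter_upwards [hev] with s hs
    rw [evL'_eq _ hs, evL_WL]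
    simp only [Units.val_mk0, Wh, wa, k, Polynomial.eval_mul, Polynomial.eval_add,
      Polynomial.eval_sub, Polynomial.eval_pow, Polynomial.eval_X, Polynomial.eval_one]
    ring
  have h3 : dI WL = (Polynomial.derivative ((Polynomial.X ^ 2 + 1) * k)).eval Complex.I := h2.deriv
  have hI : Complex.I ^ 2 = -1 := Complex.I_sq
  have h4 : (Polynomial.derivative ((Polynomial.X ^ 2 + 1) * k)).eval Complex.I =
      2 * Complex.I * k.eval Complex.I := by
    rw [Polynomial.derivative_mul]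
    simp [hI]
    left; norm_num
  have h5 : k.eval Complex.I = -2 * 1 * 2 * 2 ^ 16 := by
    simp only [k, Polynomial.eval_mul, Polynomial.eval_add,
      Polynomial.eval_sub, Polynomial.eval_pow, Polynomial.eval_X, Polynomial.eval_one, hI]
    norm_num
  rw [h3, h4, h5]
  exact mul_ne_zero (mul_ne_zero two_ne_zero Complex.I_ne_zero) (by norm_num)

theorem no_iso : ¬ ∃ Ψ : KRing ≃ₐ[ℂ] InvFun, Ψ (KRing.cls chiBundle) = tFun := by
  rintro ⟨Ψ, hΨ⟩
  let χ : Fin 3 → (InvFun →ₐ[ℂ] LP) := fun m => (rhoK m).comp (Ψ.symm : InvFun →ₐ[ℂ] KRing)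
  have hχ : ∀ m, χ m tFun = LaurentPolynomial.T 1 := by
    intro m
    change rhoK m (Ψ.symm tFun) = _
    rw [← hΨ, AlgEquiv.symm_apply_apply, rhoK_chi]
  have hcl := fun m => classify (χ m) (hχ m)
  choose τ h1 h2 h3 using hcl
  have hinj : ∀ m n, m ≠ n → τ m ≠ τ n := by
    intro m n hmn he
    apply rho_ne_rho hmn
    apply AlgHom.ext
    intro κ
    have e1 : χ m (Ψ κ) = rhoK m κ := by
      change rhoK m (Ψ.symm (Ψ κ)) = _
      rw [AlgEquiv.symm_apply_apply]
    have e2 : χ n (Ψ κ) = rhoK n κ := by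
      change rhoK n (Ψ.symm (Ψ κ)) = _
      rw [AlgEquiv.symm_apply_apply]
    rw [← e1, ← e2, h1 m, h1 n, he]
  have hc := c2_K (Ψ.symm (FjA (τ 1)))
  have e0 : rhoK 0 (Ψ.symm (FjA (τ 1))) = 0 := h3 0 (τ 1) (hinj 1 0 (by decide))
  have e1 : rhoK 1 (Ψ.symm (FjA (τ 1))) = WL := h2 1
  have e2 : rhoK 2 (Ψ.symm (FjA (τ 1))) = 0 := h3 2 (τ 1) (hinj 1 2 (by decide))
  have h0 : dI 0 = 0 := by
    have := dI_smul 0 0
    simpa using this
  rw [e0, e1, e2, h0] at hc
  apply dI_WL
  have : -2 * dI WL = 0 := by linear_combination hc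
  exact (mul_eq_zero.mp this).resolve_left (by norm_num)

end H574R3.Fix
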