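import Pool.Agent.H574R3.Fix.Defs

open Matrix

namespace H574R3.Fix

variable {R : Type} [CommRing R]

/-- `(1-a)^4 u_c`, `c = b / (1 - a)` -/
def Um (a b : R) : Matrix (Fin 5) (Fin 5) R :=
  fun i k => (Nat.choose i k : R) * b ^ ((i : ℕ) - (k : ℕ)) * (1 - a) ^ (4 - ((i : ℕ) - (k : ℕ)))

/-- `(1-a)^4 u_{-c}`, `c = b / (1 - a)` -/
def Vm (a b : R) : Matrix (Fin 5) (Fin 5) R :=
  fun i k => (Nat.choose i k : R) * (-b) ^ ((i : ℕ) - (k : ℕ)) *
    (1 - a) ^ (4 - ((i : ℕ) - (k : ℕ)))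

/-- diagonal matrix with entries `a^k` -/
def Dm (a : R) : Matrix (Fin 5) (Fin 5) R := Matrix.diagonal fun k => a ^ (k : ℕ)

theorem Um_mul_Vm (a b : R) : Um a b * Vm a b = (1 - a) ^ 8 • (1 : Matrix (Fin 5) (Fin 5) R) := by
  ext i j
  rw [Matrix.mul_apply, Fin.sum_univ_five]
  fin_cases i <;> fin_cases j <;> simp [Um, Vm, Nat.choose] <;> ring

theorem Vm_mul_Um (a b : R) : Vm a b * Um a b = (1 - a) ^ 8 • (1 : Matrix (Fin 5) (Fin 5) R) := by
  ext i j
  rw [Matrix.mul_apply, Fin.sum_univ_five]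
  fin_cases i <;> fin_cases j <;> simp [Um, Vm, Nat.choose] <;> ring

theorem Vm_mul_aff (a b : R) : Vm a b * affMat a b = Dm a * Vm a b := by
  ext i j
  rw [Dm, Matrix.diagonal_mul, Matrix.mul_apply, Fin.sum_univ_five]
  fin_cases i <;> fin_cases j <;> simp [Vm, affMat, Nat.choose] <;> ring

theorem aff_mul_Um (a b α β : R) :
    affMat α β * Um a b = Um a (α * b + (1 - a) * β) * Dm α := by
  ext i j
  rw [Dm, Matrix.mul_diagonal, Matrix.mul_apply, Fin.sum_univ_five]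
  fin_cases i <;> fin_cases j <;> simp [Um, affMat, Nat.choose] <;> ring

theorem Vm_mul_aff' (a b α β : R) :
    Vm a (α * b + (1 - a) * β) * affMat α β = Dm α * Vm a b := by
  ext i j
  rw [Dm, Matrix.diagonal_mul, Matrix.mul_apply, Fin.sum_univ_five]
  fin_cases i <;> fin_cases j <;> simp [Vm, affMat, Nat.choose] <;> ring

end H574R3.Fix
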