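import Pool.Agent.H574R3.Fix.KR
import Pool.Agent.H574R3.Fix.C2

open MvPolynomial Matrix
open scoped LinearAlgebra.Projectivization Kronecker

namespace H574R3.Fix

/-- scaling of weighted homogeneous polynomials -/
theorem wh_eval {σ : Type} [Fintype σ] (w : σ → ℕ) {d : ℕ} {P : MvPolynomial σ ℂ}
    (hP : P.IsWeightedHomogeneous w d) (c : ℂ) (x : σ → ℂ) :
    eval (fun i => c ^ (w i) * x i) P = c ^ d * eval x P := by
  rw [MvPolynomial.eval_eq', MvPolynomial.eval_eq', Finset.mul_sum]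
  refine Finset.sum_congr rfl fun m hm => ?_
  have h1 : Finsupp.weight w m = d := hP (by rwa [MvPolynomial.mem_support_iff] at hm)
  have h2 : ∏ i, (c ^ (w i) * x i) ^ (m i) = c ^ d * ∏ i, x i ^ (m i) := by
    rw [← h1, Finsupp.weight_apply, Finsupp.sum_fintype _ _ (by simp)]
    simp only [mul_pow, Finset.prod_mul_distrib, ← pow_mul]
    rw [Finset.prod_pow_eq_pow_sum]
    congr 2
    refine Finset.sum_congr rfl fun i _ => ?_
    rw [smul_eq_mul, mul_comm]
  rw [h2]; ring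

/-- the inclusion of the span of `e₀, e₂, e₄` -/
def inc (v : Fin 3 → ℂ) : Fin 5 → ℂ := ![v 0, 0, v 1, 0, v 2]

theorem inc_ne {v : Fin 3 → ℂ} (hv : v ≠ 0) : inc v ≠ 0 := by
  intro h
  apply hv
  funext i
  have h0 := congrFun h 0
  have h2 := congrFun h 2
  have h4 := congrFun h 4
  simp only [inc] at h0 h2 h4
  fin_cases i
  · simpa using h0
  · simpa using h2
  · simpa using h4

theorem inc_smul (c : ℂ) (v : Fin 3 → ℂ) : inc (c • v) = c • inc v := by
  funext i; fin_cases i <;> simp [inc]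

open Classical in
/-- the point of `ℙ⁴` given by a vector in the span of `e₀, e₂, e₄` -/
noncomputable def pt (v : Fin 3 → ℂ) : P4 :=
  if h : v ≠ 0 then Projectivization.mk ℂ (inc v) (inc_ne h)
  else Projectivization.mk ℂ (inc (bv 0)) (inc_ne (bv_ne 0))

theorem pt_eq {v : Fin 3 → ℂ} (hv : v ≠ 0) : pt v = Projectivization.mk ℂ (inc v) (inc_ne hv) := by
  rw [pt, dif_pos hv]

theorem pt_smul (c : ℂ) (v : Fin 3 → ℂ) (hc : c ≠ 0) : pt (c • v) = pt v := by
  by_cases hv : v = 0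
  · subst hv; rw [smul_zero]
  · have hcv : c • v ≠ 0 := smul_ne_zero hc hv
    rw [pt_eq hv, pt_eq hcv]
    rw [Projectivization.mk_eq_mk_iff']
    exact ⟨c, by rw [inc_smul]⟩

open Classical in
/-- the torus element `diag (t, t⁻¹)` -/
noncomputable def tau (t : ℂ) : B2 ℂ := if h : t ≠ 0 then ⟨Units.mk0 t h, 0⟩ else 1

theorem tau_t {t : ℂ} (ht : t ≠ 0) : ((tau t).t : ℂ) = t := by
  rw [tau, dif_pos ht]; rfl

theorem tau_s {t : ℂ} (ht : t ≠ 0) : (tau t).s = 0 := by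
  rw [tau, dif_pos ht]

theorem tau_one : tau 1 = 1 := by
  ext
  · rw [tau_t one_ne_zero]; rfl
  · rw [tau_s one_ne_zero]; rfl

theorem tau_mul {s t : ℂ} (hs : s ≠ 0) (ht : t ≠ 0) : tau (s * t) = tau s * tau t := by
  ext
  · rw [tau_t (mul_ne_zero hs ht), B2.mul_t, Units.val_mul, tau_t hs, tau_t ht]
  · rw [tau_s (mul_ne_zero hs ht), B2.mul_s, tau_s hs, tau_s ht]; simp

theorem tau_rho {t : ℂ} (ht : t ≠ 0) (v : Fin 3 → ℂ) :
    (tau t).rho *ᵥ inc v = inc (tst t v) := by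
  rw [B2.rho, tau_t ht, tau_s ht, mul_zero]
  funext i
  rw [Matrix.mulVec, dotProduct, Fin.sum_univ_five]
  fin_cases i <;> simp [affMat, inc, tst, Nat.choose] <;> (left; ring)

theorem gAct_mk (g : B2 ℂ) (v : Fin 5 → ℂ) (hv : v ≠ 0) :
    gAct g (Projectivization.mk ℂ v hv) = Projectivization.mk ℂ (g.rho *ᵥ v) (rho_ne g hv) := by
  rw [gAct, Projectivization.mk_eq_mk_iff']
  obtain ⟨a, ha⟩ := Projectivization.exists_smul_eq_mk_rep ℂ v hv
  refine ⟨a, ?_⟩
  rw [← Matrix.mulVec_smul]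
  congr 1

theorem gAct_tau {t : ℂ} (ht : t ≠ 0) {v : Fin 3 → ℂ} (hv : v ≠ 0) :
    gAct (tau t) (pt v) = pt (tst t v) := by
  rw [pt_eq hv, pt_eq (tst_ne ht hv), gAct_mk]
  congr 1
  exact tau_rho ht v

/-- restriction of homogeneous polynomials to the plane -/
noncomputable def incP : MvPolynomial (Fin 5) ℂ →ₐ[ℂ] MvPolynomial (Fin 3) ℂ :=
  MvPolynomial.aeval ![X 0, 0, X 1, 0, X 2]

theorem eval_incP (v : Fin 3 → ℂ) (P : MvPolynomial (Fin 5) ℂ) :
    eval v (incP P) = eval (inc v) P := by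
  induction P using MvPolynomial.induction_on with
  | C c => simp [incP]
  | add p q hp hq => simp [hp, hq]
  | mul_X p i hp =>
    rw [map_mul, map_mul, map_mul, hp]
    congr 1
    fin_cases i <;> simp [incP, inc]

/-- restriction to `{t} × plane` -/
noncomputable def incG (t : ℂ) : MvPolynomial (Fin 2 ⊕ Fin 5) ℂ →ₐ[ℂ] MvPolynomial (Fin 3) ℂ :=
  MvPolynomial.aeval (Sum.elim ![C t, 0] ![X 0, 0, X 1, 0, X 2])

theorem eval_incG (t : ℂ) (v : Fin 3 → ℂ) (P : MvPolynomial (Fin 2 ⊕ Fin 5) ℂ) :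
    eval v (incG t P) = eval (Sum.elim ![t, 0] (inc v)) P := by
  induction P using MvPolynomial.induction_on with
  | C c => simp [incG]
  | add p q hp hq => simp [hp, hq]
  | mul_X p i hp =>
    rw [map_mul, map_mul, map_mul, hp]
    congr 1
    rcases i with i | i <;> fin_cases i <;> simp [incG, inc]

theorem rep_pt {v : Fin 3 → ℂ} (hv : v ≠ 0) : ∃ c : ℂ, c ≠ 0 ∧ (pt v).rep = c • inc v := by
  rw [pt_eq hv]
  obtain ⟨a, ha⟩ := Projectivization.exists_smul_eq_mk_rep ℂ (inc v) (inc_ne hv)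
  exact ⟨a, a.ne_zero, ha.symm⟩

theorem hom_eval_pt {d : ℕ} {P : MvPolynomial (Fin 5) ℂ} (hP : P.IsHomogeneous d)
    (c : ℂ) (x : Fin 5 → ℂ) : eval (c • x) P = c ^ d * eval x P := by
  have := wh_eval (1 : Fin 5 → ℕ) (P := P) (d := d) hP c x
  simpa [Pi.smul_def] using this

theorem evG_smul {d : ℕ} {P : MvPolynomial (Fin 2 ⊕ Fin 5) ℂ} (hP : P.IsWeightedHomogeneous wt d)
    (g : B2 ℂ) (c : ℂ) (x : Fin 5 → ℂ) : evG g (c • x) P = c ^ d * evG g x P := by
  have := wh_eval wt hP c (Sum.elim ![(g.t : ℂ), g.s] x)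
  rw [evG, evG, ← this]
  congr 2
  funext i
  rcases i with i | i <;> simp [wt]

theorem evG_tau {t : ℂ} (ht : t ≠ 0) (v : Fin 5 → ℂ) (P : MvPolynomial (Fin 2 ⊕ Fin 5) ℂ) :
    evG (tau t) v P = eval (Sum.elim ![t, 0] v) P := by
  rw [evG, tau_t ht, tau_s ht]

/-- charts on the punctured space -/
def cU (U : Set P4) : Set (Fin 3 → ℂ) := {v | v ≠ 0 ∧ pt v ∈ U}

theorem cU_open {U : Set P4} (hU : POpen U) : ZOp (cU U) := by
  rintro v ⟨hv, hvU⟩
  obtain ⟨d, h, hh, h1, h2⟩ := hU _ hvU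
  obtain ⟨i, hi⟩ := Function.ne_iff.mp hv
  obtain ⟨c, hc, hrep⟩ := rep_pt hv
  rw [hrep, hom_eval_pt hh] at h1
  refine ⟨X i * incP h, ?_, fun w hw => ?_⟩
  · rw [map_mul, eval_X, eval_incP]
    exact mul_ne_zero hi (right_ne_zero_of_mul h1)
  · rw [map_mul, eval_X, eval_incP] at hw
    have hw0 : w ≠ 0 := by
      rintro rfl; simp at hw
    obtain ⟨c', hc', hrep'⟩ := rep_pt hw0
    refine ⟨hw0, h2 _ ?_⟩
    rw [hrep', hom_eval_pt hh]
    exact mul_ne_zero (pow_ne_zero _ hc') (right_ne_zero_of_mul hw)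

/-- restriction of regular functions -/
theorem GReg.restrict {U V : Set P4} {f : B2 ℂ → P4 → ℂ}
    (hf : GReg {p | p.2 ∈ U ∧ gAct p.1 p.2 ∈ V} f) {t : ℂ} (ht : t ≠ 0) :
    RegOn (cU U ∩ {v | tst t v ∈ cU V}) (fun v => f (tau t) (pt v)) := by
  rintro v ⟨⟨hv, hvU⟩, htv, hvV⟩
  obtain ⟨d, P, Q, hP, hQ, h1, h2⟩ := hf (tau t, pt v) ⟨hvU, by
    change gAct (tau t) (pt v) ∈ V
    rw [gAct_tau ht hv]; exact hvV⟩
  simp only at h1 h2
  have key : ∀ w, w ≠ 0 → ∃ c : ℂ, c ≠ 0 ∧ (∀ R : MvPolynomial (Fin 2 ⊕ Fin 5) ℂ,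
      R.IsWeightedHomogeneous wt d →
      evG (tau t) (pt w).rep R = c ^ d * eval w (incG t R)) := by
    intro w hw
    obtain ⟨c, hc, hrep⟩ := rep_pt hw
    refine ⟨c, hc, fun R hR => ?_⟩
    rw [hrep, evG_smul hR, evG_tau ht, eval_incG]
  refine ⟨incG t P, incG t Q, ?_, ?_⟩
  · obtain ⟨c, hc, hk⟩ := key v hv
    rw [hk Q hQ] at h1
    exact right_ne_zero_of_mul h1
  · rintro w ⟨⟨hw, hwU⟩, htw, hwV⟩ hne
    obtain ⟨c, hc, hk⟩ := key w hw
    have hcd : c ^ d ≠ 0 := pow_ne_zero _ hc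
    have := h2 (tau t, pt w) ⟨hwU, by
      change gAct (tau t) (pt w) ∈ V
      rw [gAct_tau ht hw]; exact hwV⟩ (by
        simp only
        rw [hk Q hQ]; exact mul_ne_zero hcd hne)
    simp only at this
    change f (tau t) (pt w) = _
    rw [this, hk Q hQ, hk P hP, mul_div_mul_left _ _ hcd]

/-- one variable: along the torus -/
noncomputable def torP (x : Fin 5 → ℂ) : MvPolynomial (Fin 2 ⊕ Fin 5) ℂ →ₐ[ℂ] Polynomial ℂ :=
  MvPolynomial.aeval (Sum.elim ![Polynomial.X, 0] (fun i => Polynomial.C (x i)))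

theorem eval_torP (x : Fin 5 → ℂ) {t : ℂ} (ht : t ≠ 0) (P : MvPolynomial (Fin 2 ⊕ Fin 5) ℂ) :
    Polynomial.eval t (torP x P) = evG (tau t) x P := by
  rw [evG_tau ht]
  induction P using MvPolynomial.induction_on with
  | C c => simp [torP]
  | add p q hp hq => simp [hp, hq]
  | mul_X p i hp =>
    rw [map_mul, map_mul, Polynomial.eval_mul, hp]
    congr 1
    rcases i with i | i
    · fin_cases i <;> simp [torP]
    · simp [torP]

/-- a regular function along the torus at a fixed point is locally a rational function of `t` -/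
theorem GReg.torus {U : Set P4} {f : B2 ℂ → P4 → ℂ}
    (hf : GReg {p | p.2 ∈ U ∧ gAct p.1 p.2 ∈ U} f) (x : P4) (hx : x ∈ U)
    (hfix : ∀ t, t ≠ 0 → gAct (tau t) x = x) (t₀ : ℂ) (ht₀ : t₀ ≠ 0) :
    ∃ P Q : Polynomial ℂ, Q.eval t₀ ≠ 0 ∧ ∀ t, t ≠ 0 → Q.eval t ≠ 0 →
      f (tau t) x = P.eval t / Q.eval t := by
  have hmem : ∀ t, t ≠ 0 → (tau t, x) ∈ {p : B2 ℂ × P4 | p.2 ∈ U ∧ gAct p.1 p.2 ∈ U} := by
    intro t ht
    refine ⟨hx, ?_⟩
    change gAct (tau t) x ∈ U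
    rw [hfix t ht]; exact hx
  obtain ⟨d, P, Q, hP, hQ, h1, h2⟩ := hf (tau t₀, x) (hmem t₀ ht₀)
  refine ⟨torP x.rep P, torP x.rep Q, ?_, fun t ht hne => ?_⟩
  · rw [eval_torP _ ht₀]; exact h1
  · rw [eval_torP _ ht] at hne
    rw [eval_torP _ ht, eval_torP _ ht]
    exact h2 (tau t, x) (hmem t ht) hne

theorem pt_fix (j : Fin 3) (t : ℂ) (ht : t ≠ 0) : gAct (tau t) (pt (bv j)) = pt (bv j) := by
  rw [gAct_tau ht (bv_ne j), tst_bv, pt_smul _ _ (pow_ne_zero _ ht)]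

theorem EqBundle.diff (E : EqBundle) (j : Fin 3) (i i' : E.n) :
    DifferentiableAt ℂ (fun t => E.act (tau t) (pt (bv j)) i i') 1 := by
  obtain ⟨α, hα⟩ := E.U_cover (pt (bv j))
  set x := pt (bv j) with hx
  have hev : ∀ᶠ t : ℂ in nhds 1, t ≠ 0 := (isOpen_ne.mem_nhds one_ne_zero)
  let M : ℂ → Matrix E.n E.n ℂ := fun t => (E.frame α x)⁻¹ * E.act (tau t) x * E.frame α x
  have hM : ∀ a b, DifferentiableAt ℂ (fun t => M t a b) 1 := by
    intro a b
    obtain ⟨P, Q, h1, h2⟩ := (E.regular α α a b).torus x hα (fun t ht => pt_fix j t ht) 1 one_ne_zero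
    have h3 : DifferentiableAt ℂ (fun t => P.eval t / Q.eval t) 1 :=
      P.differentiableAt.div Q.differentiableAt h1
    refine h3.congr_of_eventuallyEq ?_
    have hc : ContinuousAt (fun t => Q.eval t) 1 := Q.continuous.continuousAt
    filter_upwards [hev, hc.eventually_ne h1] with t ht hQ
    have h5 : ((E.frame α (gAct (tau t) x))⁻¹ * E.act (tau t) x * E.frame α x) a b =
      P.eval t / Q.eval t := h2 t ht hQ
    have hfx : gAct (tau t) x = x := pt_fix j t ht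
    rw [hfx] at h5
    exact h5
  have hu := E.frame_unit α x hα
  have e : E.frame α x * (E.frame α x)⁻¹ = 1 := Matrix.mul_nonsing_inv _ hu
  have hA : ∀ t, E.act (tau t) x = E.frame α x * M t * (E.frame α x)⁻¹ := by
    intro t
    simp only [M]
    calc E.act (tau t) x = (1 : Matrix _ _ ℂ) * E.act (tau t) x * 1 := by
          rw [Matrix.one_mul, Matrix.mul_one]
      _ = _ := by rw [← e]; simp only [Matrix.mul_assoc]
  have h4 : (fun t => E.act (tau t) x i i') =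
      fun t => ∑ b, (∑ a, E.frame α x i a * M t a b) * (E.frame α x)⁻¹ b i' := by
    funext t
    rw [hA t, Matrix.mul_apply]
    simp only [Matrix.mul_apply]
  rw [h4]
  exact DifferentiableAt.fun_sum fun b _ =>
    (DifferentiableAt.fun_sum fun a _ => (hM a b).const_mul _).mul_const _

/-- the restriction of an equivariant bundle to the plane `ℙ⟨e₀, e₂, e₄⟩` and to the torus -/
noncomputable def EqBundle.toTB (E : EqBundle) : TB E.n where
  A t v := E.act (tau t) (pt v)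
  A_one v _ := by rw [tau_one, E.act_one]
  A_mul s t v hs ht hv := by rw [tau_mul hs ht, E.act_mul, gAct_tau ht hv]
  A_smul t c v hc := by rw [pt_smul c v hc]
  ι := E.ι
  U α := cU (E.U α)
  U_open α := cU_open (E.U_open α)
  U_ne α v hv := hv.1
  U_cov v hv := by
    obtain ⟨α, hα⟩ := E.U_cover (pt v)
    exact ⟨α, hv, hα⟩
  U_cone α v c hc hv := ⟨smul_ne_zero hc hv.1, by rw [pt_smul c v hc]; exact hv.2⟩
  Φ α v := E.frame α (pt v)
  Φ_smul α c v hc := by rw [pt_smul c v hc]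
  Φ_unit α v hv := E.frame_unit α _ hv.2
  reg t ht β α i j := by
    refine ((E.regular α β i j).restrict ht).congr fun v hv => ?_
    rw [gAct_tau ht hv.1.1]
  diff j i i' := E.diff j i i'

end H574R3.Fix
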