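import Pool.Agent.H574R3.Fix.Unit

open MvPolynomial

set_option linter.unusedSectionVars false

namespace H574R3.Fix

variable {σ : Type} [Finite σ]

theorem RegOn.mono {Ω Ω' : Set (σ → ℂ)} {f : (σ → ℂ) → ℂ} (h : RegOn Ω' f) (hs : Ω ⊆ Ω') :
    RegOn Ω f := by
  intro v hv
  obtain ⟨P, Q, hQ, he⟩ := h v (hs hv)
  exact ⟨P, Q, hQ, fun w hw => he w (hs hw)⟩

theorem RegOn.congr {Ω : Set (σ → ℂ)} {f g : (σ → ℂ) → ℂ} (h : RegOn Ω f)
    (hs : ∀ v ∈ Ω, g v = f v) : RegOn Ω g := by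
  intro v hv
  obtain ⟨P, Q, hQ, he⟩ := h v hv
  exact ⟨P, Q, hQ, fun w hw hw' => by rw [hs w hw, he w hw hw']⟩

theorem RegOn.mul {Ω : Set (σ → ℂ)} {f g : (σ → ℂ) → ℂ} (hf : RegOn Ω f) (hg : RegOn Ω g) :
    RegOn Ω (f * g) := by
  intro v hv
  obtain ⟨P, Q, hQ, he⟩ := hf v hv
  obtain ⟨P', Q', hQ', he'⟩ := hg v hv
  refine ⟨P * P', Q * Q', by simp [hQ, hQ'], fun w hw hw' => ?_⟩
  simp only [map_mul, ne_eq, mul_eq_zero, not_or] at hw' ⊢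
  rw [Pi.mul_apply, he w hw hw'.1, he' w hw hw'.2, div_mul_div_comm]

theorem RegOn.add {Ω : Set (σ → ℂ)} {f g : (σ → ℂ) → ℂ} (hf : RegOn Ω f) (hg : RegOn Ω g) :
    RegOn Ω (f + g) := by
  intro v hv
  obtain ⟨P, Q, hQ, he⟩ := hf v hv
  obtain ⟨P', Q', hQ', he'⟩ := hg v hv
  refine ⟨P * Q' + Q * P', Q * Q', by simp [hQ, hQ'], fun w hw hw' => ?_⟩
  simp only [map_mul, map_add, ne_eq, mul_eq_zero, not_or] at hw' ⊢
  rw [Pi.add_apply, he w hw hw'.1, he' w hw hw'.2, div_add_div _ _ hw'.1 hw'.2]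

theorem RegOn.const {Ω : Set (σ → ℂ)} (c : ℂ) : RegOn Ω (fun _ => c) := by
  intro v _
  exact ⟨C c, 1, by simp, fun w _ _ => by simp⟩

theorem RegOn.poly {Ω : Set (σ → ℂ)} (P : MvPolynomial σ ℂ) : RegOn Ω (fun v => eval v P) := by
  intro v _
  exact ⟨P, 1, by simp, fun w _ _ => by simp⟩

theorem RegOn.inv {Ω : Set (σ → ℂ)} {f : (σ → ℂ) → ℂ} (hf : RegOn Ω f)
    (h0 : ∀ v ∈ Ω, f v ≠ 0) : RegOn Ω (fun v => (f v)⁻¹) := by
  intro v hv
  obtain ⟨P, Q, hQ, he⟩ := hf v hv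
  have hP : eval v P ≠ 0 := by
    intro h
    exact h0 v hv (by rw [he v hv hQ, h, zero_div])
  refine ⟨Q * Q, P * Q, by simp [hP, hQ], fun w hw hw' => ?_⟩
  simp only [map_mul, ne_eq, mul_eq_zero, not_or] at hw' ⊢
  rw [he w hw hw'.2, inv_div, mul_div_mul_right _ _ hw'.2]

theorem RegOn.polyQuot {Ω : Set (σ → ℂ)} (P Q : MvPolynomial σ ℂ) (hQ : ∀ v ∈ Ω, eval v Q ≠ 0) :
    RegOn Ω (fun v => eval v P / eval v Q) := by
  intro v hv
  exact ⟨P, Q, hQ v hv, fun w _ _ => rfl⟩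

/-- regular functions on `Ω` as a subring -/
def regSub (Ω : Set (σ → ℂ)) : Subring ((σ → ℂ) → ℂ) where
  carrier := {f | RegOn Ω f}
  mul_mem' := fun h h' => h.mul h'
  one_mem' := RegOn.const 1
  add_mem' := fun h h' => h.add h'
  zero_mem' := RegOn.const 0
  neg_mem' := by
    intro f hf
    have := (RegOn.const (Ω := Ω) (-1)).mul hf
    refine this.congr fun v _ => ?_
    simp

/-- being regular is a local property. -/
theorem RegOn.of_local {Ω : Set (σ → ℂ)} {f : (σ → ℂ) → ℂ}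
    (h : ∀ v ∈ Ω, ∃ (Ω' : Set (σ → ℂ)) (g : (σ → ℂ) → ℂ), ZOp Ω' ∧ v ∈ Ω' ∧ RegOn Ω' g ∧
      ∀ w ∈ Ω', f w = g w) : RegOn Ω f := by
  intro v hv
  obtain ⟨Ω', g, hΩ', hv', hg, he⟩ := h v hv
  obtain ⟨k, hk, hk'⟩ := hΩ' v hv'
  obtain ⟨P, Q, hQ, he'⟩ := hg v hv'
  refine ⟨k * P, k * Q, by simp [hk, hQ], fun w _ hw' => ?_⟩
  simp only [map_mul, ne_eq, mul_eq_zero, not_or] at hw' ⊢
  rw [he w (hk' w hw'.1), he' w (hk' w hw'.1) hw'.2, mul_div_mul_left _ _ hw'.1]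

/-- composition with a diagonal map -/
noncomputable def dcomp (a : σ → ℂ) : MvPolynomial σ ℂ →ₐ[ℂ] MvPolynomial σ ℂ :=
  MvPolynomial.aeval (fun i => C (a i) * X i)

theorem eval_dcomp (a : σ → ℂ) (v : σ → ℂ) (P : MvPolynomial σ ℂ) :
    eval v (dcomp a P) = eval (fun i => a i * v i) P := by
  induction P using MvPolynomial.induction_on with
  | C c => simp [dcomp]
  | add p q hp hq => simp [hp, hq]
  | mul_X p i hp =>
    rw [map_mul, map_mul, map_mul, hp]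
    simp [dcomp]

theorem RegOn.dcomp {Ω : Set (σ → ℂ)} {f : (σ → ℂ) → ℂ} (hf : RegOn Ω f) (a : σ → ℂ) :
    RegOn {v | (fun i => a i * v i) ∈ Ω} (fun v => f (fun i => a i * v i)) := by
  intro v hv
  obtain ⟨P, Q, hQ, he⟩ := hf _ hv
  refine ⟨Fix.dcomp a P, Fix.dcomp a Q, by rwa [eval_dcomp], fun w hw hw' => ?_⟩
  rw [eval_dcomp] at hw'
  rw [eval_dcomp, eval_dcomp]
  exact he _ hw hw'

theorem ZOp.dcomp {Ω : Set (σ → ℂ)} (hf : ZOp Ω) (a : σ → ℂ) :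
    ZOp {v | (fun i => a i * v i) ∈ Ω} := by
  intro v hv
  obtain ⟨P, hP, he⟩ := hf _ hv
  refine ⟨Fix.dcomp a P, by rwa [eval_dcomp], fun w hw' => ?_⟩
  rw [eval_dcomp] at hw'
  exact he _ hw'

theorem ZOp.regNe {Ω : Set (σ → ℂ)} (hΩ : ZOp Ω) {f : (σ → ℂ) → ℂ} (hf : RegOn Ω f) :
    ZOp {v | v ∈ Ω ∧ f v ≠ 0} := by
  rintro v ⟨hv, hfv⟩
  obtain ⟨P, Q, hQ, he⟩ := hf v hv
  obtain ⟨k, hk, hk'⟩ := hΩ v hv
  have hP : eval v P ≠ 0 := by
    intro h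
    exact hfv (by rw [he v hv hQ, h, zero_div])
  refine ⟨k * P * Q, by simp [hP, hQ, hk], fun w hw' => ?_⟩
  simp only [map_mul, ne_eq, mul_eq_zero, not_or] at hw'
  refine ⟨hk' w hw'.1.1, ?_⟩
  rw [he w (hk' w hw'.1.1) hw'.2]
  exact div_ne_zero hw'.1.2 hw'.2

theorem det_mem {R : Type*} [CommRing R] (S : Subring R) {n : Type*} [Fintype n] [DecidableEq n]
    (M : Matrix n n R) (h : ∀ i j, M i j ∈ S) : M.det ∈ S := by
  rw [Matrix.det_apply]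
  refine S.sum_mem fun σ _ => ?_
  have : (∏ i, M (σ i) i) ∈ S := S.prod_mem fun i _ => h _ _
  rcases Int.units_eq_one_or (Equiv.Perm.sign σ) with h1 | h1
  · rw [h1]; simpa using this
  · rw [h1]; simpa using this

/-- determinant of a matrix of regular functions -/
theorem RegOn.det {Ω : Set (σ → ℂ)} {n : Type*} [Fintype n] [DecidableEq n]
    (M : (σ → ℂ) → Matrix n n ℂ) (h : ∀ i j, RegOn Ω (fun v => M v i j)) :
    RegOn Ω (fun v => (M v).det) := by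
  let M' : Matrix n n ((σ → ℂ) → ℂ) := fun i j v => M v i j
  have h1 : M'.det ∈ regSub Ω := det_mem _ _ (fun i j => h i j)
  refine RegOn.congr h1 fun v _ => ?_
  have := (RingHom.map_det (Pi.evalRingHom (fun _ : σ → ℂ => ℂ) v) M')
  simp only [Pi.evalRingHom_apply] at this
  rw [this]
  rfl

theorem RegOn.sum {Ω : Set (σ → ℂ)} {n : Type*} (s : Finset n)
    (f : n → (σ → ℂ) → ℂ) (h : ∀ i ∈ s, RegOn Ω (f i)) :
    RegOn Ω (fun v => ∑ i ∈ s, f i v) := by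
  have h1 : (∑ i ∈ s, f i) ∈ regSub Ω := Subring.sum_mem _ (fun i hi => h i hi)
  refine RegOn.congr h1 fun v _ => ?_
  rw [Finset.sum_apply]

theorem RegOn.matMul {Ω : Set (σ → ℂ)} {l m n : Type*} [Fintype m]
    (M : (σ → ℂ) → Matrix l m ℂ) (N : (σ → ℂ) → Matrix m n ℂ)
    (h : ∀ i j, RegOn Ω (fun v => M v i j)) (h' : ∀ i j, RegOn Ω (fun v => N v i j)) (i j) :
    RegOn Ω (fun v => (M v * N v) i j) := by
  have := RegOn.sum (Ω := Ω) Finset.univ (fun k v => M v i k * N v k j)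
    (fun k _ => (h i k).mul (h' k j))
  refine this.congr fun v _ => ?_
  rw [Matrix.mul_apply]

end H574R3.Fix
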