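import Pool.Agent.H574R3.Fix.Line
import Pool.Agent.H574R3.Fix.Lin

open MvPolynomial Matrix

set_option linter.unusedSectionVars false

namespace H574R3.Fix

/-- equivariant bundle on the projective plane, in coordinates on the punctured space. -/
structure TB (n : Type) [Fintype n] [DecidableEq n] where
  A : ℂ → (Fin 3 → ℂ) → Matrix n n ℂ
  A_one : ∀ v, v ≠ 0 → A 1 v = 1
  A_mul : ∀ s t v, s ≠ 0 → t ≠ 0 → v ≠ 0 → A (s * t) v = A s (tst t v) * A t v
  A_smul : ∀ t (c : ℂ) v, c ≠ 0 → A t (c • v) = A t v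
  ι : Type
  U : ι → Set (Fin 3 → ℂ)
  U_open : ∀ α, ZOp (U α)
  U_ne : ∀ α, ∀ v ∈ U α, v ≠ 0
  U_cov : ∀ v, v ≠ 0 → ∃ α, v ∈ U α
  U_cone : ∀ α v (c : ℂ), c ≠ 0 → v ∈ U α → c • v ∈ U α
  Φ : ι → (Fin 3 → ℂ) → Matrix n n ℂ
  Φ_smul : ∀ α (c : ℂ) v, c ≠ 0 → Φ α (c • v) = Φ α v
  Φ_unit : ∀ α, ∀ v ∈ U α, IsUnit (Φ α v).det
  reg : ∀ t, t ≠ 0 → ∀ β α i j, RegOn (U α ∩ {v | tst t v ∈ U β})
    (fun v => ((Φ β (tst t v))⁻¹ * A t v * Φ α v) i j)
  diff : ∀ j i i', DifferentiableAt ℂ (fun t => A t (bv j) i i') 1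

variable {n : Type} [Fintype n] [DecidableEq n]

/-- the infinitesimal generator at the `j`-th fixed point -/
noncomputable def TB.H (B : TB n) (j : Fin 3) : Matrix n n ℂ :=
  Matrix.of fun i i' => deriv (fun t => B.A t (bv j) i i') 1

theorem TB.projector (B : TB n) (Pi : (Fin 3 → ℂ) → Matrix n n ℂ)
    (hid : ∀ v, v ≠ 0 → Pi v * Pi v = Pi v)
    (hsm : ∀ (c : ℂ) v, c ≠ 0 → Pi (c • v) = Pi v)
    (hcomm : ∀ t v, t ≠ 0 → v ≠ 0 → B.A t v * Pi v = Pi (tst t v) * B.A t v)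
    (hreg : ∀ α i j, RegOn (B.U α) (fun v => ((B.Φ α v)⁻¹ * Pi v * B.Φ α v) i j)) :
    (Pi (bv 0) * B.H 0).trace - 2 * (Pi (bv 1) * B.H 1).trace + (Pi (bv 2) * B.H 2).trace = 0 := by
  classical
  -- constancy of the rank
  have htrace : ∀ α, ∀ v ∈ B.U α, (Pi v).trace = ((B.Φ α v)⁻¹ * Pi v * B.Φ α v).trace := by
    intro α v hv
    rw [Matrix.trace_mul_comm, ← Matrix.mul_assoc, Matrix.mul_nonsing_inv _ (B.Φ_unit α v hv),
      Matrix.one_mul]
  have hrreg : RegOn NZ (fun v => 1 + (Pi v).trace) := by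
    refine RegOn.of_local fun v hv => ?_
    obtain ⟨α, hα⟩ := B.U_cov v hv
    refine ⟨B.U α, (fun _ => 1) + fun v => ∑ i, ((B.Φ α v)⁻¹ * Pi v * B.Φ α v) i i,
      B.U_open α, hα, (RegOn.const 1).add (RegOn.sum _ _ fun i _ => hreg α i i), fun w hw => ?_⟩
    rw [htrace α w hw]; rfl
  have hr0 : ∀ v ∈ NZ, (fun v => 1 + (Pi v).trace) v ≠ 0 := by
    intro v hv
    simp only
    rw [trace_idem (hid v hv)]
    have h2 : (1 + Module.finrank ℂ (LinearMap.range (Matrix.toLin' (Pi v))) : ℕ) ≠ 0 := by omega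
    exact_mod_cast h2
  obtain ⟨k, hk⟩ : ∃ k : ℕ, k = Module.finrank ℂ (LinearMap.range (Matrix.toLin' (Pi (bv 0)))) :=
    ⟨_, rfl⟩
  have htr : ∀ v, v ≠ 0 → (Pi v).trace = k := by
    intro v hv
    have := unit_const hrreg hr0 v (bv 0) hv (bv_ne 0)
    simp only [add_right_inj] at this
    rw [this, trace_idem (hid _ (bv_ne 0)), hk]
  have hrk : ∀ v, v ≠ 0 → Module.finrank ℂ (LinearMap.range (Matrix.toLin' (Pi v))) = k := by
    intro v hv
    have h1 := htr v hv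
    rw [trace_idem (hid v hv)] at h1
    exact_mod_cast h1
  -- frames of the image
  let Q : (B.ι × Matrix n (Fin k) ℂ × Matrix (Fin k) n ℂ) → (Fin 3 → ℂ) → Matrix n (Fin k) ℂ :=
    fun a v => Pi v * B.Φ a.1 v * a.2.1
  let L : (B.ι × Matrix n (Fin k) ℂ × Matrix (Fin k) n ℂ) → (Fin 3 → ℂ) → Matrix (Fin k) n ℂ :=
    fun a v => a.2.2 * (B.Φ a.1 v)⁻¹
  let UU : (B.ι × Matrix n (Fin k) ℂ × Matrix (Fin k) n ℂ) → Set (Fin 3 → ℂ) :=
    fun a => {v | v ∈ B.U a.1 ∧ (L a v * Q a v).det ≠ 0}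
  have hQsm : ∀ a (c : ℂ) v, c ≠ 0 → Q a (c • v) = Q a v := by
    intro a c v hc; simp only [Q]; rw [hsm c v hc, B.Φ_smul _ c v hc]
  have hLsm : ∀ a (c : ℂ) v, c ≠ 0 → L a (c • v) = L a v := by
    intro a c v hc; simp only [L]; rw [B.Φ_smul _ c v hc]
  have hPQ : ∀ a v, v ≠ 0 → Pi v * Q a v = Q a v := by
    intro a v hv; simp only [Q]; rw [← Matrix.mul_assoc, ← Matrix.mul_assoc, hid v hv]
  -- regularity of L * A * Q
  have hLAQ : ∀ t, t ≠ 0 → ∀ b a i j, RegOn (B.U a.1 ∩ {v | tst t v ∈ B.U b.1})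
      (fun v => (L b (tst t v) * B.A t v * Q a v) i j) := by
    intro t ht b a i j
    have h1 := RegOn.matMul (Ω := B.U a.1 ∩ {v | tst t v ∈ B.U b.1}) (fun _ => b.2.2)
      (fun v => (B.Φ b.1 (tst t v))⁻¹ * B.A t v * B.Φ a.1 v)
      (fun i j => RegOn.const _) (fun i j => B.reg t ht b.1 a.1 i j)
    have h2 := RegOn.matMul (Ω := B.U a.1 ∩ {v | tst t v ∈ B.U b.1})
      (fun v => b.2.2 * ((B.Φ b.1 (tst t v))⁻¹ * B.A t v * B.Φ a.1 v))
      (fun v => (B.Φ a.1 v)⁻¹ * Pi v * B.Φ a.1 v) h1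
      (fun i j => (hreg a.1 i j).mono Set.inter_subset_left)
    have h3 := RegOn.matMul (Ω := B.U a.1 ∩ {v | tst t v ∈ B.U b.1})
      (fun v => b.2.2 * ((B.Φ b.1 (tst t v))⁻¹ * B.A t v * B.Φ a.1 v) *
        ((B.Φ a.1 v)⁻¹ * Pi v * B.Φ a.1 v))
      (fun _ => a.2.1) h2 (fun i j => RegOn.const _)
    refine (h3 i j).congr fun v hv => ?_
    have e : B.Φ a.1 v * (B.Φ a.1 v)⁻¹ = 1 := Matrix.mul_nonsing_inv _ (B.Φ_unit _ v hv.1)
    have : L b (tst t v) * B.A t v * Q a v =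
        b.2.2 * ((B.Φ b.1 (tst t v))⁻¹ * B.A t v * B.Φ a.1 v) *
        ((B.Φ a.1 v)⁻¹ * Pi v * B.Φ a.1 v) * a.2.1 := by
      simp only [L, Q]
      calc b.2.2 * (B.Φ b.1 (tst t v))⁻¹ * B.A t v * (Pi v * B.Φ a.1 v * a.2.1)
          = b.2.2 * (B.Φ b.1 (tst t v))⁻¹ * B.A t v * (1 * Pi v * B.Φ a.1 v * a.2.1) := by
            rw [Matrix.one_mul]
        _ = _ := by rw [← e]; simp only [Matrix.mul_assoc]
    rw [this]
  have hLQ : ∀ a i j, RegOn (B.U a.1) (fun v => (L a v * Q a v) i j) := by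
    intro a i j
    have := hLAQ 1 one_ne_zero a a i j
    refine (this.mono (Ω := B.U a.1) fun v hv => ⟨hv, ?_⟩).congr fun v hv => ?_
    · change tst 1 v ∈ B.U a.1; rwa [tst_one]
    · rw [tst_one, B.A_one v (B.U_ne _ v hv), Matrix.mul_one]
  have hLQdet : ∀ a, RegOn (B.U a.1) (fun v => (L a v * Q a v).det) := fun a =>
    RegOn.det _ (hLQ a)
  have hUUopen : ∀ a, ZOp (UU a) := fun a => (B.U_open a.1).regNe (hLQdet a)
  have hUUcov : ∀ v, v ≠ 0 → ∃ a, v ∈ UU a := by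
    intro v hv
    obtain ⟨α, hα⟩ := B.U_cov v hv
    have hu := B.Φ_unit α v hα
    have hid' : ((B.Φ α v)⁻¹ * Pi v * B.Φ α v) * ((B.Φ α v)⁻¹ * Pi v * B.Φ α v) =
        (B.Φ α v)⁻¹ * Pi v * B.Φ α v := by
      calc ((B.Φ α v)⁻¹ * Pi v * B.Φ α v) * ((B.Φ α v)⁻¹ * Pi v * B.Φ α v)
          = (B.Φ α v)⁻¹ * (Pi v * (B.Φ α v * (B.Φ α v)⁻¹) * Pi v) * B.Φ α v := by
            simp only [Matrix.mul_assoc]
        _ = _ := by
            rw [Matrix.mul_nonsing_inv _ hu, Matrix.mul_one, hid v hv]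
    have hrk' : Module.finrank ℂ (LinearMap.range
        (Matrix.toLin' ((B.Φ α v)⁻¹ * Pi v * B.Φ α v))) = k := by
      have h1 := trace_idem hid'
      rw [← htrace α v hα, htr v hv] at h1
      exact_mod_cast h1.symm
    obtain ⟨C, D, hCD⟩ := rank_factor hid' k hrk'
    refine ⟨(α, C, D), hα, ?_⟩
    have : L (α, C, D) v * Q (α, C, D) v = 1 := by
      rw [← hCD]; simp only [L, Q, Matrix.mul_assoc]
    rw [this, Matrix.det_one]; exact one_ne_zero
  -- transition matrices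
  let g : _ → _ → ℂ → (Fin 3 → ℂ) → Matrix (Fin k) (Fin k) ℂ := fun b a t v =>
    (L b (tst t v) * Q b (tst t v))⁻¹ * (L b (tst t v) * B.A t v * Q a v)
  have hgQ : ∀ t, t ≠ 0 → ∀ b a v, v ≠ 0 → tst t v ∈ UU b →
      Q b (tst t v) * g b a t v = B.A t v * Q a v := by
    intro t ht b a v hv hb
    have hw := tst_ne ht hv
    have h1 := frame_proj (hid _ hw) (htr _ hw) (Q b (tst t v)) (L b (tst t v))
      (isUnit_iff_ne_zero.mpr hb.2) (hPQ b _ hw)
    have h2 : Pi (tst t v) * (B.A t v * Q a v) = B.A t v * Q a v := by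
      rw [← Matrix.mul_assoc, ← hcomm t v ht hv, Matrix.mul_assoc, hPQ a v hv]
    calc Q b (tst t v) * g b a t v
        = Q b (tst t v) * (L b (tst t v) * Q b (tst t v))⁻¹ * L b (tst t v) *
          (B.A t v * Q a v) := by simp only [g, Matrix.mul_assoc]
      _ = Q b (tst t v) * (L b (tst t v) * Q b (tst t v))⁻¹ * L b (tst t v) * Pi (tst t v) *
          (B.A t v * Q a v) := by rw [Matrix.mul_assoc _ (Pi (tst t v)), h2]
      _ = _ := by rw [h1, h2]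
  have hgc : ∀ s t, s ≠ 0 → t ≠ 0 → ∀ a b c v, v ∈ UU a → tst t v ∈ UU b →
      tst (s * t) v ∈ UU c → g c b s (tst t v) * g b a t v = g c a (s * t) v := by
    intro s t hs ht a b c v ha hb hc
    have hv := B.U_ne _ v ha.1
    have h1 := hgQ t ht b a v hv hb
    calc g c b s (tst t v) * g b a t v
        = (L c (tst s (tst t v)) * Q c (tst s (tst t v)))⁻¹ * (L c (tst s (tst t v)) *
            B.A s (tst t v) * (Q b (tst t v) * g b a t v)) := by
          simp only [g, Matrix.mul_assoc]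
      _ = g c a (s * t) v := by
          rw [h1, tst_mul]
          simp only [g]
          rw [B.A_mul s t v hs ht hv]
          simp only [Matrix.mul_assoc]
  have hg1 : ∀ a v, v ∈ UU a → g a a 1 v = 1 := by
    intro a v ha
    have hv := B.U_ne _ v ha.1
    simp only [g]
    rw [tst_one, B.A_one v hv, Matrix.mul_one, Matrix.nonsing_inv_mul _ (isUnit_iff_ne_zero.mpr ha.2)]
  let I := {a : B.ι × Matrix n (Fin k) ℂ × Matrix (Fin k) n ℂ // (UU a).Nonempty}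
  have hN : ∀ j, ∃ α : I, bv j ∈ UU α.1 ∧
      HasDerivAt (fun t => (g α.1 α.1 t (bv j)).det) ((Pi (bv j) * B.H j).trace) 1 := by
    intro j
    obtain ⟨a, ha⟩ := hUUcov (bv j) (bv_ne j)
    refine ⟨⟨a, ⟨_, ha⟩⟩, ha, ?_⟩
    have hev : ∀ᶠ t : ℂ in nhds 1, t ≠ 0 := (isOpen_ne.mem_nhds one_ne_zero)
    set Λ := L a (bv j) with hΛ
    set Ψ := Q a (bv j) with hΨ
    have hu : IsUnit (Λ * Ψ).det := isUnit_iff_ne_zero.mpr ha.2
    let g0 : ℂ → Matrix (Fin k) (Fin k) ℂ := fun t => (Λ * Ψ)⁻¹ * Λ * B.A t (bv j) * Ψ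
    have hg0 : ∀ t, t ≠ 0 → g a a t (bv j) = g0 t := by
      intro t ht
      have htj : t ^ (4 * (j : ℕ)) ≠ 0 := pow_ne_zero _ ht
      simp only [g, g0]
      rw [tst_bv, hLsm a _ _ htj, hQsm a _ _ htj, ← hΛ, ← hΨ]
      simp only [Matrix.mul_assoc]
    have hder : ∀ i i', HasDerivAt (fun t => g0 t i i') (((Λ * Ψ)⁻¹ * Λ * B.H j * Ψ) i i') 1 := by
      intro i i'
      have h1 : ∀ x y, HasDerivAt (fun t => B.A t (bv j) x y) (B.H j x y) 1 := fun x y =>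
        (B.diff j x y).hasDerivAt
      have h2 : HasDerivAt (fun t => ∑ y, (∑ x, ((Λ * Ψ)⁻¹ * Λ) i x * B.A t (bv j) x y) * Ψ y i')
          (∑ y, (∑ x, ((Λ * Ψ)⁻¹ * Λ) i x * B.H j x y) * Ψ y i') 1 :=
        HasDerivAt.fun_sum fun y _ => (HasDerivAt.fun_sum fun x _ =>
          (h1 x y).const_mul _).mul_const _
      exact h2
    have h1 : g0 1 = 1 := by
      rw [← hg0 1 one_ne_zero, hg1 a _ ha]
    have h2 := hasDerivAt_det g0 _ hder h1
    have h3 : ((Λ * Ψ)⁻¹ * Λ * B.H j * Ψ).trace = (Pi (bv j) * B.H j).trace := by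
      have hH : B.H j * Pi (bv j) = Pi (bv j) * B.H j := by
        ext x y
        have e1 : HasDerivAt (fun t => (B.A t (bv j) * Pi (bv j)) x y)
            ((B.H j * Pi (bv j)) x y) 1 := by
          have : HasDerivAt (fun t => ∑ z, B.A t (bv j) x z * Pi (bv j) z y)
              (∑ z, B.H j x z * Pi (bv j) z y) 1 :=
            HasDerivAt.fun_sum fun z _ => ((B.diff j x z).hasDerivAt).mul_const _
          exact this
        have e2 : HasDerivAt (fun t => (Pi (bv j) * B.A t (bv j)) x y)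
            ((Pi (bv j) * B.H j) x y) 1 := by
          have : HasDerivAt (fun t => ∑ z, Pi (bv j) x z * B.A t (bv j) z y)
              (∑ z, Pi (bv j) x z * B.H j z y) 1 :=
            HasDerivAt.fun_sum fun z _ => ((B.diff j z y).hasDerivAt).const_mul _
          exact this
        refine e1.unique (e2.congr_of_eventuallyEq ?_)
        filter_upwards [hev] with t ht
        have htj : t ^ (4 * (j : ℕ)) ≠ 0 := pow_ne_zero _ ht
        rw [hcomm t _ ht (bv_ne j), tst_bv, hsm _ _ htj]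
      have hP := hid _ (bv_ne j)
      have hfr := frame_proj hP (htr _ (bv_ne j)) Ψ Λ hu (hPQ a _ (bv_ne j))
      calc ((Λ * Ψ)⁻¹ * Λ * B.H j * Ψ).trace
          = ((Λ * Ψ)⁻¹ * Λ * B.H j * (Pi (bv j) * Ψ)).trace := by rw [hPQ a _ (bv_ne j)]
        _ = ((Λ * Ψ)⁻¹ * Λ * (B.H j * Pi (bv j)) * Ψ).trace := by simp only [Matrix.mul_assoc]
        _ = (Ψ * ((Λ * Ψ)⁻¹ * Λ * (Pi (bv j) * B.H j))).trace := by
            rw [hH, Matrix.trace_mul_comm]
        _ = (Ψ * (Λ * Ψ)⁻¹ * Λ * Pi (bv j) * B.H j).trace := by simp only [Matrix.mul_assoc]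
        _ = _ := by rw [hfr]
    rw [h3] at h2
    refine h2.congr_of_eventuallyEq ?_
    filter_upwards [hev] with t ht
    rw [hg0 t ht]
  refine lineSystem (ι := I) (fun a => UU a.1) (fun a => hUUopen a.1) ?_
    (fun a v hv => B.U_ne _ v hv.1) (fun a => a.2) ?_ (fun b a t v => (g b.1 a.1 t v).det)
    ?_ ?_ ?_ ?_ (fun j => (Pi (bv j) * B.H j).trace) hN
  · intro v hv
    obtain ⟨a, ha⟩ := hUUcov v hv
    exact ⟨⟨a, ⟨v, ha⟩⟩, ha⟩
  · intro a v c hc hv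
    refine ⟨B.U_cone _ v c hc hv.1, ?_⟩
    rw [hLsm _ c v hc, hQsm _ c v hc]; exact hv.2
  · intro t ht b a
    have h1 : RegOn (UU a.1 ∩ {v | tst t v ∈ UU b.1})
        (fun v => (L b.1 (tst t v) * B.A t v * Q a.1 v).det) :=
      (RegOn.det _ (hLAQ t ht b.1 a.1)).mono fun v hv => ⟨hv.1.1, hv.2.1⟩
    have h2 : RegOn {v | tst t v ∈ UU b.1} (fun v => ((L b.1 (tst t v) * Q b.1 (tst t v)).det)⁻¹) := by
      have := ((hLQdet b.1).mono (Ω := UU b.1) fun v hv => hv.1).inv (fun v hv => hv.2)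
      exact this.dcomp (fun i => t ^ (4 * (i : ℕ)))
    refine ((h2.mono Set.inter_subset_right).mul h1).congr fun v hv => ?_
    simp only [g, Matrix.det_mul, Matrix.det_nonsing_inv, Ring.inverse_eq_inv', _root_.Pi.mul_apply]
  · intro t ht a b v ha hb
    have h1 := hgc t⁻¹ t (inv_ne_zero ht) ht a.1 b.1 a.1 v ha hb
      (by rw [inv_mul_cancel₀ ht, tst_one]; exact ha)
    rw [inv_mul_cancel₀ ht, hg1 a.1 v ha] at h1
    intro h0
    have := congrArg Matrix.det h1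
    rw [Matrix.det_mul, h0, mul_zero, Matrix.det_one] at this
    exact zero_ne_one this
  · intro s t hs ht a b c v ha hb hc
    rw [← Matrix.det_mul, hgc s t hs ht a.1 b.1 c.1 v ha hb hc]
  · intro t ht b a c v hc
    simp only [g]
    rw [tst_smul, hLsm _ c _ hc, hQsm _ c _ hc, hQsm _ c _ hc, B.A_smul t c v hc]

end H574R3.Fix
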