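import Pool.Agent.H574R3.Fix.Char

open MvPolynomial Matrix
open scoped LinearAlgebra.Projectivization Kronecker

namespace H574R3.Fix

theorem gAct_mul (g h : B2 ℂ) (x : P4) : gAct (g * h) x = gAct g (gAct h x) := by
  conv_lhs => rw [← x.mk_rep]
  conv_rhs => rw [← x.mk_rep]
  rw [gAct_mk, gAct_mk, gAct_mk]
  congr 1
  rw [B2.rho_mul, Matrix.mulVec_mulVec]

theorem coc_exists (g : B2 ℂ) (x : P4) :
    ∃ c : ℂ, c ≠ 0 ∧ g.rho *ᵥ x.rep = c • (gAct g x).rep := by
  obtain ⟨a, ha⟩ := Projectivization.exists_smul_eq_mk_rep ℂ (g.rho *ᵥ x.rep)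
    (rho_ne g x.rep_nonzero)
  refine ⟨((a⁻¹ : ℂˣ) : ℂ), (a⁻¹).ne_zero, ?_⟩
  rw [gAct, ← ha]
  change _ = ((a⁻¹ : ℂˣ) : ℂ) • ((a : ℂ) • (g.rho *ᵥ x.rep))
  rw [smul_smul, Units.inv_mul, one_smul]

/-- `g · (chosen vector of x) = coc g x · (chosen vector of g x)` -/
noncomputable def coc (g : B2 ℂ) (x : P4) : ℂ := (coc_exists g x).choose

theorem coc_ne (g : B2 ℂ) (x : P4) : coc g x ≠ 0 := (coc_exists g x).choose_spec.1

theorem coc_spec (g : B2 ℂ) (x : P4) : g.rho *ᵥ x.rep = coc g x • (gAct g x).rep :=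
  (coc_exists g x).choose_spec.2

theorem smul_rep_inj (x : P4) {c c' : ℂ} (h : c • x.rep = c' • x.rep) : c = c' :=
  smul_left_injective ℂ x.rep_nonzero h

/-- the tautological line bundle `𝒪(-1)` -/
noncomputable def tautBundle : EqBundle where
  n := Unit
  act g x := coc g x • 1
  act_one x := by
    have h := coc_spec 1 x
    rw [B2.rho_one, Matrix.one_mulVec, gAct_one] at h
    have : (1 : ℂ) = coc 1 x := smul_rep_inj x (by rw [one_smul]; exact h)
    rw [← this, one_smul]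
  act_mul g h x := by
    have h1 := coc_spec (g * h) x
    have h2 := coc_spec h x
    have h3 := coc_spec g (gAct h x)
    rw [B2.rho_mul, ← Matrix.mulVec_mulVec, h2, Matrix.mulVec_smul, h3, gAct_mul,
      smul_smul] at h1
    have := smul_rep_inj _ h1
    rw [Matrix.smul_mul, Matrix.one_mul, smul_smul, ← this, mul_comm]
  ι := Fin 5
  U m := {x | x.rep m ≠ 0}
  U_open m := by
    intro x hx
    exact ⟨1, X m, isHomogeneous_X _ _, by simpa using hx, fun y hy => by simpa using hy⟩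
  U_cover x := by
    obtain ⟨m, hm⟩ := Function.ne_iff.mp x.rep_nonzero
    exact ⟨m, hm⟩
  frame m x := (x.rep m)⁻¹ • 1
  frame_unit m x hx := by
    rw [isUnit_iff_ne_zero]
    simp only [Matrix.det_smul, Matrix.det_one, mul_one, Fintype.card_unit, pow_one]
    exact inv_ne_zero hx
  regular α β i j := by
    rintro ⟨g₀, x₀⟩ ⟨hx₀, _⟩
    let P : MvPolynomial (Fin 2 ⊕ Fin 5) ℂ := ∑ k, affMat ((X (Sum.inl 0)) ^ 2)
      (X (Sum.inl 0) * X (Sum.inl 1)) β k * X (Sum.inr k)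
    refine ⟨1, P, X (Sum.inr α), ?_, isWeightedHomogeneous_X _ _ _, ?_, ?_⟩
    · refine IsWeightedHomogeneous.sum _ _ _ fun k _ => ?_
      have h0 : IsWeightedHomogeneous wt (affMat ((X (Sum.inl 0)) ^ 2 :
          MvPolynomial (Fin 2 ⊕ Fin 5) ℂ) (X (Sum.inl 0) * X (Sum.inl 1)) β k) 0 := by
        have e1 : IsWeightedHomogeneous wt (X (Sum.inl 0) : MvPolynomial (Fin 2 ⊕ Fin 5) ℂ) 0 :=
          isWeightedHomogeneous_X _ _ _
        have e2 : IsWeightedHomogeneous wt (X (Sum.inl 1) : MvPolynomial (Fin 2 ⊕ Fin 5) ℂ) 0 :=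
          isWeightedHomogeneous_X _ _ _
        have e3 : IsWeightedHomogeneous wt ((Nat.choose β k : ℕ) :
            MvPolynomial (Fin 2 ⊕ Fin 5) ℂ) 0 := by
          rw [← map_natCast C]; exact isWeightedHomogeneous_C _ _
        have := (e3.mul ((e1.pow 2).pow (k : ℕ))).mul ((e1.mul e2).pow ((β : ℕ) - (k : ℕ)))
        simpa [affMat] using this
      have h1 : IsWeightedHomogeneous wt (X (Sum.inr k) : MvPolynomial (Fin 2 ⊕ Fin 5) ℂ) 1 :=
        isWeightedHomogeneous_X _ _ _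
      simpa using h0.mul h1
    · simpa [evG] using hx₀
    · rintro ⟨g, x⟩ ⟨hx, hgx⟩ _
      have hP : evG g x.rep P = (g.rho *ᵥ x.rep) β := by
        simp only [P, evG, map_sum, map_mul, eval_X, Sum.elim_inr]
        rw [Matrix.mulVec, dotProduct]
        refine Finset.sum_congr rfl fun k _ => ?_
        congr 1
        have := affMat_map (eval (Sum.elim ![(g.t : ℂ), g.s] x.rep))
          ((X (Sum.inl 0)) ^ 2) (X (Sum.inl 0) * X (Sum.inl 1))
        have h2 := congrFun (congrFun this β) k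
        rw [Matrix.map_apply] at h2
        rw [← h2, B2.rho]
        simp
      simp only
      rw [hP, coc_spec]
      have hg : (gAct g x).rep β ≠ 0 := hgx
      have hinv : (((gAct g x).rep β)⁻¹ • (1 : Matrix Unit Unit ℂ))⁻¹ =
          ((gAct g x).rep β) • (1 : Matrix Unit Unit ℂ) := by
        apply Matrix.inv_eq_left_inv
        rw [Matrix.smul_mul, Matrix.one_mul, smul_smul, mul_inv_cancel₀ hg, one_smul]
      rw [hinv]
      have : evG g x.rep (X (Sum.inr α)) = x.rep α := by simp [evG]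
      rw [this]
      simp only [Matrix.smul_mul, Matrix.one_mul, Matrix.smul_apply, smul_eq_mul, smul_smul,
        Pi.smul_apply, Matrix.one_apply, if_true]
      rw [div_eq_mul_inv]
      ring

theorem chr_taut (j : Fin 3) : chr j tautBundle = LaurentPolynomial.T (4 * (j : ℕ)) := by
  apply evL_inj
  intro u
  rw [chr_spec]
  have h1 : evL u (LaurentPolynomial.T (4 * (j : ℕ))) = (u : ℂ) ^ (4 * (j : ℕ)) := by
    have := evL_C_mul_T u 1 ((4 * (j : ℕ) : ℕ) : ℤ)
    rw [zpow_natCast, Units.val_pow_eq_pow_val] at this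
    simpa using this
  rw [h1]
  change (coc (tau u) (pt (bv j)) • (1 : Matrix Unit Unit ℂ)).trace = _
  have h2 : coc (tau u) (pt (bv j)) = (u : ℂ) ^ (4 * (j : ℕ)) := by
    have h3 := coc_spec (tau u) (pt (bv j))
    rw [pt_fix j u u.ne_zero] at h3
    obtain ⟨c, hc, hrep⟩ := rep_pt (bv_ne j)
    apply smul_rep_inj (pt (bv j))
    rw [← h3, hrep, Matrix.mulVec_smul, tau_rho u.ne_zero, tst_bv, inc_smul, smul_comm]
  rw [h2]
  simp

theorem rho_ne_rho {j k : Fin 3} (h : j ≠ k) : rhoK j ≠ rhoK k := by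
  intro he
  have h1 := congrArg (fun φ : KRing →ₐ[ℂ] LaurentPolynomial ℂ => evL (Units.mk0 2 two_ne_zero)
    (φ (KRing.cls tautBundle))) he
  simp only [rhoK_cls, chr_taut] at h1
  have h2 : ∀ l : Fin 3, evL (Units.mk0 2 two_ne_zero) (LaurentPolynomial.T (4 * (l : ℕ))) =
      ((2 ^ (4 * (l : ℕ)) : ℕ) : ℂ) := by
    intro l
    have := evL_C_mul_T (Units.mk0 2 two_ne_zero) 1 ((4 * (l : ℕ) : ℕ) : ℤ)
    rw [zpow_natCast, Units.val_pow_eq_pow_val] at this
    simpa using this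
  rw [h2, h2] at h1
  have h3 : 2 ^ (4 * (j : ℕ)) = 2 ^ (4 * (k : ℕ)) := by exact_mod_cast h1
  have h4 := Nat.pow_right_injective (le_refl 2) h3
  apply h
  apply Fin.ext
  have : 4 * (j : ℕ) = 4 * (k : ℕ) := h4
  omega

end H574R3.Fix
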