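import Mathlib

open MvPolynomial

set_option linter.unusedSectionVars false

namespace H574R3.Fix

variable {σ : Type} [Finite σ]

/-- Zariski open subset of affine space. -/
def ZOp (Ω : Set (σ → ℂ)) : Prop :=
  ∀ v ∈ Ω, ∃ h : MvPolynomial σ ℂ, eval v h ≠ 0 ∧ ∀ w, eval w h ≠ 0 → w ∈ Ω

/-- Regular function on an open subset of affine space. -/
def RegOn (Ω : Set (σ → ℂ)) (f : (σ → ℂ) → ℂ) : Prop :=
  ∀ v ∈ Ω, ∃ P Q : MvPolynomial σ ℂ, eval v Q ≠ 0 ∧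
    ∀ w ∈ Ω, eval w Q ≠ 0 → f w = eval w P / eval w Q

theorem ZOp.inter {Ω Ω' : Set (σ → ℂ)} (h : ZOp Ω) (h' : ZOp Ω') : ZOp (Ω ∩ Ω') := by
  rintro v ⟨hv, hv'⟩
  obtain ⟨f, hf, hf'⟩ := h v hv
  obtain ⟨g, hg, hg'⟩ := h' v hv'
  refine ⟨f * g, by simp [hf, hg], fun w hw => ?_⟩
  simp only [map_mul, ne_eq, mul_eq_zero, not_or] at hw
  exact ⟨hf' w hw.1, hg' w hw.2⟩

/-- Two nonempty opens meet, in polynomial form. -/
theorem exists_common {f g : MvPolynomial σ ℂ} (hf : f ≠ 0) (hg : g ≠ 0) :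
    ∃ v, eval v f ≠ 0 ∧ eval v g ≠ 0 := by
  by_contra hcon
  push Not at hcon
  have : f * g = 0 := by
    apply MvPolynomial.funext
    intro v
    by_cases h : eval v f = 0
    · simp [h]
    · simp [hcon v h]
  rcases mul_eq_zero.mp this with h | h
  · exact hf h
  · exact hg h

theorem ne_zero_of_eval {f : MvPolynomial σ ℂ} {v : σ → ℂ} (h : eval v f ≠ 0) : f ≠ 0 := by
  rintro rfl; simp at h

/-- if `P = Q` wherever `h ≠ 0`, then `P = Q`. -/
theorem eq_of_eval {P Q h : MvPolynomial σ ℂ} (hh : h ≠ 0)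
    (H : ∀ v, eval v h ≠ 0 → eval v P = eval v Q) : P = Q := by
  have : (P - Q) * h = 0 := by
    apply MvPolynomial.funext
    intro v
    by_cases h0 : eval v h = 0
    · simp [h0]
    · simp [H v h0]
  rcases mul_eq_zero.mp this with h | h
  · exact sub_eq_zero.mp h
  · exact absurd h hh

/-- Nullstellensatz for an irreducible polynomial. -/
theorem exists_zero_of_not_dvd {p f : MvPolynomial σ ℂ} (hp : Prime p) (hf : ¬ p ∣ f) :
    ∃ v, eval v p = 0 ∧ eval v f ≠ 0 := by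
  by_contra hcon
  push Not at hcon
  apply hf
  have hI : (Ideal.span {p} : Ideal (MvPolynomial σ ℂ)).IsPrime :=
    (Ideal.span_singleton_prime hp.ne_zero).mpr hp
  rw [← Ideal.mem_span_singleton]
  rw [← MvPolynomial.IsPrime.vanishingIdeal_zeroLocus (k := ℂ) (K := ℂ) (Ideal.span {p})]
  rw [MvPolynomial.mem_vanishingIdeal_iff]
  intro x hx
  have hx' : eval x p = 0 := by
    have := (MvPolynomial.mem_zeroLocus_iff.mp hx) p (Ideal.mem_span_singleton_self p)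
    simpa using this
  simpa using hcon x hx'

/-- `q` is a unit of the local ring at `v`. -/
def UnitAt (v : σ → ℂ) (q : FractionRing (MvPolynomial σ ℂ)) : Prop :=
  ∃ P Q : MvPolynomial σ ℂ, eval v P ≠ 0 ∧ eval v Q ≠ 0 ∧
    q = algebraMap _ (FractionRing (MvPolynomial σ ℂ)) P / algebraMap _ _ Q

theorem UnitAt.mul {v : σ → ℂ} {q q'} (h : UnitAt v q) (h' : UnitAt v q') :
    UnitAt v (q * q') := by
  obtain ⟨P, Q, hP, hQ, rfl⟩ := h
  obtain ⟨P', Q', hP', hQ', rfl⟩ := h'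
  refine ⟨P * P', Q * Q', by simp [hP, hP'], by simp [hQ, hQ'], ?_⟩
  rw [map_mul, map_mul, div_mul_div_comm]

theorem UnitAt.inv {v : σ → ℂ} {q} (h : UnitAt v q) : UnitAt v q⁻¹ := by
  obtain ⟨P, Q, hP, hQ, rfl⟩ := h
  exact ⟨Q, P, hQ, hP, by rw [inv_div]⟩

theorem UnitAt.div {v : σ → ℂ} {q q'} (h : UnitAt v q) (h' : UnitAt v q') :
    UnitAt v (q / q') := by
  rw [div_eq_mul_inv]; exact h.mul h'.inv

theorem UnitAt.ne_zero {v : σ → ℂ} {q} (h : UnitAt v q) : q ≠ 0 := by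
  obtain ⟨P, Q, hP, hQ, rfl⟩ := h
  have h1 : algebraMap _ (FractionRing (MvPolynomial σ ℂ)) P ≠ 0 := by
    simpa using ne_zero_of_eval hP
  have h2 : algebraMap _ (FractionRing (MvPolynomial σ ℂ)) Q ≠ 0 := by
    simpa using ne_zero_of_eval hQ
  exact div_ne_zero h1 h2

theorem UnitAt.of_poly {v : σ → ℂ} {P : MvPolynomial σ ℂ} (h : eval v P ≠ 0) :
    UnitAt v (algebraMap _ (FractionRing (MvPolynomial σ ℂ)) P) :=
  ⟨P, 1, h, by simp, by simp⟩

/-- reduced representation of a unit at `v` does not vanish at `v`. -/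
theorem UnitAt.reduced {v : σ → ℂ} {P Q : MvPolynomial σ ℂ} (hPQ : IsRelPrime P Q) (_hP : P ≠ 0)
    (hQ : Q ≠ 0)
    (h : UnitAt v (algebraMap _ (FractionRing (MvPolynomial σ ℂ)) P / algebraMap _ _ Q)) :
    eval v P ≠ 0 ∧ eval v Q ≠ 0 := by
  obtain ⟨P', Q', hP', hQ', he⟩ := h
  have h1 : algebraMap _ (FractionRing (MvPolynomial σ ℂ)) Q' ≠ 0 := by
    simpa using ne_zero_of_eval hQ'
  have h2 : algebraMap _ (FractionRing (MvPolynomial σ ℂ)) Q ≠ 0 := by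
    simpa using hQ
  rw [div_eq_div_iff h2 h1, ← map_mul, ← map_mul] at he
  have he' : P * Q' = P' * Q :=
    IsFractionRing.injective (MvPolynomial σ ℂ) (FractionRing (MvPolynomial σ ℂ)) he
  have d1 : P ∣ P' := hPQ.dvd_of_dvd_mul_right (Dvd.intro _ he')
  have d2 : Q ∣ Q' := hPQ.symm.dvd_of_dvd_mul_left (Dvd.intro_left _ he'.symm)
  refine ⟨fun h0 => hP' ?_, fun h0 => hQ' ?_⟩
  · obtain ⟨c, rfl⟩ := d1; simp [h0]
  · obtain ⟨c, rfl⟩ := d2; simp [h0]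

theorem exists_reduced (q : FractionRing (MvPolynomial σ ℂ)) (hq : q ≠ 0) :
    ∃ P Q : MvPolynomial σ ℂ, IsRelPrime P Q ∧ P ≠ 0 ∧ Q ≠ 0 ∧
      q = algebraMap _ (FractionRing (MvPolynomial σ ℂ)) P / algebraMap _ _ Q := by
  obtain ⟨a, b, hb, rfl⟩ := IsFractionRing.div_surjective (A := MvPolynomial σ ℂ) q
  have hb0 : b ≠ 0 := nonZeroDivisors.ne_zero hb
  obtain ⟨a', b', c', h1, h2, h3⟩ := UniqueFactorizationMonoid.exists_reduced_factors' a b hb0
  have hc : c' ≠ 0 := by rintro rfl; simp at h3; exact hb0 h3.symm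
  have hb' : b' ≠ 0 := by rintro rfl; simp at h3; exact hb0 h3.symm
  have hc' : algebraMap _ (FractionRing (MvPolynomial σ ℂ)) c' ≠ 0 := by simpa using hc
  refine ⟨a', b', h1, ?_, hb', ?_⟩
  · rintro rfl
    apply hq
    rw [← h2]; simp
  · rw [← h2, ← h3, map_mul, map_mul, mul_div_mul_left _ _ hc']

/-- A nonvanishing regular function on a nonempty open is a quotient of two polynomials which
do not vanish there. -/
theorem globalRep {Ω : Set (σ → ℂ)} (hΩ : ZOp Ω) (hne : Ω.Nonempty) {f : (σ → ℂ) → ℂ}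
    (hf : RegOn Ω f) (hf0 : ∀ v ∈ Ω, f v ≠ 0) :
    ∃ P Q : MvPolynomial σ ℂ, IsRelPrime P Q ∧
      ∀ v ∈ Ω, eval v P ≠ 0 ∧ eval v Q ≠ 0 ∧ f v = eval v P / eval v Q := by
  obtain ⟨v₀, hv₀⟩ := hne
  obtain ⟨h₀, hh₀, hΩ₀⟩ := hΩ v₀ hv₀
  obtain ⟨P₀, Q₀, hQ₀, hf₀⟩ := hf v₀ hv₀
  have hh₀' := ne_zero_of_eval hh₀
  have hQ₀' := ne_zero_of_eval hQ₀
  obtain ⟨P, Q, c, h1, h2, h3⟩ := UniqueFactorizationMonoid.exists_reduced_factors' P₀ Q₀ hQ₀'
  have hc : c ≠ 0 := by rintro rfl; simp at h3; exact hQ₀' h3.symm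
  refine ⟨P, Q, h1, fun v hv => ?_⟩
  obtain ⟨P', Q', hQ', hf'⟩ := hf v hv
  have key : P₀ * Q' = P' * Q₀ := by
    refine eq_of_eval (h := h₀ * Q₀ * Q')
      (mul_ne_zero (mul_ne_zero hh₀' hQ₀') (ne_zero_of_eval hQ')) fun w hw => ?_
    simp only [map_mul, ne_eq, mul_eq_zero, not_or] at hw
    have e1 := hf₀ w (hΩ₀ w hw.1.1) hw.1.2
    have e2 := hf' w (hΩ₀ w hw.1.1) hw.2
    rw [e1, div_eq_div_iff hw.1.2 hw.2] at e2
    simpa using e2
  have key' : P * Q' = P' * Q := by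
    apply mul_left_cancel₀ hc
    rw [← mul_assoc, h2, key, ← h3]; ring
  have d2 : Q ∣ Q' := h1.symm.dvd_of_dvd_mul_left (Dvd.intro_left _ key'.symm)
  have hQv : eval v Q ≠ 0 := by
    intro h0; obtain ⟨c, rfl⟩ := d2; simp [h0] at hQ'
  have hfv : f v = eval v P / eval v Q := by
    rw [hf' v hv hQ', div_eq_div_iff hQ' hQv]
    have := congrArg (eval v) key'
    simpa using this.symm
  refine ⟨fun h0 => hf0 v hv ?_, hQv, hfv⟩
  rw [hfv, h0, zero_div]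

/-- A prime factor cannot vanish on both of two opens if it does not vanish on the intersection -/
theorem prime_split {Ω Ω' : Set (σ → ℂ)} (h : ZOp Ω) (h' : ZOp Ω') {p : MvPolynomial σ ℂ}
    (hp : Prime p) (hn : ∀ v ∈ Ω ∩ Ω', eval v p ≠ 0) :
    (∀ v ∈ Ω, eval v p ≠ 0) ∨ (∀ v ∈ Ω', eval v p ≠ 0) := by
  by_contra hcon
  push Not at hcon
  obtain ⟨⟨v, hv, hpv⟩, ⟨w, hw, hpw⟩⟩ := hcon
  obtain ⟨f, hf, hf'⟩ := h v hv
  obtain ⟨g, hg, hg'⟩ := h' w hw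
  have h1 : ¬ p ∣ f := by rintro ⟨c, rfl⟩; simp [hpv] at hf
  have h2 : ¬ p ∣ g := by rintro ⟨c, rfl⟩; simp [hpw] at hg
  have h3 : ¬ p ∣ f * g := fun hd => (hp.dvd_or_dvd hd).elim h1 h2
  obtain ⟨u, hu, hu'⟩ := exists_zero_of_not_dvd hp h3
  simp only [map_mul, ne_eq, mul_eq_zero, not_or] at hu'
  exact hn u ⟨hf' u hu'.1, hg' u hu'.2⟩ hu

theorem poly_split {Ω Ω' : Set (σ → ℂ)} (h : ZOp Ω) (h' : ZOp Ω') (P : MvPolynomial σ ℂ)
    (hP0 : P ≠ 0) (hn : ∀ v ∈ Ω ∩ Ω', eval v P ≠ 0) :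
    ∃ P₁ P₂, P = P₁ * P₂ ∧ (∀ v ∈ Ω, eval v P₁ ≠ 0) ∧ (∀ v ∈ Ω', eval v P₂ ≠ 0) := by
  induction P using UniqueFactorizationMonoid.induction_on_prime with
  | h₁ => exact absurd rfl hP0
  | h₂ x hx =>
    refine ⟨x, 1, by simp, fun v _ => ?_, fun v _ => by simp⟩
    exact (hx.map (eval v)).ne_zero
  | h₃ a p ha hp ih =>
    have hna : ∀ v ∈ Ω ∩ Ω', eval v a ≠ 0 := fun v hv h0 => hn v hv (by simp [h0])
    have hnp : ∀ v ∈ Ω ∩ Ω', eval v p ≠ 0 := fun v hv h0 => hn v hv (by simp [h0])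
    obtain ⟨P₁, P₂, rfl, h1, h2⟩ := ih ha hna
    rcases prime_split h h' hp hnp with hc | hc
    · refine ⟨p * P₁, P₂, by ring, fun v hv => ?_, h2⟩
      rw [map_mul]; exact mul_ne_zero (hc v hv) (h1 v hv)
    · refine ⟨P₁, p * P₂, by ring, h1, fun v hv => ?_⟩
      rw [map_mul]; exact mul_ne_zero (hc v hv) (h2 v hv)

theorem aux_field {K : Type*} [Field K] (H p1 p2 q1 q2 : K) (hH : H ≠ 0) (h2 : p2 ≠ 0)
    (h3 : q1 ≠ 0) (h4 : q2 ≠ 0) :
    H * (p1 * p2 / (q1 * q2)) / (H * (p2 / q2)) = p1 / q1 := by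
  field_simp

/-- Line bundles on open subsets of affine space are trivial. -/
theorem trivialize {ι : Type} (U : ι → Set (σ → ℂ)) (hU : ∀ α, ZOp (U α))
    (c : ι → ι → (σ → ℂ) → ℂ) (hc : ∀ β α, RegOn (U α ∩ U β) (c β α))
    (hc0 : ∀ β α, ∀ v ∈ U α ∩ U β, c β α v ≠ 0)
    (hcc : ∀ α β γ, ∀ v ∈ U α, v ∈ U β → v ∈ U γ → c γ β v * c β α v = c γ α v)
    (hne : ∀ α, (U α).Nonempty) :
    ∃ P Q : ι → MvPolynomial σ ℂ, (∀ α, ∀ v ∈ U α, eval v (P α) ≠ 0 ∧ eval v (Q α) ≠ 0) ∧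
      ∀ α β, ∀ v ∈ U α, v ∈ U β →
        c β α v * (eval v (P α) / eval v (Q α)) = eval v (P β) / eval v (Q β) := by
  classical
  rcases isEmpty_or_nonempty ι with hι | ⟨⟨α₀⟩⟩
  · exact ⟨isEmptyElim, isEmptyElim, isEmptyElim, isEmptyElim⟩
  -- nonempty intersections
  have hopen : ∀ α, ∃ h : MvPolynomial σ ℂ, h ≠ 0 ∧ ∀ w, eval w h ≠ 0 → w ∈ U α := by
    intro α
    obtain ⟨v, hv⟩ := hne α
    obtain ⟨h, hh, hh'⟩ := hU α v hv
    exact ⟨h, ne_zero_of_eval hh, hh'⟩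
  choose o ho ho' using hopen
  have hint : ∀ α β, (U α ∩ U β).Nonempty := by
    intro α β
    obtain ⟨v, h1, h2⟩ := exists_common (ho α) (ho β)
    exact ⟨v, ho' α v h1, ho' β v h2⟩
  have hrep := fun β α => globalRep ((hU α).inter (hU β)) (hint α β) (hc β α) (hc0 β α)
  choose N M hrel hNM using hrep
  let K := FractionRing (MvPolynomial σ ℂ)
  let am := algebraMap (MvPolynomial σ ℂ) K
  have am_inj : Function.Injective am := IsFractionRing.injective (MvPolynomial σ ℂ) K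
  have am0 : ∀ {f : MvPolynomial σ ℂ}, f ≠ 0 → am f ≠ 0 := by
    intro f hf h0
    exact hf (am_inj (by rw [h0, map_zero]))
  have hN0 : ∀ β α, N β α ≠ 0 := fun β α => by
    obtain ⟨v, hv⟩ := hint α β
    exact ne_zero_of_eval (hNM β α v hv).1
  have hM0 : ∀ β α, M β α ≠ 0 := fun β α => by
    obtain ⟨v, hv⟩ := hint α β
    exact ne_zero_of_eval (hNM β α v hv).2.1
  let h : ι → K := fun β => am (N β α₀) / am (M β α₀)
  have h0 : ∀ β, h β ≠ 0 := fun β => div_ne_zero (am0 (hN0 _ _)) (am0 (hM0 _ _))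
  -- transition
  have htr : ∀ β γ, h γ = am (N γ β) / am (M γ β) * h β := by
    intro β γ
    have key : N γ α₀ * (M γ β * M β α₀) = (N γ β * N β α₀) * M γ α₀ := by
      refine eq_of_eval (h := o α₀ * o β * o γ)
        (mul_ne_zero (mul_ne_zero (ho _) (ho _)) (ho _)) fun w hw => ?_
      simp only [map_mul, ne_eq, mul_eq_zero, not_or] at hw
      have w1 := ho' _ w hw.1.1
      have w2 := ho' _ w hw.1.2
      have w3 := ho' _ w hw.2
      have e1 := hNM γ α₀ w ⟨w1, w3⟩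
      have e2 := hNM γ β w ⟨w2, w3⟩
      have e3 := hNM β α₀ w ⟨w1, w2⟩
      have e := hcc α₀ β γ w w1 w2 w3
      rw [e1.2.2, e2.2.2, e3.2.2, div_mul_div_comm,
        div_eq_div_iff (mul_ne_zero e2.2.1 e3.2.1) e1.2.1] at e
      simp only [map_mul]
      linear_combination -e
    have key' := congrArg am key
    simp only [map_mul] at key'
    change am (N γ α₀) / am (M γ α₀) = am (N γ β) / am (M γ β) * (am (N β α₀) / am (M β α₀))
    rw [div_mul_div_comm, div_eq_div_iff (am0 (hM0 _ _))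
      (mul_ne_zero (am0 (hM0 _ _)) (am0 (hM0 _ _)))]
    linear_combination key'
  have hunit : ∀ β γ v, v ∈ U β → v ∈ U γ → UnitAt v (h γ / h β) := by
    intro β γ v hβ hγ
    rw [htr β γ, mul_div_assoc, div_self (h0 β), mul_one]
    have e := hNM γ β v ⟨hβ, hγ⟩
    exact ⟨_, _, e.1, e.2.1, rfl⟩
  -- the good locus of a rational section
  let W : K → Set (σ → ℂ) := fun H => {v | ∃ β, v ∈ U β ∧ UnitAt v (h β / H)}
  have hWall : ∀ H v, v ∈ W H → H ≠ 0 → ∀ γ, v ∈ U γ → UnitAt v (h γ / H) := by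
    rintro H v ⟨β, hβ, hu⟩ hH γ hγ
    have := (hunit β γ v hβ hγ).mul hu
    rwa [div_mul_div_cancel₀ (h0 β)] at this
  have hWopen : ∀ H, ZOp (W H) := by
    rintro H v ⟨β, hβ, P, Q, hP, hQ, he⟩
    obtain ⟨f, hf, hf'⟩ := hU β v hβ
    refine ⟨f * P * Q, by simp [hf, hP, hQ], fun w hw => ?_⟩
    simp only [map_mul, ne_eq, mul_eq_zero, not_or] at hw
    exact ⟨β, hf' w hw.1.1, P, Q, hw.1.2, hw.2, he⟩
  let J : K → Ideal (MvPolynomial σ ℂ) := fun H =>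
    { carrier := {f | ∀ v, eval v f ≠ 0 → v ∈ W H}
      add_mem' := by
        intro a b ha hb v hv
        by_cases h1 : eval v a = 0
        · refine hb v fun h2 => hv ?_
          simp [h1, h2]
        · exact ha v h1
      zero_mem' := by intro v hv; simp at hv
      smul_mem' := by
        intro r a ha v hv
        refine ha v fun h1 => hv ?_
        simp [h1] }
  have hwf : WellFounded ((· > ·) : Ideal (MvPolynomial σ ℂ) → _ → Prop) := wellFounded_gt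
  obtain ⟨_, ⟨H, hH0, rfl⟩, hmax⟩ := hwf.has_min {I | ∃ H, H ≠ 0 ∧ J H = I} ⟨J 1, 1, one_ne_zero, rfl⟩
  -- all charts are good
  have hall : ∀ γ v, v ∈ U γ → v ∈ W H := by
    by_contra hcon
    push Not at hcon
    obtain ⟨γ, v₀, hv₀, hbad⟩ := hcon
    obtain ⟨P, Q, hPQ, hP, hQ, he⟩ := exists_reduced (h γ / H) (div_ne_zero (h0 γ) hH0)
    have hn : ∀ v ∈ U γ ∩ W H, eval v P ≠ 0 ∧ eval v Q ≠ 0 := by
      rintro v ⟨hv, hw⟩
      have hu := hWall H v hw hH0 γ hv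
      rw [he] at hu
      exact hu.reduced hPQ hP hQ
    obtain ⟨P₁, P₂, rfl, hP₁, hP₂⟩ := poly_split (hU γ) (hWopen H) P hP (fun v hv => (hn v hv).1)
    obtain ⟨Q₁, Q₂, rfl, hQ₁, hQ₂⟩ := poly_split (hU γ) (hWopen H) Q hQ (fun v hv => (hn v hv).2)
    have hP₁0 : am P₁ ≠ 0 := am0 (left_ne_zero_of_mul hP)
    have hP₂0 : am P₂ ≠ 0 := am0 (right_ne_zero_of_mul hP)
    have hQ₁0 : am Q₁ ≠ 0 := am0 (left_ne_zero_of_mul hQ)
    have hQ₂0 : am Q₂ ≠ 0 := am0 (right_ne_zero_of_mul hQ)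
    let H' : K := H * (am P₂ / am Q₂)
    have hH'0 : H' ≠ 0 := mul_ne_zero hH0 (div_ne_zero hP₂0 hQ₂0)
    have hsub : W H ⊆ W H' := by
      rintro v hv
      obtain ⟨β, hβ, hu⟩ := hv
      refine ⟨β, hβ, ?_⟩
      have hv : v ∈ W H := ⟨β, hβ, hu⟩
      have h2 : UnitAt v (am P₂ / am Q₂) := ⟨P₂, Q₂, hP₂ v hv, hQ₂ v hv, rfl⟩
      have := hu.div h2
      rwa [div_div] at this
    have hγ : U γ ⊆ W H' := by
      intro v hv
      refine ⟨γ, hv, P₁, Q₁, hP₁ v hv, hQ₁ v hv, ?_⟩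
      have he' : h γ = H * (am P₁ * am P₂ / (am Q₁ * am Q₂)) := by
        have := he
        rw [map_mul, map_mul] at this
        rw [← this, mul_div_cancel₀ _ hH0]
      change h γ / H' = am P₁ / am Q₁
      rw [he']
      exact aux_field H _ _ _ _ hH0 hP₂0 hQ₁0 hQ₂0
    have hle : J H ≤ J H' := fun f hf v hv => hsub (hf v hv)
    have hlt : J H' > J H := by
      refine lt_of_le_of_ne hle fun heq => hbad ?_
      obtain ⟨f, hf, hf'⟩ := hU γ v₀ hv₀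
      have : f ∈ J H' := fun v hv => hγ (hf' v hv)
      rw [← heq] at this
      exact this v₀ hf
    exact hmax (J H') ⟨H', hH'0, rfl⟩ hlt
  have hred := fun β => exists_reduced (h β / H) (div_ne_zero (h0 β) hH0)
  choose P Q hPQ hP hQ he using hred
  have hPQv : ∀ α, ∀ v ∈ U α, eval v (P α) ≠ 0 ∧ eval v (Q α) ≠ 0 := by
    intro α v hv
    have hu := hWall H v (hall α v hv) hH0 α hv
    rw [he] at hu
    exact hu.reduced (hPQ α) (hP α) (hQ α)
  refine ⟨P, Q, hPQv, ?_⟩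
  intro α β v hα hβ
  have e := hNM β α v ⟨hα, hβ⟩
  have t := htr α β
  have t' : am (P β) / am (Q β) = am (N β α) / am (M β α) * (am (P α) / am (Q α)) := by
    have a1 : h β / H = am (P β) / am (Q β) := he β
    have a2 : h α / H = am (P α) / am (Q α) := he α
    rw [← a1, ← a2, t, mul_div_assoc]
  rw [div_mul_div_comm, div_eq_div_iff (am0 (hQ β)) (mul_ne_zero (am0 (hM0 _ _)) (am0 (hQ α))),
    ← map_mul, ← map_mul, ← map_mul, ← map_mul] at t'
  have t'' := congrArg (eval v) (am_inj t')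
  simp only [map_mul] at t''
  rw [e.2.2, div_mul_div_comm, div_eq_div_iff (mul_ne_zero e.2.1 (hPQv α v hα).2)
    (hPQv β v hβ).2]
  linear_combination -t''

end H574R3.Fix
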