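import Pool.Agent.H574R3.Fix.Ufd

open MvPolynomial

namespace H574R3.Fix

theorem eval_line (P : MvPolynomial (Fin 3) ℂ) (v w : Fin 3 → ℂ) (s : ℂ) :
    Polynomial.eval s (MvPolynomial.aeval
      (fun i => Polynomial.C (v i) + Polynomial.X * Polynomial.C (w i - v i)) P) =
    eval (fun i => v i + s * (w i - v i)) P := by
  induction P using MvPolynomial.induction_on with
  | C a => simp
  | add p q hp hq => rw [map_add, map_add, Polynomial.eval_add, hp, hq]
  | mul_X p i hp =>
    rw [map_mul, map_mul, Polynomial.eval_mul, hp, MvPolynomial.aeval_X, MvPolynomial.eval_X]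
    simp

theorem eval_eq_of_indep (P : MvPolynomial (Fin 3) ℂ) (hP : ∀ v : Fin 3 → ℂ, v ≠ 0 → eval v P ≠ 0)
    (v w : Fin 3 → ℂ) (hvw : ∀ a b : ℂ, a • v + b • w = 0 → a = 0 ∧ b = 0) :
    eval v P = eval w P := by
  set q : Polynomial ℂ := MvPolynomial.aeval
      (fun i => Polynomial.C (v i) + Polynomial.X * Polynomial.C (w i - v i)) P with hq
  have hdeg : q.degree = 0 := by
    by_contra hd
    obtain ⟨s, hs⟩ := IsAlgClosed.exists_root q hd
    rw [Polynomial.IsRoot.def, hq, eval_line] at hs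
    refine hP _ ?_ hs
    intro h0
    have := hvw (1 - s) s (by
      funext i
      have := congrFun h0 i
      simp only [Pi.zero_apply] at this
      simp only [Pi.add_apply, Pi.smul_apply, smul_eq_mul, Pi.zero_apply]
      linear_combination this)
    have h1 := this.1
    rw [this.2] at h1
    norm_num at h1
  rw [Polynomial.eq_C_of_degree_eq_zero hdeg] at hq
  have e0 := eval_line P v w 0
  have e1 := eval_line P v w 1
  rw [← hq] at e0 e1
  simp only [Polynomial.eval_C] at e0 e1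
  have f0 : (fun i => v i + 0 * (w i - v i)) = v := by funext i; ring
  have f1 : (fun i => v i + 1 * (w i - v i)) = w := by funext i; ring
  rw [f0] at e0
  rw [f1] at e1
  rw [← e0, ← e1]

theorem eval_eq_const (P : MvPolynomial (Fin 3) ℂ) (hP : ∀ v : Fin 3 → ℂ, v ≠ 0 → eval v P ≠ 0)
    (v w : Fin 3 → ℂ) (hv : v ≠ 0) (hw : w ≠ 0) : eval v P = eval w P := by
  obtain ⟨i, hi⟩ := Function.ne_iff.mp hv
  obtain ⟨k, hk⟩ := Function.ne_iff.mp hw
  have hdec : ∀ i k : Fin 3, ∃ j, j ≠ i ∧ j ≠ k := by decide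
  obtain ⟨j, hji, hjk⟩ := hdec i k
  have key : ∀ (u : Fin 3 → ℂ) (l : Fin 3), u l ≠ 0 → j ≠ l → eval u P = eval (Pi.single j 1) P := by
    intro u l hl hjl
    refine eval_eq_of_indep P hP _ _ fun a b hab => ?_
    have h1 := congrFun hab l
    simp only [Pi.add_apply, Pi.smul_apply, smul_eq_mul, Pi.zero_apply,
      Pi.single_eq_of_ne hjl.symm, mul_zero, add_zero, mul_eq_zero] at h1
    have ha : a = 0 := h1.resolve_right hl
    have h2 := congrFun hab j
    simp only [ha, Pi.add_apply, Pi.smul_apply, smul_eq_mul, Pi.zero_apply, zero_mul, zero_add,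
      Pi.single_eq_same, mul_one] at h2
    exact ⟨ha, h2⟩
  rw [key v i hi hji, key w k hk hjk]

/-- nonzero vectors -/
def NZ : Set (Fin 3 → ℂ) := {v | v ≠ 0}

theorem NZ_open : ZOp NZ := by
  intro v hv
  obtain ⟨i, hi⟩ := Function.ne_iff.mp hv
  refine ⟨X i, by simpa using hi, fun w hw => ?_⟩
  rintro rfl
  simp at hw

theorem NZ_nonempty : NZ.Nonempty := ⟨Pi.single 0 1, by
  intro h
  have := congrFun h 0
  simp at this⟩

/-- nonvanishing regular functions on the punctured space are constant. -/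
theorem unit_const {f : (Fin 3 → ℂ) → ℂ} (hf : RegOn NZ f) (hf0 : ∀ v ∈ NZ, f v ≠ 0)
    (v w : Fin 3 → ℂ) (hv : v ≠ 0) (hw : w ≠ 0) : f v = f w := by
  obtain ⟨P, Q, _, h⟩ := globalRep NZ_open NZ_nonempty hf hf0
  rw [(h v hv).2.2, (h w hw).2.2,
    eval_eq_const P (fun u hu => (h u hu).1) v w hv hw,
    eval_eq_const Q (fun u hu => (h u hu).2.1) v w hv hw]

end H574R3.Fix
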